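import Pool.Agent.Work.MP_67388f_an.TS.Unip

set_option autoImplicit false

namespace Pool.Agent.Work.MP_67388f_an

open MeasureTheory Filter Topology Set
open scoped ENNReal

variable {X : Type*} [TopologicalSpace X] [LocallyCompactSpace X] [T2Space X]
  [SecondCountableTopology X] [MeasurableSpace X] [BorelSpace X]
variable {G : Type*} [Group G] [TopologicalSpace G] [IsTopologicalGroup G] [MulAction G X]
  [ContinuousSMul G X]

/-- If the parts on `E` of the translates `g k • μ` converge in total variation to the part of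
`g₀ • μ` and `(g k)⁻¹ g₀ → 1`, then `(g k)⁻¹ g₀` moves the corresponding part of `μ` less and less
in total variation. -/
theorem tv_of_conv (μ : Measure X) [IsFiniteMeasure μ] (g : ℕ → G) (g₀ : G)
    (hg : Tendsto (fun k => (g k)⁻¹ * g₀) atTop (𝓝 1)) (E : Set X) (hE : MeasurableSet E)
    (h : ∀ e : ℝ, 0 < e → ∀ᶠ k in atTop, ∀ S : Set X, MeasurableSet S →
      |μ.real ((fun z => g k • z) ⁻¹' (S ∩ E)) - μ.real ((fun z => g₀ • z) ⁻¹' (S ∩ E))| ≤ e) :
    TVto atTop (fun k => (g k)⁻¹ * g₀) (μ.restrict ((fun z => g₀ • z) ⁻¹' E)) := by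
  intro e he
  set F : Set X := (fun z => g₀ • z) ⁻¹' E with hF
  have hFm : MeasurableSet F := meas_smul _ hE
  have he8 : 0 < e / 8 := by positivity
  obtain ⟨K, hKF, hK, hKF'⟩ := hFm.exists_isCompact_sdiff_lt (μ := μ) (measure_ne_top μ _)
    (ENNReal.ofReal_pos.2 he8).ne'
  obtain ⟨U, hKU, hU, hUlt⟩ := hK.exists_isOpen_lt_add (μ := μ) (ENNReal.ofReal_pos.2 he8).ne'
  have hopen : IsOpen {p : G × X | p.1 • p.2 ∈ U} := hU.preimage continuous_smul
  obtain ⟨V, W, hV, hW, h1V, hKW, hVW⟩ := generalized_tube_lemma (s := {(1 : G)}) (t := K)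
    isCompact_singleton hK hopen (by
      rintro ⟨a, x⟩ ⟨ha, hx⟩
      rw [Set.mem_singleton_iff] at ha
      subst ha
      show (1 : G) • x ∈ U
      rw [one_smul]
      exact hKU hx)
  have hV1 : V ∈ 𝓝 (1 : G) := hV.mem_nhds (h1V rfl)
  filter_upwards [hg.eventually hV1, h (e / 8) he8] with k hk hTV T hT
  -- a translated comparison
  have hcmp : ∀ T : Set X, MeasurableSet T →
      μ.real (F ∩ (fun z => ((g k)⁻¹ * g₀) • z) ⁻¹' T) ≤
        μ.real (T ∩ (fun z => g k • z) ⁻¹' E) + e / 8 := by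
    intro T hT
    have h1 := hTV ((fun z => (g k)⁻¹ • z) ⁻¹' T) (meas_smul _ hT)
    have e1 : (fun z : X => g k • z) ⁻¹' ((fun z => (g k)⁻¹ • z) ⁻¹' T ∩ E) =
        T ∩ (fun z => g k • z) ⁻¹' E := by
      ext x
      simp
    have e2 : (fun z : X => g₀ • z) ⁻¹' ((fun z => (g k)⁻¹ • z) ⁻¹' T ∩ E) =
        F ∩ (fun z => ((g k)⁻¹ * g₀) • z) ⁻¹' T := by
      ext x
      simp only [mem_preimage, mem_inter_iff, hF, mul_smul]
      tauto
    rw [e1, e2, abs_le] at h1
    linarith [h1.1]
  set Fk : Set X := (fun z => g k • z) ⁻¹' E with hFk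
  have hFkm : MeasurableSet Fk := meas_smul _ hE
  have h2 : μ.real Fk ≤ μ.real F + e / 8 := by
    have h1 := hTV univ MeasurableSet.univ
    rw [univ_inter, abs_le] at h1
    linarith [h1.2]
  have h3 : μ.real F ≤ μ.real (Fk ∩ F) + 3 * (e / 8) := by
    have a1 : μ.real F ≤ μ.real K + e / 8 := by
      have : μ.real (F \ K) ≤ e / 8 := by
        rw [measureReal_def]
        exact (ENNReal.toReal_mono ENNReal.ofReal_ne_top hKF'.le).trans
          (ENNReal.toReal_ofReal he8.le).le
      have h4 : μ.real F = μ.real K + μ.real (F \ K) := by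
        rw [← measureReal_union disjoint_sdiff_self_right (hFm.diff hK.measurableSet),
          union_sdiff_cancel hKF]
      linarith
    have a2 : μ.real K ≤ μ.real (F ∩ (fun z => ((g k)⁻¹ * g₀) • z) ⁻¹' U) := by
      refine measureReal_mono ?_
      intro x hx
      exact ⟨hKF hx, hVW (show ((g k)⁻¹ * g₀, x) ∈ V ×ˢ W from ⟨hk, hKW hx⟩)⟩
    have a3 := hcmp U hU.measurableSet
    have a4 : μ.real (U ∩ Fk) ≤ μ.real (Fk ∩ F) + e / 8 := by
      have b1 : U ∩ Fk ⊆ (Fk ∩ F) ∪ (U \ K) := by
        rintro x ⟨hx1, hx2⟩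
        by_cases hxK : x ∈ K
        · exact Or.inl ⟨hx2, hKF hxK⟩
        · exact Or.inr ⟨hx1, hxK⟩
      have b2 : μ.real (U \ K) ≤ e / 8 := by
        have b3 : μ (U \ K) ≤ ENNReal.ofReal (e / 8) := by
          rw [measure_sdiff hKU hK.measurableSet.nullMeasurableSet hK.measure_ne_top]
          exact tsub_le_iff_left.2 hUlt.le
        rw [measureReal_def]
        exact (ENNReal.toReal_mono ENNReal.ofReal_ne_top b3).trans
          (ENNReal.toReal_ofReal he8.le).le
      calc μ.real (U ∩ Fk) ≤ μ.real ((Fk ∩ F) ∪ (U \ K)) := measureReal_mono b1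
        _ ≤ μ.real (Fk ∩ F) + μ.real (U \ K) := measureReal_union_le _ _
        _ ≤ _ := by linarith
    linarith
  have h5 : μ.real (Fk \ F) ≤ 4 * (e / 8) := by
    have h6 : μ.real Fk = μ.real (Fk ∩ F) + μ.real (Fk \ F) :=
      (measureReal_inter_add_sdiff hFm).symm
    linarith
  have h7 := hcmp T hT
  have h8 : μ.real (T ∩ Fk) ≤ μ.real (T ∩ F) + μ.real (Fk \ F) := by
    have h8' : T ∩ Fk ⊆ (T ∩ F) ∪ (Fk \ F) := by
      rintro x ⟨hx1, hx2⟩
      by_cases hxF : x ∈ F
      · exact Or.inl ⟨hx1, hxF⟩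
      · exact Or.inr ⟨hx2, hxF⟩
    exact (measureReal_mono h8').trans (measureReal_union_le _ _)
  rw [measureReal_restrict_apply (meas_smul _ hT), measureReal_restrict_apply hT]
  have h9 : (fun z : X => ((g k)⁻¹ * g₀) • z) ⁻¹' T ∩ F =
      F ∩ (fun z => ((g k)⁻¹ * g₀) • z) ⁻¹' T := inter_comm _ _
  rw [h9]
  linarith

/-- If asymptotic symmetries are symmetries, only countably many translates of `μ` are not singular
to a given finite measure. -/
theorem countable_translates {L : Type*} [Group L] [TopologicalSpace L] [IsTopologicalGroup L]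
    [SecondCountableTopology L] (j : L →* G) (μ : Measure X) [IsProbabilityMeasure μ]
    (hT : ∀ F : Set X, MeasurableSet F → μ F ≠ 0 → ∀ l : ℕ → L, Tendsto l atTop (𝓝 1) →
      TVto atTop (fun k => j (l k)) (μ.restrict F) →
      ∀ᶠ k in atTop, μ.map (fun z => j (l k) • z) = μ)
    (hj : Continuous j) (ν : Measure X) [IsFiniteMeasure ν] :
    {m : Measure X | ∃ g : L, m = μ.map (fun z => j g • z) ∧ ¬ m ⟂ₘ ν}.Countable := by
  classical
  set S : Set (Measure X) := {m : Measure X | ∃ g : L, m = μ.map (fun z => j g • z) ∧ ¬ m ⟂ₘ ν}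
    with hS
  have hrep : ∀ m : S, ∃ g : L, m.1 = μ.map (fun z => j g • z) := fun m => ⟨_, m.2.choose_spec.1⟩
  choose r hr using hrep
  have hfin : ∀ m : S, IsFiniteMeasure m.1 := by
    intro m
    rw [hr m]
    infer_instance
  have hint : ∀ m : S, Integrable (fun x => (m.1.rnDeriv ν x).toReal) ν := fun m =>
    Measure.integrable_toReal_rnDeriv
  have hfact : Fact ((1 : ℝ≥0∞) ≤ 1) := ⟨le_rfl⟩
  have hfact' : Fact ((1 : ℝ≥0∞) ≠ ⊤) := ⟨ENNReal.one_ne_top⟩
  let ψ : S → L × (X →₁[ν] ℝ) := fun m => (r m, (hint m).toL1 _)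
  letI : TopologicalSpace S := TopologicalSpace.induced ψ inferInstance
  have hψ : Continuous ψ := continuous_induced_dom
  have : SecondCountableTopology S :=
    TopologicalSpace.secondCountableTopology_induced S (L × (X →₁[ν] ℝ)) ψ
  have hdisc : DiscreteTopology S := by
    rw [discreteTopology_iff_singleton_mem_nhds]
    intro m
    by_contra hcon
    have hfr : ∃ᶠ m' in 𝓝 m, m' ≠ m := by
      intro hev
      apply hcon
      filter_upwards [hev] with m' hm'
      exact not_not.1 hm'
    obtain ⟨s, hs, hne⟩ := exists_seq_forall_of_frequently hfr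
    have hψs : Tendsto (fun k => ψ (s k)) atTop (𝓝 (ψ m)) := (hψ.tendsto m).comp hs
    have h1 : Tendsto (fun k => r (s k)) atTop (𝓝 (r m)) :=
      (continuous_fst.tendsto (ψ m)).comp hψs
    have h2 : Tendsto (fun k => (hint (s k)).toL1 _) atTop (𝓝 ((hint m).toL1 _)) :=
      (continuous_snd.tendsto (ψ m)).comp hψs
    have hl : Tendsto (fun k => (r (s k))⁻¹ * r m) atTop (𝓝 1) := by
      have := (h1.inv).mul (tendsto_const_nhds (x := r m))
      simpa using this
    -- a common set
    have hsing : ∀ m : S, ∃ E : Set X, MeasurableSet E ∧ (m.1.singularPart ν) E = 0 ∧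
        ν Eᶜ = 0 := by
      intro m
      have := Measure.mutuallySingular_singularPart m.1 ν
      exact this
    choose D hD hD1 hD2 using hsing
    set E : Set X := D m ∩ ⋂ k, D (s k) with hEdef
    have hE : MeasurableSet E := (hD m).inter (MeasurableSet.iInter fun k => hD (s k))
    have hEc : ν Eᶜ = 0 := by
      rw [hEdef, compl_inter, compl_iInter]
      exact measure_union_null (hD2 m) (measure_iUnion_null fun k => hD2 (s k))
    have hval : ∀ m' : S, E ⊆ D m' → ∀ T : Set X, MeasurableSet T →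
        m'.1.real (T ∩ E) = ∫ x in T ∩ E, (m'.1.rnDeriv ν x).toReal ∂ν := by
      intro m' hsub T hT
      have hdec := Measure.haveLebesgueDecomposition_add m'.1 ν
      have e1 : m'.1 (T ∩ E) = ∫⁻ x in T ∩ E, m'.1.rnDeriv ν x ∂ν := by
        conv_lhs => rw [hdec]
        rw [Measure.add_apply, withDensity_apply _ (hT.inter hE)]
        have : (m'.1.singularPart ν) (T ∩ E) = 0 :=
          measure_mono_null (inter_subset_right.trans hsub) (hD1 m')
        rw [this, zero_add]
      rw [measureReal_def, e1, integral_toReal]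
      · exact (Measure.measurable_rnDeriv _ _).aemeasurable
      · exact ae_restrict_of_ae (Measure.rnDeriv_lt_top _ _)
    have hmE : m.1 E ≠ 0 := by
      intro h0
      obtain ⟨g, -, hns⟩ := m.2
      exact hns ⟨E, hE, h0, hEc⟩
    have hF0 : μ ((fun z => j (r m) • z) ⁻¹' E) ≠ 0 := by
      rw [← Measure.map_apply (meas_smul _) hE, ← hr m]
      exact hmE
    have hconv : ∀ e : ℝ, 0 < e → ∀ᶠ k in atTop, ∀ T : Set X, MeasurableSet T →
        |μ.real ((fun z => j (r (s k)) • z) ⁻¹' (T ∩ E)) -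
          μ.real ((fun z => j (r m) • z) ⁻¹' (T ∩ E))| ≤ e := by
      intro e he
      have h3 := Metric.tendsto_atTop.1 h2 e he
      obtain ⟨N, hN⟩ := h3
      filter_upwards [eventually_ge_atTop N] with k hk T hT
      have h4 := hN k hk
      have e1 : μ.real ((fun z => j (r (s k)) • z) ⁻¹' (T ∩ E)) = (s k).1.real (T ∩ E) := by
        rw [measureReal_def, measureReal_def, hr (s k),
          Measure.map_apply (meas_smul _) (hT.inter hE)]
      have e2 : μ.real ((fun z => j (r m) • z) ⁻¹' (T ∩ E)) = m.1.real (T ∩ E) := by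
        rw [measureReal_def, measureReal_def, hr m,
          Measure.map_apply (meas_smul _) (hT.inter hE)]
      rw [e1, e2, hval (s k) (fun x hx => mem_iInter.1 hx.2 k) T hT, hval m (fun x hx => hx.1) T hT,
        ← integral_sub (hint (s k)).integrableOn (hint m).integrableOn]
      have h5 : ‖(hint (s k)).toL1 _ - (hint m).toL1 _‖ =
          ∫ x, ‖(((s k).1.rnDeriv ν x).toReal - (m.1.rnDeriv ν x).toReal)‖ ∂ν := by
        rw [← Integrable.toL1_sub, L1.norm_eq_integral_norm]
        refine integral_congr_ae ?_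
        filter_upwards [Integrable.coeFn_toL1 ((hint (s k)).sub (hint m))] with x hx
        rw [hx]
        rfl
      rw [dist_eq_norm, h5] at h4
      calc |∫ x in T ∩ E, (((s k).1.rnDeriv ν x).toReal - (m.1.rnDeriv ν x).toReal) ∂ν|
          ≤ ∫ x in T ∩ E, ‖(((s k).1.rnDeriv ν x).toReal - (m.1.rnDeriv ν x).toReal)‖ ∂ν :=
            norm_integral_le_integral_norm (μ := ν.restrict (T ∩ E))
              (fun x => ((s k).1.rnDeriv ν x).toReal - (m.1.rnDeriv ν x).toReal)
        _ ≤ ∫ x, ‖(((s k).1.rnDeriv ν x).toReal - (m.1.rnDeriv ν x).toReal)‖ ∂ν :=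
            setIntegral_le_integral ((hint (s k)).sub (hint m)).norm
              (Eventually.of_forall fun x => norm_nonneg _)
        _ ≤ e := h4.le
    have hTV := tv_of_conv μ (fun k => j (r (s k))) (j (r m)) (by
      have := (hj.tendsto 1).comp hl
      rw [map_one] at this
      refine this.congr fun k => ?_
      simp only [Function.comp_apply, map_mul, map_inv]) E hE hconv
    have hTV' : TVto atTop (fun k => j ((r (s k))⁻¹ * r m))
        (μ.restrict ((fun z => j (r m) • z) ⁻¹' E)) := by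
      intro e he
      filter_upwards [hTV e he] with k hk T hT
      have := hk T hT
      rw [map_mul, map_inv]
      exact this
    obtain ⟨k, hk⟩ := (hT _ (meas_smul _ hE) hF0 _ hl hTV').exists
    apply hne k
    apply Subtype.ext
    rw [hr (s k), hr m]
    conv_lhs => rw [← hk]
    rw [map_map_smul]
    congr 1
    funext z
    rw [← map_mul, mul_inv_cancel_left]
  exact countable_of_Lindelof_of_discrete

/-- A subgroup whose small elements lie in `Z` is covered by countably many cosets of `Z`. -/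
theorem countable_cosets {L : Type*} [Group L] [TopologicalSpace L] [IsTopologicalGroup L]
    [SecondCountableTopology L] (St : Subgroup L) (Z : Set L)
    (h : ∀ᶠ s in 𝓝 (1 : L), s ∈ St → s ∈ Z) :
    ∃ C : Set L, C.Countable ∧ ∀ s ∈ St, ∃ c ∈ C, c⁻¹ * s ∈ Z := by
  obtain ⟨t, hts, htc, hcov⟩ := TopologicalSpace.countable_cover_nhdsWithin (s := (St : Set L))
    (f := fun x => {y : L | x⁻¹ * y ∈ {s | s ∈ St → s ∈ Z}}) (by
      intro x hx
      refine mem_nhdsWithin_of_mem_nhds ?_
      have hc : Tendsto (fun y : L => x⁻¹ * y) (𝓝 x) (𝓝 1) := by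
        have : Continuous (fun y : L => x⁻¹ * y) := continuous_const.mul continuous_id
        have := this.tendsto x
        rwa [inv_mul_cancel] at this
      exact hc h)
  refine ⟨t, htc, fun s hs => ?_⟩
  obtain ⟨x, hx, hxs⟩ := mem_iUnion₂.1 (hcov hs)
  exact ⟨x, hx, hxs (mul_mem (inv_mem (hts hx)) hs)⟩

lemma sl_second {n : ℕ} {K : Type*} [NormedField K] [SecondCountableTopology K] :
    SecondCountableTopology (Matrix.SpecialLinearGroup (Fin n) K) := by
  have h : SecondCountableTopology (Matrix (Fin n) (Fin n) K) :=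
    inferInstanceAs (SecondCountableTopology (Fin n → Fin n → K))
  exact (isClosedEmbedding_slval (n := n) (K := K)).isEmbedding.secondCountableTopology

lemma sl_loc {n : ℕ} {K : Type*} [NormedField K] [ProperSpace K] :
    LocallyCompactSpace (Matrix.SpecialLinearGroup (Fin n) K) := by
  have h : LocallyCompactSpace (Matrix (Fin n) (Fin n) K) :=
    inferInstanceAs (LocallyCompactSpace (Fin n → Fin n → K))
  exact (isClosedEmbedding_slval (n := n) (K := K)).locallyCompactSpace

/-- `SL(n₀, ℝ) × ∏ SL(n v, ℚ_[q v])` is second countable. -/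
lemma sls_second {ι : Type*} [Fintype ι] {n₀ : ℕ} {n : ι → ℕ} {q : ι → ℕ}
    [∀ v, Fact (q v).Prime] : SecondCountableTopology (SLS n₀ n q) := by
  have h1 : SecondCountableTopology (Matrix.SpecialLinearGroup (Fin n₀) ℝ) := sl_second
  have h2 : ∀ v, SecondCountableTopology (Matrix.SpecialLinearGroup (Fin (n v)) ℚ_[q v]) :=
    fun v => sl_second
  infer_instance

/-- `SL(n₀, ℝ) × ∏ SL(n v, ℚ_[q v])` is locally compact. -/
lemma sls_loc {ι : Type*} [Fintype ι] {n₀ : ℕ} {n : ι → ℕ} {q : ι → ℕ}
    [∀ v, Fact (q v).Prime] : LocallyCompactSpace (SLS n₀ n q) := by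
  have h1 : LocallyCompactSpace (Matrix.SpecialLinearGroup (Fin n₀) ℝ) := sl_loc
  have h2 : ∀ v, LocallyCompactSpace (Matrix.SpecialLinearGroup (Fin (n v)) ℚ_[q v]) :=
    fun v => sl_loc
  infer_instance

end Pool.Agent.Work.MP_67388f_an
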