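import Pool.Agent.Work.MP_67388f_an.TS.MainS

set_option autoImplicit false

namespace Pool.Agent.Work.MP_67388f_an

open MeasureTheory Filter Topology Matrix Set
open scoped ENNReal

section general

variable {X : Type*} [TopologicalSpace X] [LocallyCompactSpace X] [T2Space X]
  [SecondCountableTopology X] [MeasurableSpace X] [BorelSpace X]
variable {G : Type*} [Group G] [TopologicalSpace G] [IsTopologicalGroup G] [MulAction G X]
  [ContinuousSMul G X]
variable {B : Type*} [Group B] [TopologicalSpace B] [IsTopologicalGroup B]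
  [LocallyCompactSpace B] [SecondCountableTopology B] [T2Space B] [MeasurableSpace B]
  [BorelSpace B]

/-- A measure carried by a set that almost every `b s` moves off itself is carried by a set which
every orbit meets in a null set of times. -/
theorem univ_null (lam : Measure B) [lam.IsHaarMeasure] (b : B →* G) (hb : Continuous b)
    (μ : Measure X) [IsProbabilityMeasure μ]
    (h : ∃ E : Set X, MeasurableSet E ∧ μ Eᶜ = 0 ∧
      ∀ᵐ s ∂lam, μ ((fun z => b s • z) ⁻¹' E) = 0) :
    ∃ E : Set X, MeasurableSet E ∧ μ Eᶜ = 0 ∧ ∀ x : X, lam {s : B | b s • x ∈ E} = 0 := by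
  obtain ⟨E, hE, hμE, hs⟩ := h
  have hact : Measurable (fun p : B × X => b p.1 • p.2) :=
    ((hb.comp continuous_fst).smul continuous_snd).measurable
  have hf : Measurable (fun x : X => lam {s : B | b s • x ∈ E}) :=
    measurable_measure_prodMk_right (hact hE)
  have h0 : ∫⁻ x, lam {s : B | b s • x ∈ E} ∂μ = 0 := by
    have h1 : (lam.prod μ) ((fun p : B × X => b p.1 • p.2) ⁻¹' E) = 0 := by
      rw [Measure.prod_apply (hact hE)]
      rw [lintegral_eq_zero_iff (measurable_measure_prodMk_left (hact hE))]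
      exact hs
    rw [Measure.prod_apply_symm (hact hE)] at h1
    exact h1
  rw [lintegral_eq_zero_iff hf] at h0
  refine ⟨E ∩ {x | lam {s : B | b s • x ∈ E} = 0}, hE.inter (hf (measurableSet_singleton 0)), ?_, ?_⟩
  · rw [Set.compl_inter]
    exact measure_union_null hμE h0
  · intro x
    by_cases hex : ∃ s₀ : B, b s₀ • x ∈ E ∩ {x | lam {s : B | b s • x ∈ E} = 0}
    · obtain ⟨s₀, -, hs₀⟩ := hex
      have h1 : lam ((fun s => s * s₀⁻¹) ⁻¹' {s : B | b s • (b s₀ • x) ∈ E}) = 0 :=
        (measure_mul_right_null lam s₀⁻¹).2 hs₀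
      refine measure_mono_null ?_ h1
      intro s hs
      show b (s * s₀⁻¹) • b s₀ • x ∈ E
      rw [smul_smul, ← map_mul, inv_mul_cancel_right]
      exact hs.1
    · have h1 : {s : B | b s • x ∈ E ∩ {x | lam {s : B | b s • x ∈ E} = 0}} = ∅ := by
        ext s
        simp only [Set.mem_ofPred_eq, Set.mem_empty_iff_false, iff_false]
        exact fun h => hex ⟨s, h⟩
      rw [h1, measure_empty]

/-- If asymptotic symmetries along `b` are symmetries, then `b` either preserves `μ` on an open
subgroup or `μ` is carried by a set which every orbit meets in a null set of times. -/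
theorem sing_or_open (lam : Measure B) [lam.IsHaarMeasure] (b : B →* G) (hb : Continuous b)
    (μ : Measure X) [IsProbabilityMeasure μ]
    (hT : ∀ ν : Measure X, IsFiniteMeasure ν → ¬ μ ⟂ₘ ν → ∀ s : ℕ → B, Tendsto s atTop (𝓝 1) →
      TVto atTop (fun k => b (s k)) ν → ∀ᶠ k in atTop, μ.map (fun z => b (s k) • z) = μ) :
    IsOpen {s : B | μ.map (fun z => b s • z) = μ} ∨
      ∃ E : Set X, MeasurableSet E ∧ μ Eᶜ = 0 ∧ ∀ x : X, lam {s : B | b s • x ∈ E} = 0 := by
  classical
  by_cases hs : ∃ E : Set X, MeasurableSet E ∧ μ Eᶜ = 0 ∧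
        ∀ᵐ s ∂lam, μ ((fun z => b s • z) ⁻¹' E) = 0
  · exact Or.inr (univ_null lam b hb μ hs)
  left
  push Not at hs
  obtain ⟨ν, hν, hE⟩ : ∃ ν : Measure X, IsFiniteMeasure ν ∧ ∀ E : Set X, MeasurableSet E →
      μ Eᶜ = 0 → ∃ᶠ s in ae lam, ν ((fun z => b s • z) ⁻¹' E) ≠ 0 :=
    ⟨μ, inferInstance, fun E h1 h2 => by
      have := hs E h1 h2
      exact this⟩
  have hact : Measurable (fun p : B × X => b p.1 • p.2) :=
    ((hb.comp continuous_fst).smul continuous_snd).measurable
  let K : CompactExhaustion B := CompactExhaustion.choice B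
  have hKc : ∀ N, IsCompact (K N) := fun N => K.isCompact N
  have hKm : ∀ N, MeasurableSet (K N) := fun N => (hKc N).measurableSet
  have hKf : ∀ N, IsFiniteMeasure (lam.restrict (K N)) := fun N =>
    ⟨by rw [Measure.restrict_apply MeasurableSet.univ, univ_inter]; exact (hKc N).measure_lt_top⟩
  set ν' : ℕ → Measure X := fun N => ((lam.restrict (K N)).prod ν).map (fun p => b p.1 • p.2)
    with hν'
  have hfin : ∀ N, IsFiniteMeasure (ν' N) := fun N => Measure.isFiniteMeasure_map _ _
  have hval : ∀ N, ∀ E : Set X, MeasurableSet E →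
      ν' N E = ∫⁻ s in K N, ν ((fun z => b s • z) ⁻¹' E) ∂lam := by
    intro N E hE
    rw [hν']
    simp only
    rw [Measure.map_apply hact hE, Measure.prod_apply (hact hE)]
    rfl
  have hmeas : ∀ E : Set X, MeasurableSet E →
      Measurable (fun s => ν ((fun z => b s • z) ⁻¹' E)) := by
    intro E hE
    exact measurable_measure_prodMk_left (hact hE)
  -- some ν' N is not singular to μ
  obtain ⟨N, hN⟩ : ∃ N, ¬ μ ⟂ₘ ν' N := by
    by_contra hcon
    push Not at hcon
    choose t ht h1 h2 using hcon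
    apply hE (⋂ N, (t N)ᶜ) (MeasurableSet.iInter fun N => (ht N).compl)
    · rw [compl_iInter]
      simp only [compl_compl]
      exact measure_iUnion_null h1
    · have h3 : ∀ N, ∀ᵐ s ∂lam, s ∈ K N → ν ((fun z => b s • z) ⁻¹' (t N)ᶜ) = 0 := by
        intro N
        have h4 := h2 N
        rw [hval N _ (ht N).compl, lintegral_eq_zero_iff (hmeas _ (ht N).compl)] at h4
        rw [Filter.EventuallyEq, ae_restrict_iff' (hKm N)] at h4
        exact h4
      rw [← ae_all_iff] at h3
      filter_upwards [h3] with s hs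
      obtain ⟨N, hsN⟩ := K.exists_mem s
      refine not_not.2 ?_
      refine measure_mono_null ?_ (hs N hsN)
      exact preimage_mono (iInter_subset _ N)
  -- total variation continuity
  have htv : ∀ s : ℕ → B, Tendsto s atTop (𝓝 1) → TVto atTop (fun k => b (s k)) (ν' N) := by
    intro s hs e he
    set δ : ℝ := e / (ν.real univ + 1) with hδ
    have hδ0 : 0 < δ := by
      have : 0 ≤ ν.real univ := measureReal_nonneg
      positivity
    obtain ⟨U, hKU, hU, hUlt⟩ := (hKc N).exists_isOpen_lt_add (μ := lam)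
      (ENNReal.ofReal_pos.2 hδ0).ne'
    obtain ⟨V, hV, hVU⟩ := compact_open_separated_mul_left (hKc N) hU hKU
    filter_upwards [hs.eventually hV] with k hk E hE
    set f : B → ℝ≥0∞ := fun s => ν ((fun z => b s • z) ⁻¹' E) with hf
    have hfm : Measurable f := hmeas E hE
    have h1 : ν' N ((fun z => b (s k) • z) ⁻¹' E) ≤ ∫⁻ r in U, f r ∂lam := by
      rw [hval N _ ((continuous_const_smul (b (s k))).measurable hE)]
      calc ∫⁻ r in K N, ν ((fun z => b r • z) ⁻¹' ((fun z => b (s k) • z) ⁻¹' E)) ∂lam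
          = ∫⁻ r, (K N).indicator (fun r => f (s k * r)) r ∂lam := by
            rw [lintegral_indicator (hKm N)]
            refine lintegral_congr fun r => ?_
            rw [hf]
            simp only
            rw [← preimage_comp]
            congr 2
            funext z
            show b (s k) • b r • z = _
            rw [smul_smul, ← map_mul]
        _ ≤ ∫⁻ r, (U.indicator f) (s k * r) ∂lam := by
            refine lintegral_mono fun r => ?_
            by_cases hr : r ∈ K N
            · rw [indicator_of_mem hr]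
              have : s k * r ∈ U := hVU (Set.mul_mem_mul hk hr)
              rw [indicator_of_mem this]
            · rw [indicator_of_notMem hr]
              exact zero_le
        _ = ∫⁻ r, (U.indicator f) r ∂lam :=
            lintegral_mul_left_eq_self (μ := lam) (U.indicator f) (s k)
        _ = ∫⁻ r in U, f r ∂lam := lintegral_indicator hU.measurableSet _
    have h2 : ∫⁻ r in U, f r ∂lam ≤ ν' N E + ENNReal.ofReal δ * ν univ := by
      have h3 : U = K N ∪ (U \ K N) := (union_sdiff_cancel hKU).symm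
      rw [h3, lintegral_union (MeasurableSet.diff hU.measurableSet (hKm N)) disjoint_sdiff_self_right, hval N E hE]
      refine add_le_add le_rfl ?_
      have h4 : lam (U \ K N) ≤ ENNReal.ofReal δ := by
        rw [measure_sdiff hKU (hKm N).nullMeasurableSet (hKc N).measure_ne_top]
        exact tsub_le_iff_left.2 hUlt.le
      calc ∫⁻ r in U \ K N, f r ∂lam ≤ ∫⁻ _ in U \ K N, ν univ ∂lam :=
            lintegral_mono fun r => measure_mono (subset_univ _)
        _ = ν univ * lam (U \ K N) := by rw [setLIntegral_const]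
        _ ≤ ν univ * ENNReal.ofReal δ := by gcongr
        _ = ENNReal.ofReal δ * ν univ := mul_comm _ _
    have h5 := h1.trans h2
    rw [measureReal_def, measureReal_def]
    have hfin' : ν' N E + ENNReal.ofReal δ * ν univ ≠ ⊤ :=
      ENNReal.add_ne_top.2 ⟨measure_ne_top _ _,
        ENNReal.mul_ne_top ENNReal.ofReal_ne_top (measure_ne_top _ _)⟩
    have h6 := ENNReal.toReal_mono hfin' h5
    rw [ENNReal.toReal_add (measure_ne_top _ _)
      (ENNReal.mul_ne_top ENNReal.ofReal_ne_top (measure_ne_top _ _)), ENNReal.toReal_mul,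
      ENNReal.toReal_ofReal hδ0.le] at h6
    refine h6.trans ?_
    have h7 : δ * (ν univ).toReal ≤ e := by
      rw [hδ, div_mul_eq_mul_div, div_le_iff₀ (by
        have : 0 ≤ ν.real univ := measureReal_nonneg
        positivity)]
      have : (ν univ).toReal = ν.real univ := rfl
      rw [this]
      nlinarith [measureReal_nonneg (μ := ν) (s := univ)]
    linarith
  have hev : ∀ᶠ r in 𝓝 (1 : B), μ.map (fun z => b r • z) = μ := by
    rw [eventually_iff_seq_eventually]
    intro s hs
    exact hT (ν' N) (hfin N) hN s hs (htv s hs)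
  have hopen := Subgroup.isOpen_of_mem_nhds ((stb (G := G) μ).comap b) (g := 1) hev
  exact hopen

end general

/-- Let `ρ` map `A` to matrices over a normed field: every `ρ a` is diagonal, and a product of
integer powers of the diagonal entries which has norm one for all `a ∈ A` is equal to one for all
`a ∈ A`. -/
def DiagClassA {G : Type*} [Group G] {n : ℕ} {K : Type*} [NormedField K] (A : Subgroup G)
    (ρ : G → SpecialLinearGroup (Fin n) K) : Prop :=
  (∀ a ∈ A, ∀ i j, i ≠ j → ρ a i j = 0) ∧
    ∀ m : Fin n → ℤ, (∀ a ∈ A, ‖∏ i, ρ a i i ^ m i‖ = 1) → ∀ a ∈ A, ∏ i, ρ a i i ^ m i = 1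

section cls

variable {G : Type*} [Group G] {n : ℕ} {K : Type*} [NormedField K] {A : Subgroup G}
  {ρ : G → SpecialLinearGroup (Fin n) K}

lemma DiagClassA.ne (h : DiagClassA A ρ) (a : G) (ha : a ∈ A) (i : Fin n) : ρ a i i ≠ 0 := by
  refine sl_diag_ne (a := ρ a) (β := fun i => ρ a i i) ?_ i
  ext p q
  by_cases hpq : p = q
  · subst hpq; rw [diagonal_apply_eq]
  · rw [diagonal_apply_ne _ hpq]; exact h.1 a ha p q hpq

lemma DiagClassA.quad (h : DiagClassA A ρ) (i k r s : Fin n)
    (hn : ∀ a ∈ A, ‖ρ a i i * ρ a s s‖ = ‖ρ a k k * ρ a r r‖) (a : G) (ha : a ∈ A) :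
    ρ a i i * ρ a s s = ρ a k k * ρ a r r := by
  classical
  have hprod : ∀ a ∈ A, ∏ j, ρ a j j ^ ((((Pi.single i 1 + Pi.single s 1) + Pi.single k (-1)) +
      Pi.single r (-1) : Fin n → ℤ)) j = ρ a i i * ρ a s s * (ρ a k k)⁻¹ * (ρ a r r)⁻¹ := by
    intro a ha
    have hne := h.ne a ha
    have hp : ∀ (m m' : Fin n → ℤ), ∏ j, ρ a j j ^ (m + m') j =
        (∏ j, ρ a j j ^ m j) * ∏ j, ρ a j j ^ m' j := by
      intro m m'
      rw [← Finset.prod_mul_distrib]
      exact Finset.prod_congr rfl fun j _ => zpow_add₀ (hne j) _ _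
    have hsingle : ∀ (i : Fin n) (c : ℤ), ∏ j, ρ a j j ^ (Pi.single i c : Fin n → ℤ) j =
        ρ a i i ^ c := by
      intro i c
      rw [Finset.prod_eq_single i]
      · rw [Pi.single_eq_same]
      · intro j _ hj
        rw [Pi.single_eq_of_ne hj, zpow_zero]
      · intro h; exact absurd (Finset.mem_univ _) h
    rw [hp, hp, hp, hsingle, hsingle, hsingle, hsingle]
    simp only [zpow_one, _root_.zpow_neg_one]
  have h2 := h.2 (((Pi.single i 1 + Pi.single s 1) + Pi.single k (-1)) + Pi.single r (-1)) (by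
    intro a ha
    rw [hprod a ha]
    have hk := h.ne a ha k
    have hr := h.ne a ha r
    rw [mul_assoc, ← mul_inv, norm_mul, hn a ha, norm_inv, mul_inv_cancel₀]
    exact norm_ne_zero_iff.2 (mul_ne_zero hk hr)) a ha
  rw [hprod a ha] at h2
  have hk := h.ne a ha k
  have hr := h.ne a ha r
  field_simp at h2
  exact h2

end cls

variable {X : Type*} [TopologicalSpace X] [LocallyCompactSpace X] [T2Space X]
  [SecondCountableTopology X] [MeasurableSpace X] [BorelSpace X]
variable {ι : Type*} [Fintype ι] {n₀ : ℕ} {n : ι → ℕ} {q : ι → ℕ} [hqp : ∀ v, Fact (q v).Prime]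
variable {H : Type*} [Group H] [TopologicalSpace H] [IsTopologicalGroup H]
variable {L : Type*} [Group L] [TopologicalSpace L] [IsTopologicalGroup L]

/-- Total variation rigidity for `L × H`. -/
theorem tv_rigid_LH (hq : Function.Injective q) (κ : L →* SLS n₀ n q) (hκ : IsClosedEmbedding κ)
    [MulAction (L × H) X] [ContinuousSMul (L × H) X]
    (A : Subgroup (L × H)) (hR : DiagClassA A (fun a => (κ a.1).1))
    (hP : ∀ v, DiagClassA A (fun a => (κ a.1).2 v))
    (μ : Measure X) [IsProbabilityMeasure μ]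
    (hμ : ∀ a ∈ A, μ.map (fun z => a • z) = μ)
    (herg : ∀ s : Set X, MeasurableSet s → (∀ a ∈ A, (fun z => a • z) ⁻¹' s =ᵐ[μ] s) →
      μ s = 0 ∨ μ sᶜ = 0)
    (ν : Measure X) [IsFiniteMeasure ν] (hns : ¬ μ ⟂ₘ ν) (g : ℕ → L)
    (hg : Tendsto g atTop (𝓝 1)) (hTV : TVto atTop (fun k => (g k, (1 : H))) ν) :
    ∀ᶠ k in atTop, μ.map (fun z => (g k, (1 : H)) • z) = μ := by
  exact tv_rigid_S (G := L × H) hq κ (MonoidHom.inl L H) (MonoidHom.fst L H) hκ
    (continuous_id.prodMk continuous_const)
    (by
      intro g u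
      apply Prod.ext
      · rfl
      · show g.2 * 1 * g.2⁻¹ = 1
        rw [mul_one, mul_inv_cancel])
    A μ hμ herg hR.1 (fun a ha v => (hP v).1 a ha) (fun i k r s h a ha => hR.quad i k r s h a ha)
    (fun v i k r s h a ha => (hP v).quad i k r s h a ha) ν hns g hg hTV

end Pool.Agent.Work.MP_67388f_an
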