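import Pool.Agent.Work.MP_67388f_an.TS.UpLe

set_option autoImplicit false

namespace Pool.Agent.Work.MP_67388f_an

open MeasureTheory Filter Topology Matrix

variable {X : Type*} [TopologicalSpace X] [LocallyCompactSpace X] [T2Space X]
  [SecondCountableTopology X] [MeasurableSpace X] [BorelSpace X]
variable {G : Type*} [Group G] [TopologicalSpace G] [IsTopologicalGroup G] [MulAction G X]
  [ContinuousSMul G X]
variable {L : Type*} [Group L] [TopologicalSpace L] [IsTopologicalGroup L]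
variable {ι : Type*} [Fintype ι] {n₀ : ℕ} {n : ι → ℕ} {q : ι → ℕ} [hqp : ∀ v, Fact (q v).Prime]

/-- clearing the real component -/
theorem real_clear {κ : L →* SLS n₀ n q} (hκ : IsClosedEmbedding κ) (j : L →* G) (p : G →* L)
    (hj : Continuous j)
    (hjp : ∀ (g : G) (u : L), g * j u * g⁻¹ = j (p g * u * (p g)⁻¹))
    {A : Subgroup G} (μ : Measure X) [IsProbabilityMeasure μ]
    (hμ : ∀ a ∈ A, μ.map (fun z => a • z) = μ)
    (herg : ∀ s : Set X, MeasurableSet s → (∀ a ∈ A, (fun z => a • z) ⁻¹' s =ᵐ[μ] s) →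
      μ s = 0 ∨ μ sᶜ = 0)
    {a₀ : G} {α : Fin n₀ → ℝ} {β : (v : ι) → Fin (n v) → ℚ_[q v]} (D : SData κ p A a₀ α β)
    (φ : Lp ℝ 2 μ) (h0 : ∫ x, φ x ∂μ ≠ 0) (hSD : gS j (p a₀) μ ≤ gD j (p a₀) μ φ)
    (v : L) (hv : v ∈ gD j (p a₀) μ φ) :
    ∃ e : L, e ∈ gS j (p a₀) μ ∧ (κ (e⁻¹ * v)).1 = 1 := by
  classical
  have claim : ∀ S : Finset ℝ, (∀ l ∈ S, ∀ i k, wt α i k < l → wt α i k ∈ S) →
      ∃ e : L, e ∈ gS j (p a₀) μ ∧
        ∀ i k, 0 < wt α i k → wt α i k ∈ S → (κ (e⁻¹ * v)).1 i k = 0 := by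
    intro S
    induction S using Finset.induction_on_max with
    | empty => exact fun _ => ⟨1, one_mem _, fun i k _ h => absurd h (Finset.notMem_empty _)⟩
    | insert a S hmax ih =>
      intro hS
      have haS : a ∉ S := fun h => lt_irrefl a (hmax a h)
      have hS' : ∀ l ∈ S, ∀ i k, wt α i k < l → wt α i k ∈ S := by
        intro l hl i k hik
        rcases Finset.mem_insert.1 (hS l (Finset.mem_insert_of_mem hl) i k hik) with h | h
        · exact absurd (hmax l hl) (not_lt.2 (h ▸ hik.le))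
        · exact h
      obtain ⟨e₁, he₁, h1⟩ := ih hS'
      rcases le_or_gt a 0 with ha | ha
      · refine ⟨e₁, he₁, fun i k h0 hik => ?_⟩
        rcases Finset.mem_insert.1 hik with h | h
        · exact absurd h0 (not_lt.2 (h ▸ ha))
        · exact h1 i k h0 h
      · have hv1 : e₁⁻¹ * v ∈ gD j (p a₀) μ φ := mul_mem (inv_mem (hSD he₁)) hv
        obtain ⟨e₂, he₂, h2⟩ := real_step hκ j p hj hjp μ hμ herg D φ h0 (e₁⁻¹ * v) hv1 a ha (by
          intro i k h3 h4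
          rcases Finset.mem_insert.1 (hS a (Finset.mem_insert_self a S) i k h4) with h | h
          · exact absurd h4 (by rw [h]; exact lt_irrefl a)
          · exact h1 i k h3 h)
        refine ⟨e₁ * e₂, mul_mem he₁ he₂, fun i k h3 hik => ?_⟩
        have e : (e₁ * e₂)⁻¹ * v = e₂⁻¹ * (e₁⁻¹ * v) := by group
        rw [e]
        refine h2 i k h3 ?_
        rcases Finset.mem_insert.1 hik with h | h
        · exact h.le
        · exact (hmax _ h).le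
  obtain ⟨e, he, h1⟩ := claim (Finset.univ.image (fun c : Fin n₀ × Fin n₀ => wt α c.1 c.2)) (by
    intro l _ i k _
    exact Finset.mem_image.2 ⟨(i, k), Finset.mem_univ _, rfl⟩)
  refine ⟨e, he, ?_⟩
  have hv1 : e⁻¹ * v ∈ gD j (p a₀) μ φ := mul_mem (inv_mem (hSD he)) hv
  obtain ⟨hvR, -⟩ := (D.mem_up hκ _).1 hv1.1
  apply Subtype.ext
  ext i k
  rcases le_or_gt (wt α i k) 0 with h | h
  · exact hvR i k h
  · have h2 := h1 i k h (Finset.mem_image.2 ⟨(i, k), Finset.mem_univ _, rfl⟩)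
    have h3 : i ≠ k := by
      rintro rfl
      rw [wt_self] at h
      exact lt_irrefl _ h
    have h4 : (1 : Matrix (Fin n₀) (Fin n₀) ℝ) i k = 0 := one_apply_ne h3
    exact h2.trans h4.symm

/-- clearing one finite place -/
theorem padic_clear (hq : Function.Injective q) {κ : L →* SLS n₀ n q} (hκ : IsClosedEmbedding κ)
    (j : L →* G) (p : G →* L) (hj : Continuous j)
    (hjp : ∀ (g : G) (u : L), g * j u * g⁻¹ = j (p g * u * (p g)⁻¹))
    {A : Subgroup G} (μ : Measure X) [IsProbabilityMeasure μ]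
    (hμ : ∀ a ∈ A, μ.map (fun z => a • z) = μ)
    (herg : ∀ s : Set X, MeasurableSet s → (∀ a ∈ A, (fun z => a • z) ⁻¹' s =ᵐ[μ] s) →
      μ s = 0 ∨ μ sᶜ = 0)
    {a₀ : G} {α : Fin n₀ → ℝ} {β : (v : ι) → Fin (n v) → ℚ_[q v]} (D : SData κ p A a₀ α β)
    (φ : Lp ℝ 2 μ) (h0 : ∫ x, φ x ∂μ ≠ 0) (hSD : gS j (p a₀) μ ≤ gD j (p a₀) μ φ) (v₁ : ι)
    (S : Finset ℝ) :
    (∀ l ∈ S, ∀ i k, l < Real.log ‖β v₁ i‖ - Real.log ‖β v₁ k‖ →
      Real.log ‖β v₁ i‖ - Real.log ‖β v₁ k‖ ∈ S) →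
    ∀ v : L, v ∈ gD j (p a₀) μ φ → (κ v).1 = 1 →
    ∀ Z : Matrix (Fin (n v₁)) (Fin (n v₁)) ℚ_[q v₁], Ggt (fun i => Real.log ‖β v₁ i‖) 0 Z →
    ((κ v).2 v₁).1 = IsNilpotent.exp Z →
    ∃ e : L, e ∈ gS j (p a₀) μ ∧ (κ e).1 = 1 ∧ (∀ v', v' ≠ v₁ → (κ e).2 v' = 1) ∧
      ∃ Z' : Matrix (Fin (n v₁)) (Fin (n v₁)) ℚ_[q v₁], Ggt (fun i => Real.log ‖β v₁ i‖) 0 Z' ∧
        ((κ (e⁻¹ * v)).2 v₁).1 = IsNilpotent.exp Z' ∧
        ∀ i k, (Real.log ‖β v₁ i‖ - Real.log ‖β v₁ k‖ ∉ S → Z' i k = Z i k) ∧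
          (Real.log ‖β v₁ i‖ - Real.log ‖β v₁ k‖ ∈ S → Z' i k = 0) := by
  classical
  induction S using Finset.induction_on_min with
  | empty =>
    intro _ v _ _ Z hZ hvZ
    refine ⟨1, one_mem _, by rw [map_one]; rfl, fun v' _ => by rw [map_one]; rfl, Z, hZ, ?_, ?_⟩
    · rw [inv_one, one_mul]; exact hvZ
    · exact fun i k => ⟨fun _ => rfl, fun h => absurd h (Finset.notMem_empty _)⟩
  | insert a S hmin ih =>
    intro hS v hv hreal Z hZ hvZ
    have haS : a ∉ S := fun h => lt_irrefl a (hmin a h)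
    have hS' : ∀ l ∈ S, ∀ i k, l < Real.log ‖β v₁ i‖ - Real.log ‖β v₁ k‖ →
        Real.log ‖β v₁ i‖ - Real.log ‖β v₁ k‖ ∈ S := by
      intro l hl i k hik
      rcases Finset.mem_insert.1 (hS l (Finset.mem_insert_of_mem hl) i k hik) with h | h
      · exact absurd (hmin l hl) (not_lt.2 (h ▸ hik.le))
      · exact h
    obtain ⟨e₁, he₁, hr₁, ho₁, Z₁, hZ₁, hvZ₁, hc₁⟩ := ih hS' v hv hreal Z hZ hvZ
    by_cases hno : 0 < a ∧ ∃ i k, Real.log ‖β v₁ i‖ - Real.log ‖β v₁ k‖ = a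
    · obtain ⟨ha, hex⟩ := hno
      have hv1 : e₁⁻¹ * v ∈ gD j (p a₀) μ φ := mul_mem (inv_mem (hSD he₁)) hv
      have hreal1 : (κ (e₁⁻¹ * v)).1 = 1 := by
        rw [map_mul, map_inv, Prod.fst_mul, Prod.fst_inv, hr₁, hreal, inv_one, mul_one]
      obtain ⟨e₂, he₂, hr₂, ho₂, hE₂⟩ := padic_step hq hκ j p hj hjp μ hμ herg D φ h0 v₁
        (e₁⁻¹ * v) hv1 hreal1 Z₁ hZ₁ hvZ₁ a ha (by
          intro i k h3
          refine (hc₁ i k).2 ?_
          rcases Finset.mem_insert.1 (hS a (Finset.mem_insert_self a S) i k h3) with h | h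
          · exact absurd h3 (by rw [h]; exact lt_irrefl a)
          · exact h) hex
      have hv2 : e₂⁻¹ * (e₁⁻¹ * v) ∈ gD j (p a₀) μ φ := mul_mem (inv_mem (hSD he₂)) hv1
      have hreal2 : (κ (e₂⁻¹ * (e₁⁻¹ * v))).1 = 1 := by
        rw [map_mul, map_inv, Prod.fst_mul, Prod.fst_inv, hr₂, hreal1, inv_one, mul_one]
      have hEW : ((κ e₂).2 v₁).1 * ((κ (e₂⁻¹ * (e₁⁻¹ * v))).2 v₁).1 = IsNilpotent.exp Z₁ := by
        rw [← hvZ₁]
        have e : κ e₂ * κ (e₂⁻¹ * (e₁⁻¹ * v)) = κ (e₁⁻¹ * v) := by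
          rw [← map_mul, mul_inv_cancel_left]
        rw [← e]
        rfl
      obtain ⟨Z₂, hZ₂, hW₂, hlt₂, heq₂⟩ := peel_top hZ₁ a ha
        (Y := gcomp (fun i => Real.log ‖β v₁ i‖) a Z₁) (fun i k => rfl) hE₂ hEW
      obtain ⟨e₃, he₃, hr₃, ho₃, Z₃, hZ₃, hvZ₃, hc₃⟩ := ih hS' _ hv2 hreal2 Z₂ hZ₂ hW₂
      have e : (e₁ * e₂ * e₃)⁻¹ * v = e₃⁻¹ * (e₂⁻¹ * (e₁⁻¹ * v)) := by group
      refine ⟨e₁ * e₂ * e₃, mul_mem (mul_mem he₁ he₂) he₃, ?_, ?_, Z₃, hZ₃, ?_, ?_⟩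
      · rw [map_mul, map_mul, Prod.fst_mul, Prod.fst_mul, hr₁, hr₂, hr₃, mul_one, mul_one]
      · intro v' hv'
        rw [map_mul, map_mul]
        show (κ e₁).2 v' * (κ e₂).2 v' * (κ e₃).2 v' = 1
        rw [ho₁ v' hv', ho₂ v' hv', ho₃ v' hv', mul_one, mul_one]
      · rw [e]; exact hvZ₃
      · intro i k
        constructor
        · intro hik
          have h1 : Real.log ‖β v₁ i‖ - Real.log ‖β v₁ k‖ ∉ S := fun h =>
            hik (Finset.mem_insert_of_mem h)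
          have h2 : Real.log ‖β v₁ i‖ - Real.log ‖β v₁ k‖ < a := by
            by_contra hcon
            push Not at hcon
            rcases hcon.lt_or_eq with h | h
            · exact hik (hS a (Finset.mem_insert_self a S) i k h)
            · exact hik (by rw [← h]; exact Finset.mem_insert_self a S)
          rw [(hc₃ i k).1 h1, hlt₂ i k h2, (hc₁ i k).1 h1]
        · intro hik
          rcases Finset.mem_insert.1 hik with h | h
          · rw [(hc₃ i k).1 (by rw [h]; exact haS), heq₂ i k h]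
          · exact (hc₃ i k).2 h
    · refine ⟨e₁, he₁, hr₁, ho₁, Z₁, hZ₁, hvZ₁, fun i k => ⟨fun hik => ?_, fun hik => ?_⟩⟩
      · exact (hc₁ i k).1 fun h => hik (Finset.mem_insert_of_mem h)
      · rcases Finset.mem_insert.1 hik with h | h
        · rcases le_or_gt a 0 with ha | ha
          · exact hZ₁ i k (by rw [← h] at ha; exact ha)
          · exact absurd ⟨ha, i, k, h⟩ hno
        · exact (hc₁ i k).2 h

/-- All expanding symmetries of a weak limit are symmetries of `μ`. -/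
theorem gD_le (hq : Function.Injective q) {κ : L →* SLS n₀ n q} (hκ : IsClosedEmbedding κ)
    (j : L →* G) (p : G →* L) (hj : Continuous j)
    (hjp : ∀ (g : G) (u : L), g * j u * g⁻¹ = j (p g * u * (p g)⁻¹))
    {A : Subgroup G} (μ : Measure X) [IsProbabilityMeasure μ]
    (hμ : ∀ a ∈ A, μ.map (fun z => a • z) = μ)
    (herg : ∀ s : Set X, MeasurableSet s → (∀ a ∈ A, (fun z => a • z) ⁻¹' s =ᵐ[μ] s) →
      μ s = 0 ∨ μ sᶜ = 0)
    {a₀ : G} {α : Fin n₀ → ℝ} {β : (v : ι) → Fin (n v) → ℚ_[q v]} (D : SData κ p A a₀ α β)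
    (φ : Lp ℝ 2 μ) (h0 : ∫ x, φ x ∂μ ≠ 0) (hSD : gS j (p a₀) μ ≤ gD j (p a₀) μ φ) :
    gD j (p a₀) μ φ ≤ gS j (p a₀) μ := by
  classical
  have claim : ∀ F : Finset ι, ∀ v ∈ gD j (p a₀) μ φ, (κ v).1 = 1 →
      ∃ e : L, e ∈ gS j (p a₀) μ ∧ (κ e).1 = 1 ∧ ∀ v' ∈ F, (κ (e⁻¹ * v)).2 v' = 1 := by
    intro F
    induction F using Finset.induction_on with
    | empty =>
      exact fun v _ _ => ⟨1, one_mem _, by rw [map_one]; rfl,
        fun v' h => absurd h (Finset.notMem_empty _)⟩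
    | insert v₁ F _ ih =>
      intro v hv hreal
      obtain ⟨e₁, he₁, hr₁, ho₁⟩ := ih v hv hreal
      have hv1 : e₁⁻¹ * v ∈ gD j (p a₀) μ φ := mul_mem (inv_mem (hSD he₁)) hv
      have hreal1 : (κ (e₁⁻¹ * v)).1 = 1 := by
        rw [map_mul, map_inv, Prod.fst_mul, Prod.fst_inv, hr₁, hreal, inv_one, mul_one]
      obtain ⟨-, hvP⟩ := (D.mem_up hκ _).1 hv1.1
      obtain ⟨Z, hZ, hvZ⟩ := exists_log (hvP v₁)
      obtain ⟨e₂, he₂, hr₂, ho₂, Z', hZ', hvZ', hc⟩ := padic_clear hq hκ j p hj hjp μ hμ herg D φ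
        h0 hSD v₁ (Finset.univ.image (fun c : Fin (n v₁) × Fin (n v₁) =>
          Real.log ‖β v₁ c.1‖ - Real.log ‖β v₁ c.2‖)) (fun l _ i k _ =>
            Finset.mem_image.2 ⟨(i, k), Finset.mem_univ _, rfl⟩) _ hv1 hreal1 Z hZ hvZ
      have hZ0 : Z' = 0 := by
        ext i k
        exact (hc i k).2 (Finset.mem_image.2 ⟨(i, k), Finset.mem_univ _, rfl⟩)
      have e : (e₁ * e₂)⁻¹ * v = e₂⁻¹ * (e₁⁻¹ * v) := by group
      refine ⟨e₁ * e₂, mul_mem he₁ he₂, ?_, ?_⟩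
      · rw [map_mul, Prod.fst_mul, hr₁, hr₂, mul_one]
      · intro v' hv'
        rw [e]
        by_cases hvv : v' = v₁
        · subst hvv
          apply Subtype.ext
          rw [hvZ', hZ0, IsNilpotent.exp_zero]
          rfl
        · rw [map_mul, map_inv]
          show ((κ e₂).2 v')⁻¹ * (κ (e₁⁻¹ * v)).2 v' = 1
          rw [ho₂ v' hvv, ho₁ v' ((Finset.mem_insert.1 hv').resolve_left hvv), inv_one, mul_one]
  intro v hv
  obtain ⟨e₁, he₁, h1⟩ := real_clear hκ j p hj hjp μ hμ herg D φ h0 hSD v hv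
  have hv1 : e₁⁻¹ * v ∈ gD j (p a₀) μ φ := mul_mem (inv_mem (hSD he₁)) hv
  obtain ⟨e₂, he₂, hr₂, h2⟩ := claim Finset.univ (e₁⁻¹ * v) hv1 h1
  have h3 : e₂⁻¹ * (e₁⁻¹ * v) = 1 := by
    apply hκ.injective
    rw [map_one]
    refine Prod.ext ?_ ?_
    · rw [map_mul, map_inv, Prod.fst_mul, Prod.fst_inv, hr₂, h1, inv_one, mul_one]
      rfl
    · funext v'
      exact h2 v' (Finset.mem_univ v')
  have h4 : v = e₁ * e₂ := by
    have h5 : e₁⁻¹ * v = e₂ := by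
      have h6 := congrArg (fun z => e₂ * z) h3
      simp only [mul_inv_cancel_left, mul_one] at h6
      exact h6
    rw [← h5, mul_inv_cancel_left]
  rw [h4]
  exact mul_mem he₁ he₂

end Pool.Agent.Work.MP_67388f_an
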