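import Mathlib

set_option autoImplicit false

namespace Pool.Agent.Work.MP_67388f_an

open Filter Topology

section crt

variable {ι : Type*} [Fintype ι] (q : ι → ℕ) [hqp : ∀ v, Fact (q v).Prime]

/-- Natural numbers are dense in the product of the `p`-adic integers. -/
theorem crt_one (hq : Function.Injective q) (v₁ : ι) (y : ℚ_[q v₁]) (hy : ‖y‖ ≤ 1) (ε : ℝ)
    (hε : 0 < ε) : ∃ k : ℕ, ‖(k : ℚ_[q v₁]) - y‖ ≤ ε ∧ ∀ v, v ≠ v₁ → ‖(k : ℚ_[q v])‖ ≤ ε := by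
  classical
  obtain ⟨N, hN⟩ := exists_pow_lt_of_lt_one hε (by norm_num : (1 / 2 : ℝ) < 1)
  have hpow : ∀ v, ((q v : ℕ) : ℝ) ^ (-(N : ℤ)) ≤ ε := by
    intro v
    have h2 : (2 : ℝ) ≤ q v := by exact_mod_cast (hqp v).out.two_le
    rw [zpow_neg, zpow_natCast]
    refine le_trans ?_ hN.le
    rw [one_div, inv_pow]
    exact inv_anti₀ (by positivity) (pow_le_pow_left₀ (by norm_num) h2 N)
  set y' : ℤ_[q v₁] := ⟨y, hy⟩ with hy'
  set a : ℕ := y'.appr N with ha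
  have ha1 : ‖y - (a : ℚ_[q v₁])‖ ≤ ((q v₁ : ℕ) : ℝ) ^ (-(N : ℤ)) := by
    have h1 := PadicInt.appr_spec N y'
    rw [← PadicInt.norm_le_pow_iff_mem_span_pow] at h1
    have h2 : ‖y' - (a : ℤ_[q v₁])‖ = ‖y - (a : ℚ_[q v₁])‖ := by
      rw [PadicInt.norm_def]
      push_cast
      rfl
    rw [← h2]
    exact h1
  set M : ℕ := ∏ v ∈ Finset.univ.erase v₁, (q v) ^ N with hM
  have hcop : Nat.Coprime ((q v₁) ^ N) M := by
    rw [hM]
    refine Nat.Coprime.prod_right fun v hv => ?_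
    apply Nat.Coprime.pow
    rw [Nat.coprime_primes (hqp v₁).out (hqp v).out]
    intro h
    exact Finset.ne_of_mem_erase hv (hq h).symm
  obtain ⟨k, hk1, hk2⟩ := Nat.chineseRemainder hcop a 0
  refine ⟨k, ?_, ?_⟩
  · have h1 : ‖(k : ℚ_[q v₁]) - (a : ℚ_[q v₁])‖ ≤ ((q v₁ : ℕ) : ℝ) ^ (-(N : ℤ)) := by
      have h2 : (((q v₁ : ℕ) : ℤ) ^ N) ∣ ((k : ℤ) - (a : ℤ)) := by
        have := (Nat.modEq_iff_dvd.1 hk1.symm)
        push_cast at this
        exact this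
      have h3 := (Padic.norm_int_le_pow_iff_dvd (p := q v₁) ((k : ℤ) - (a : ℤ)) N).2 h2
      push_cast at h3
      exact h3
    have h4 : (k : ℚ_[q v₁]) - y = ((k : ℚ_[q v₁]) - (a : ℚ_[q v₁])) + ((a : ℚ_[q v₁]) - y) := by
      ring
    rw [h4]
    refine (Padic.nonarchimedean _ _).trans (max_le (h1.trans (hpow v₁)) ?_)
    rw [norm_sub_rev]
    exact ha1.trans (hpow v₁)
  · intro v hv
    have h2 : (((q v : ℕ) : ℤ) ^ N) ∣ (k : ℤ) := by
      have h3 : M ∣ k := (Nat.modEq_zero_iff_dvd).1 hk2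
      have h4 : (q v) ^ N ∣ M := by
        rw [hM]
        exact Finset.dvd_prod_of_mem (fun v => (q v) ^ N) (Finset.mem_erase.2 ⟨hv, Finset.mem_univ v⟩)
      exact_mod_cast h4.trans h3
    have h3 := (Padic.norm_int_le_pow_iff_dvd (p := q v) (k : ℤ) N).2 h2
    push_cast at h3
    exact h3.trans (hpow v)

/-- Exponents adapted to one place and small at the other places. -/
theorem exists_powers (hq : Function.Injective q) (v₁ : ι) (c : ℚ_[q v₁]) (hc : 1 < ‖c‖)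
    (x : ℚ_[q v₁]) (R : ℝ) (hR : 1 ≤ R) :
    ∃ k : ℕ → ℕ, Tendsto (fun m => (k m : ℚ_[q v₁]) * c ^ m) atTop (𝓝 x) ∧
      ∀ v, v ≠ v₁ → Tendsto (fun m => ‖(k m : ℚ_[q v])‖ * R ^ m) atTop (𝓝 0) := by
  classical
  have hc0 : c ≠ 0 := by
    rintro rfl
    simp at hc
    linarith
  have hex : ∀ m : ℕ, ∃ k : ℕ, (‖x * (c ^ m)⁻¹‖ ≤ 1 →
      ‖(k : ℚ_[q v₁]) - x * (c ^ m)⁻¹‖ ≤ ((2 * R * ‖c‖) ^ m)⁻¹) ∧
      ∀ v, v ≠ v₁ → ‖(k : ℚ_[q v])‖ ≤ ((2 * R * ‖c‖) ^ m)⁻¹ := by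
    intro m
    by_cases h : ‖x * (c ^ m)⁻¹‖ ≤ 1
    · obtain ⟨k, h1, h2⟩ := crt_one q hq v₁ _ h (((2 * R * ‖c‖) ^ m)⁻¹) (by positivity)
      exact ⟨k, fun _ => h1, h2⟩
    · refine ⟨0, fun h' => absurd h' h, fun v _ => ?_⟩
      rw [Nat.cast_zero, norm_zero]
      positivity
  choose k hk1 hk2 using hex
  refine ⟨k, ?_, ?_⟩
  · have hlarge : ∀ᶠ m : ℕ in atTop, ‖x * (c ^ m)⁻¹‖ ≤ 1 := by
      have h1 : Tendsto (fun m : ℕ => ‖x‖ * (‖c‖⁻¹) ^ m) atTop (𝓝 (‖x‖ * 0)) :=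
        (tendsto_pow_atTop_nhds_zero_of_lt_one (by positivity) (inv_lt_one_of_one_lt₀ hc)).const_mul _
      rw [mul_zero] at h1
      filter_upwards [h1.eventually_lt_const one_pos] with m hm
      rw [norm_mul, norm_inv, norm_pow, ← inv_pow]
      exact hm.le
    rw [tendsto_iff_norm_sub_tendsto_zero]
    have h2 : Tendsto (fun m : ℕ => (1 / 2 : ℝ) ^ m) atTop (𝓝 0) :=
      tendsto_pow_atTop_nhds_zero_of_lt_one (by norm_num) (by norm_num)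
    refine squeeze_zero' (Eventually.of_forall fun m => norm_nonneg _) ?_ h2
    filter_upwards [hlarge] with m hm
    have h3 := hk1 m hm
    have h4 : (k m : ℚ_[q v₁]) * c ^ m - x = ((k m : ℚ_[q v₁]) - x * (c ^ m)⁻¹) * c ^ m := by
      rw [sub_mul, mul_assoc x, inv_mul_cancel₀ (pow_ne_zero m hc0), mul_one]
    rw [h4, norm_mul, norm_pow]
    have hcn : 0 < ‖c‖ := by linarith
    calc ‖(k m : ℚ_[q v₁]) - x * (c ^ m)⁻¹‖ * ‖c‖ ^ m ≤ ((2 * R * ‖c‖) ^ m)⁻¹ * ‖c‖ ^ m := by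
          gcongr
      _ = (1 / 2) ^ m * ((R ^ m)⁻¹) := by
          rw [mul_pow, mul_pow, one_div, inv_pow]
          have : ‖c‖ ^ m ≠ 0 := by positivity
          field_simp
      _ ≤ (1 / 2) ^ m * 1 := by
          have h5 : (R ^ m)⁻¹ ≤ 1 := inv_le_one_of_one_le₀ (one_le_pow₀ hR)
          gcongr
      _ = (1 / 2) ^ m := mul_one _
  · intro v hv
    have h2 : Tendsto (fun m : ℕ => (1 / 2 : ℝ) ^ m) atTop (𝓝 0) :=
      tendsto_pow_atTop_nhds_zero_of_lt_one (by norm_num) (by norm_num)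
    refine squeeze_zero (fun m => by positivity) (fun m => ?_) h2
    have hcn : 0 < ‖c‖ := by linarith
    have hR0 : 0 < R := by linarith
    calc ‖(k m : ℚ_[q v])‖ * R ^ m ≤ ((2 * R * ‖c‖) ^ m)⁻¹ * R ^ m := by
          have := hk2 m v hv
          gcongr
      _ = (1 / 2) ^ m * ((‖c‖ ^ m)⁻¹) := by
          rw [mul_pow, mul_pow, one_div, inv_pow]
          have : R ^ m ≠ 0 := by positivity
          field_simp
      _ ≤ (1 / 2) ^ m * 1 := by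
          have h5 : (‖c‖ ^ m)⁻¹ ≤ 1 := inv_le_one_of_one_le₀ (one_le_pow₀ hc.le)
          gcongr
      _ = (1 / 2) ^ m := mul_one _

end crt

end Pool.Agent.Work.MP_67388f_an
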