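import Mathlib

set_option autoImplicit false

namespace Pool.Agent.Work.MP_67388f_an

open Polynomial

/-- truncated exponential -/
noncomputable def expP (N : ℕ) : ℚ[X] :=
  ∑ r ∈ Finset.range (N + 1), C ((r.factorial : ℚ)⁻¹) * X ^ r

/-- truncated logarithm of `1 + X` -/
noncomputable def logP (N : ℕ) : ℚ[X] :=
  ∑ r ∈ Finset.range (N + 1), C ((-1) ^ (r + 1) * (r : ℚ)⁻¹) * X ^ r

lemma expP_succ (N : ℕ) : expP (N + 1) = expP N + C (((N + 1).factorial : ℚ)⁻¹) * X ^ (N + 1) := by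
  unfold expP
  rw [Finset.sum_range_succ]

lemma logP_succ (N : ℕ) :
    logP (N + 1) = logP N + C ((-1) ^ (N + 1 + 1) * ((N + 1 : ℕ) : ℚ)⁻¹) * X ^ (N + 1) := by
  unfold logP
  rw [Finset.sum_range_succ]

lemma expP_deriv (N : ℕ) : derivative (expP N) = expP N - C ((N.factorial : ℚ)⁻¹) * X ^ N := by
  induction N with
  | zero => simp [expP]
  | succ N ih =>
    rw [expP_succ, derivative_add, ih, derivative_C_mul_X_pow]
    have h : ((N + 1).factorial : ℚ)⁻¹ * ((N + 1 : ℕ) : ℚ) = (N.factorial : ℚ)⁻¹ := by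
      rw [Nat.factorial_succ]
      have h1 : ((N : ℚ) + 1) ≠ 0 := by positivity
      have h2 : (N.factorial : ℚ) ≠ 0 := by exact_mod_cast N.factorial_ne_zero
      push_cast
      field_simp
    rw [h, Nat.add_sub_cancel]
    ring

lemma logP_deriv (N : ℕ) : (1 + X) * derivative (logP N) = 1 - (-X) ^ N := by
  induction N with
  | zero => simp [logP]
  | succ N ih =>
    rw [logP_succ, derivative_add, mul_add, ih, derivative_C_mul_X_pow, Nat.add_sub_cancel]
    have h : (-1 : ℚ) ^ (N + 1 + 1) * ((N + 1 : ℕ) : ℚ)⁻¹ * ((N + 1 : ℕ) : ℚ) = (-1) ^ N := by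
      have h1 : ((N + 1 : ℕ) : ℚ) ≠ 0 := by positivity
      rw [mul_assoc, inv_mul_cancel₀ h1, mul_one, pow_succ, pow_succ]
      ring
    rw [h]
    have h2 : (-X : ℚ[X]) ^ N = C ((-1) ^ N) * X ^ N := by
      rw [neg_pow, C_pow, C_neg, C_1]
    rw [pow_succ (-X : ℚ[X]) N, h2]
    ring

lemma coeff_zero_expP (N : ℕ) : (expP N).coeff 0 = 1 := by
  induction N with
  | zero => simp [expP]
  | succ N ih => rw [expP_succ, coeff_add, ih]; simp

lemma coeff_zero_logP (N : ℕ) : (logP N).coeff 0 = 0 := by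
  induction N with
  | zero => simp [logP]
  | succ N ih => rw [logP_succ, coeff_add, ih]; simp

lemma X_dvd_logP (N : ℕ) : (X : ℚ[X]) ∣ logP N := by
  rw [X_dvd_iff]; exact coeff_zero_logP N

lemma X_dvd_expP (N : ℕ) : (X : ℚ[X]) ∣ expP N - 1 := by
  rw [X_dvd_iff, coeff_sub, coeff_zero_expP]; simp

lemma dvd_ode (N : ℕ) (D : ℚ[X]) (h0 : D.coeff 0 = 0)
    (h : (X : ℚ[X]) ^ N ∣ (1 + X) * derivative D - D) : (X : ℚ[X]) ^ (N + 1) ∣ D := by
  rw [X_pow_dvd_iff] at h ⊢
  have key : ∀ m, m ≤ N → D.coeff m = 0 := by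
    intro m
    induction m with
    | zero => intro _; exact h0
    | succ m ih =>
      intro hm
      have h1 := h m (by omega)
      have h2 := ih (by omega)
      rw [coeff_sub, add_mul, one_mul, coeff_add, coeff_derivative, h2, sub_zero] at h1
      have h3 : (X * derivative D).coeff m = 0 := by
        cases m with
        | zero => simp
        | succ m => rw [coeff_X_mul, coeff_derivative, h2, zero_mul]
      rw [h3, add_zero] at h1
      have h4 : ((m : ℚ) + 1) ≠ 0 := by positivity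
      exact (mul_eq_zero.1 h1).resolve_right h4
  intro d hd
  exact key d (by omega)

lemma dvd_der (N : ℕ) (D : ℚ[X]) (h0 : D.coeff 0 = 0)
    (h : (X : ℚ[X]) ^ N ∣ derivative D) : (X : ℚ[X]) ^ (N + 1) ∣ D := by
  rw [X_pow_dvd_iff] at h ⊢
  intro d hd
  cases d with
  | zero => exact h0
  | succ m =>
    have h1 := h m (by omega)
    rw [coeff_derivative] at h1
    have h4 : ((m : ℚ) + 1) ≠ 0 := by positivity
    exact (mul_eq_zero.1 h1).resolve_right h4

lemma coeff_zero_comp (P Q : ℚ[X]) (h : Q.coeff 0 = 0) : (P.comp Q).coeff 0 = P.coeff 0 := by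
  rw [coeff_zero_eq_eval_zero, eval_comp, ← coeff_zero_eq_eval_zero Q, h,
    ← coeff_zero_eq_eval_zero P]

theorem exp_log (N : ℕ) : (X : ℚ[X]) ^ (N + 1) ∣ (expP N).comp (logP N) - (1 + X) := by
  apply dvd_ode
  · rw [coeff_sub, coeff_zero_comp _ _ (coeff_zero_logP N), coeff_zero_expP]
    simp
  · have e : (1 + X) * derivative ((expP N).comp (logP N) - (1 + X)) -
        ((expP N).comp (logP N) - (1 + X)) =
        - ((-X) ^ N * (expP N).comp (logP N)) -
          C ((N.factorial : ℚ)⁻¹) * (logP N) ^ N * (1 - (-X) ^ N) := by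
      rw [derivative_sub, derivative_comp, expP_deriv, mul_sub, ← mul_assoc, logP_deriv]
      simp only [sub_comp, mul_comp, C_comp, pow_comp, X_comp, derivative_add, derivative_one,
        derivative_X, zero_add, mul_one]
      ring
    rw [e]
    have h1 : (X : ℚ[X]) ^ N ∣ (logP N) ^ N := pow_dvd_pow_of_dvd (X_dvd_logP N) N
    have h2 : (X : ℚ[X]) ^ N ∣ (-X) ^ N := pow_dvd_pow_of_dvd (dvd_neg.2 dvd_rfl) N
    refine dvd_sub (dvd_neg.2 (h2.mul_right _)) ?_
    exact (h1.mul_left _).mul_right _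

theorem log_exp (N : ℕ) : (X : ℚ[X]) ^ (N + 1) ∣ (logP N).comp (expP N - 1) - X := by
  apply dvd_der
  · rw [coeff_sub, coeff_zero_comp _ _ (by rw [coeff_sub, coeff_zero_expP]; simp),
      coeff_zero_logP]
    simp
  · have e0 : expP N * (derivative (logP N)).comp (expP N - 1) = 1 - (-(expP N - 1)) ^ N := by
      have h := congrArg (fun P => P.comp (expP N - 1)) (logP_deriv N)
      simp only [mul_comp, add_comp, one_comp, X_comp, sub_comp, pow_comp, neg_comp] at h
      rw [← h]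
      ring
    have e : derivative ((logP N).comp (expP N - 1) - X) =
        - (-(expP N - 1)) ^ N -
          C ((N.factorial : ℚ)⁻¹) * X ^ N * (derivative (logP N)).comp (expP N - 1) := by
      rw [derivative_sub, derivative_comp, derivative_X, derivative_sub, derivative_one, sub_zero,
        expP_deriv, sub_mul, e0]
      ring
    rw [e]
    have h1 : (X : ℚ[X]) ^ N ∣ (-(expP N - 1)) ^ N :=
      pow_dvd_pow_of_dvd (dvd_neg.2 (X_dvd_expP N)) N
    refine dvd_sub (dvd_neg.2 h1) ?_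
    exact (dvd_rfl.mul_left _).mul_right _

section alg

variable {A : Type*} [Ring A] [Algebra ℚ A]

lemma aeval_comp' (M : A) (P Q : ℚ[X]) : aeval M (P.comp Q) = aeval (aeval M Q) P := by
  rw [aeval_comp]

lemma aeval_dvd (M : A) (N : ℕ) (hM : M ^ N = 0) (P : ℚ[X]) (h : (X : ℚ[X]) ^ N ∣ P) :
    aeval M P = 0 := by
  obtain ⟨Q, rfl⟩ := h
  rw [map_mul, map_pow, aeval_X, hM, zero_mul]

lemma aeval_expP (Z : A) (N : ℕ) (hZ : Z ^ (N + 1) = 0) :
    aeval Z (expP N) = IsNilpotent.exp Z := by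
  rw [IsNilpotent.exp_eq_sum hZ]
  unfold expP
  rw [map_sum]
  refine Finset.sum_congr rfl fun r _ => ?_
  rw [map_mul, aeval_C, map_pow, aeval_X, Algebra.smul_def]

lemma log_pow_zero (M : A) (N k : ℕ) (hM : M ^ k = 0) : (aeval M (logP N)) ^ k = 0 := by
  rw [← map_pow]
  exact aeval_dvd M k hM _ (pow_dvd_pow_of_dvd (X_dvd_logP N) k)

/-- `exp (log (1 + M)) = 1 + M` -/
theorem exp_logM (M : A) (N : ℕ) (hM : M ^ (N + 1) = 0) :
    IsNilpotent.exp (aeval M (logP N)) = 1 + M := by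
  rw [← aeval_expP _ N (log_pow_zero M N _ hM), ← aeval_comp']
  have h := aeval_dvd M (N + 1) hM _ (exp_log N)
  rw [map_sub, sub_eq_zero] at h
  rw [h]
  simp

/-- `log (exp Z) = Z` -/
theorem log_expM (Z : A) (N : ℕ) (hZ : Z ^ (N + 1) = 0) :
    aeval (IsNilpotent.exp Z - 1) (logP N) = Z := by
  have h := aeval_dvd Z (N + 1) hZ _ (log_exp N)
  rw [map_sub, sub_eq_zero, aeval_comp', map_sub, aeval_expP Z N hZ, map_one, aeval_X] at h
  exact h

lemma exists_expP_split (Z : A) (N : ℕ) :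
    (1 + Z + ∑ r ∈ Finset.range N, (((r + 2).factorial : ℚ)⁻¹) • Z ^ (r + 2)) =
      aeval Z (expP (N + 1)) := by
  unfold expP
  rw [map_sum, Finset.sum_range_succ', Finset.sum_range_succ']
  simp only [map_mul, aeval_C, map_pow, aeval_X, Algebra.smul_def]
  simp
  abel

/-- powers of an exponential -/
theorem exp_pow_nat (Z : A) (hZ : IsNilpotent Z) (k : ℕ) :
    (IsNilpotent.exp Z) ^ k = IsNilpotent.exp ((k : ℚ) • Z) := by
  induction k with
  | zero =>
    rw [pow_zero, Nat.cast_zero, zero_smul]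
    exact IsNilpotent.exp_zero.symm
  | succ k ih =>
    rw [pow_succ, ih]
    push_cast
    rw [add_smul, one_smul]
    obtain ⟨N, hN⟩ := hZ
    rw [IsNilpotent.exp_add_of_commute ((Commute.refl Z).smul_left _)
      ⟨N, by rw [_root_.smul_pow, hN, smul_zero]⟩ ⟨N, hN⟩]

end alg

end Pool.Agent.Work.MP_67388f_an
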