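import Pool.Agent.Work.MP_67388f_an.TS.Ov
import Pool.Agent.Work.MP_67388f_an.TV.ZO

set_option autoImplicit false

namespace Pool.Agent.Work.MP_67388f_an

open MeasureTheory Filter Topology Set
open scoped ENNReal

/-- An infinite family of pairwise singular measures cannot share the same mass with a finite
measure. -/
lemma no_infinite_ov {X : Type*} [MeasurableSpace X] (m : ℕ → Measure X)
    (hpair : ∀ i k, i ≠ k → m i ⟂ₘ m k) (ν : Measure X) [IsFiniteMeasure ν] (c : ℝ≥0∞)
    (hc : 0 < c) (h : ∀ i, Ov c (m i) ν) : False := by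
  classical
  have hex : ∀ i k, ∃ s : Set X, MeasurableSet s ∧ (i ≠ k → m i s = 0 ∧ m k sᶜ = 0) := by
    intro i k
    by_cases hik : i = k
    · exact ⟨∅, MeasurableSet.empty, fun h => absurd hik h⟩
    · obtain ⟨s, hs, h1, h2⟩ := hpair i k hik
      exact ⟨s, hs, fun _ => ⟨h1, h2⟩⟩
  choose t ht htt using hex
  set E : ℕ → Set X := fun i => ⋂ k, ⋂ (_ : k ≠ i), ((t i k)ᶜ ∩ t k i) with hE
  have hEm : ∀ i, MeasurableSet (E i) := fun i =>
    MeasurableSet.iInter fun k => MeasurableSet.iInter fun _ => (ht i k).compl.inter (ht k i)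
  have hEc : ∀ i, m i (E i)ᶜ = 0 := by
    intro i
    rw [hE]
    simp only [compl_iInter, compl_inter, compl_compl]
    refine measure_iUnion_null fun k => measure_iUnion_null fun hk => ?_
    exact measure_union_null (htt i k hk.symm).1 (htt k i hk).2
  have hdisj : Pairwise (Function.onFun Disjoint E) := by
    intro i k hik
    refine Set.disjoint_left.2 fun x hx hx' => ?_
    have h1 := (mem_iInter₂.1 hx k hik.symm).1
    have h2 := (mem_iInter₂.1 hx' i hik).2
    exact h1 h2
  have hν : ∀ i, c ≤ ν (E i) := by
    intro i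
    have h1 := h i (E i)ᶜ (hEm i).compl
    rwa [hEc i, zero_add, compl_compl] at h1
  have h1 : ∑' i, ν (E i) ≤ ν univ := by
    rw [← measure_iUnion hdisj hEm]
    exact measure_mono (subset_univ _)
  have h2 : ∑' _ : ℕ, c ≤ ∑' i, ν (E i) := ENNReal.tsum_le_tsum hν
  rw [ENNReal.tsum_const_eq_top_of_ne_zero hc.ne'] at h2
  exact absurd (h2.trans h1) (not_le.2 (measure_lt_top ν univ))

variable {X : Type*} [TopologicalSpace X] [LocallyCompactSpace X] [T2Space X]
  [SecondCountableTopology X] [MeasurableSpace X] [BorelSpace X]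
variable {G : Type*} [Group G] [TopologicalSpace G] [IsTopologicalGroup G] [MulAction G X]
  [ContinuousSMul G X]

/-- Zero-one law implies that a group with an invariant measure nonsingular to `μ` virtually
preserves `μ`. -/
theorem finite_index_of_zero_one (μ : Measure X) [IsProbabilityMeasure μ] (B : Subgroup G)
    (hzo : ∀ b ∈ B, μ.map (fun z => b • z) = μ ∨ (μ.map (fun z => b • z)) ⟂ₘ μ)
    (ν : Measure X) [IsFiniteMeasure ν] (hν : ∀ b ∈ B, ν.map (fun z => b • z) = ν)
    (hns : ¬ μ ⟂ₘ ν) : ((stb (G := G) μ).subgroupOf B).FiniteIndex := by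
  classical
  obtain ⟨c, hc0, hc⟩ := exists_ov μ ν hns
  have hov : ∀ b ∈ B, Ov c (μ.map (fun z => b • z)) ν := by
    intro b hb s hs
    have h1 := hc ((fun z => b • z) ⁻¹' s) (meas_smul _ hs)
    rw [← Measure.map_apply (meas_smul _) hs, ← preimage_compl,
      ← Measure.map_apply (meas_smul _) hs.compl, hν b hb] at h1
    exact h1
  -- translates
  set S : Set (Measure X) := {m | ∃ b ∈ B, m = μ.map (fun z => b • z)} with hS
  have hsing : ∀ b ∈ B, ∀ b' ∈ B, μ.map (fun z => b • z) ≠ μ.map (fun z => b' • z) →
      (μ.map (fun z => b • z)) ⟂ₘ (μ.map (fun z => b' • z)) := by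
    intro b hb b' hb' hne
    rcases hzo (b'⁻¹ * b) (mul_mem (inv_mem hb') hb) with h | h
    · exfalso
      apply hne
      have h1 := congrArg (fun m : Measure X => m.map (fun z => b' • z)) h
      simp only [map_map_smul, mul_inv_cancel_left] at h1
      exact h1
    · obtain ⟨s, hs, e1, e2⟩ := h
      refine ⟨(fun z => b'⁻¹ • z) ⁻¹' s, meas_smul _ hs, ?_, ?_⟩
      · rw [← Measure.map_apply (meas_smul _) hs, map_map_smul]
        exact e1
      · rw [← preimage_compl, ← Measure.map_apply (meas_smul _) hs.compl, map_map_smul,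
          inv_mul_cancel]
        have : (fun z : X => (1 : G) • z) = id := by
          funext z
          exact one_smul G z
        rw [this, Measure.map_id]
        exact e2
  have hfin : S.Finite := by
    by_contra hinf
    set e := Set.Infinite.natEmbedding S hinf with he
    refine no_infinite_ov (fun i => (e i).1) ?_ ν c hc0 ?_
    · intro i k hik
      obtain ⟨b, hb, hbe⟩ := (e i).2
      obtain ⟨b', hb', hbe'⟩ := (e k).2
      rw [hbe, hbe']
      refine hsing b hb b' hb' ?_
      rw [← hbe, ← hbe']
      intro h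
      exact hik (e.injective (Subtype.ext h))
    · intro i
      obtain ⟨b, hb, hbe⟩ := (e i).2
      rw [hbe]
      exact hov b hb
  have hSf : Finite S := hfin.to_subtype
  have hq : Finite (B ⧸ (stb (G := G) μ).subgroupOf B) := by
    refine Finite.of_injective (β := S) (fun x => Quotient.liftOn' x
      (fun b => (⟨μ.map (fun z => (b : G) • z), b, b.2, rfl⟩ : S)) ?_) ?_
    · intro a b hab
      rw [QuotientGroup.leftRel_apply] at hab
      have h1 : (a : G)⁻¹ * (b : G) ∈ stb (G := G) μ := hab
      apply Subtype.ext
      show μ.map (fun z => (a : G) • z) = μ.map (fun z => (b : G) • z)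
      have h2 : μ.map (fun z => ((a : G)⁻¹ * (b : G)) • z) = μ := h1
      conv_lhs => rw [← h2, map_map_smul, mul_inv_cancel_left]
    · intro x y hxy
      induction x using QuotientGroup.induction_on with
      | H a =>
        induction y using QuotientGroup.induction_on with
        | H b =>
          apply QuotientGroup.eq.2
          have h1 : μ.map (fun z => (a : G) • z) = μ.map (fun z => (b : G) • z) :=
            congrArg Subtype.val hxy
          show (a : G)⁻¹ * (b : G) ∈ stb (G := G) μ
          show μ.map (fun z => ((a : G)⁻¹ * (b : G)) • z) = μ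
          rw [← map_map_smul, ← h1, map_map_smul, inv_mul_cancel]
          have : (fun z : X => (1 : G) • z) = id := by
            funext z
            exact one_smul G z
          rw [this, Measure.map_id]
  exact Subgroup.finiteIndex_of_finite_quotient

end Pool.Agent.Work.MP_67388f_an
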