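import Mathlib

set_option autoImplicit false

namespace Pool.Agent.Work.MP_67388f_an

open Filter Topology

section gauge

variable {L : Type*} [Group L] [TopologicalSpace L] [IsTopologicalGroup L]
variable {C : Type*} [Fintype C]

/-- The contracting subgroup of `a⁻¹`: elements `u` with `a⁻ᵐ u aᵐ → 1`. -/
def gUp (a : L) : Subgroup L where
  carrier := {u | Tendsto (fun m : ℕ => (a ^ m)⁻¹ * u * a ^ m) atTop (𝓝 1)}
  one_mem' := by
    simp only [Set.mem_ofPred_eq, mul_one, inv_mul_cancel]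
    exact tendsto_const_nhds
  mul_mem' := by
    intro u v hu hv
    simp only [Set.mem_ofPred_eq] at *
    have h := hu.mul hv
    rw [mul_one] at h
    refine h.congr fun m => ?_
    group
  inv_mem' := by
    intro u hu
    simp only [Set.mem_ofPred_eq] at *
    have h := hu.inv
    rw [inv_one] at h
    refine h.congr fun m => ?_
    group

open scoped Pointwise in
/-- Elements `u` with `aᵐ u a⁻ᵐ` bounded. -/
def gLow (a : L) : Subgroup L where
  carrier := {u | ∃ K : Set L, IsCompact K ∧ ∀ m : ℕ, a ^ m * u * (a ^ m)⁻¹ ∈ K}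
  one_mem' := by
    refine ⟨{1}, isCompact_singleton, fun m => ?_⟩
    simp
  mul_mem' := by
    rintro u v ⟨K, hK, hu⟩ ⟨K', hK', hv⟩
    refine ⟨K * K', hK.mul hK', fun m => ?_⟩
    refine Set.mem_mul.2 ⟨_, hu m, _, hv m, ?_⟩
    group
  inv_mem' := by
    rintro u ⟨K, hK, hu⟩
    refine ⟨K⁻¹, hK.inv, fun m => ?_⟩
    rw [Set.mem_inv]
    have h := hu m
    have e : (a ^ m * u⁻¹ * (a ^ m)⁻¹)⁻¹ = a ^ m * u * (a ^ m)⁻¹ := by group
    rw [e]
    exact h

/-- A finite family of functions measuring the distance to the identity and scaled by the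
conjugation by `a`. -/
structure IsGauge (s : C → L → ℝ) (a : L) (w : C → ℝ) : Prop where
  nonneg : ∀ c h, 0 ≤ s c h
  cont : ∀ c, Continuous (s c)
  eq_one : ∀ h, (∀ c, s c h = 0) ↔ h = 1
  cpt : ∀ R : ℝ, IsCompact {h | ∀ c, s c h ≤ R}
  conj : ∀ c h, s c (a * h * a⁻¹) = Real.exp (w c) * s c h

variable {s : C → L → ℝ} {a : L} {w : C → ℝ}

omit [IsTopologicalGroup L] [Fintype C] in
lemma IsGauge.s_one (H : IsGauge s a w) (c : C) : s c 1 = 0 := (H.eq_one 1).2 rfl c

omit [IsTopologicalGroup L] in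
lemma IsGauge.tend_one (H : IsGauge s a w) {β : Type*} {l : Filter β} {f : β → L} :
    Tendsto f l (𝓝 1) ↔ ∀ c, Tendsto (fun k => s c (f k)) l (𝓝 0) := by
  constructor
  · intro h c
    have := ((H.cont c).tendsto 1).comp h
    rwa [H.s_one c] at this
  · intro h
    rw [tendsto_iff_ultrafilter]
    intro V hV
    have hK : {h | ∀ c, s c h ≤ 1} ∈ (V.map f : Filter _) := by
      rw [Ultrafilter.coe_map, mem_map]
      have h2 : ∀ᶠ k in l, ∀ c, s c (f k) ≤ 1 := by
        refine eventually_all.2 fun c => ?_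
        filter_upwards [(h c).eventually_lt_const one_pos] with k hk using hk.le
      exact hV h2
    obtain ⟨v, hvK, hv⟩ := (H.cpt 1).ultrafilter_le_nhds' (V.map f) hK
    have hv' : Tendsto f V (𝓝 v) := hv
    have h3 : v = 1 := by
      rw [← H.eq_one]
      intro c
      exact tendsto_nhds_unique (((H.cont c).tendsto v).comp hv') ((h c).mono_left hV)
    rw [← h3]
    exact hv

omit [IsTopologicalGroup L] [Fintype C] in
lemma IsGauge.conj_pow (H : IsGauge s a w) (c : C) (h : L) (m : ℕ) :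
    s c (a ^ m * h * (a ^ m)⁻¹) = Real.exp (m * w c) * s c h := by
  induction m with
  | zero => simp
  | succ m ih =>
    have e : a ^ (m + 1) * h * (a ^ (m + 1))⁻¹ = a * (a ^ m * h * (a ^ m)⁻¹) * a⁻¹ := by
      rw [pow_succ']; group
    rw [e, H.conj, ih, ← mul_assoc, ← Real.exp_add]
    congr 2
    push_cast
    ring

omit [IsTopologicalGroup L] [Fintype C] in
lemma IsGauge.conj_pow' (H : IsGauge s a w) (c : C) (h : L) (m : ℕ) :
    s c ((a ^ m)⁻¹ * h * a ^ m) = Real.exp (-(m * w c)) * s c h := by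
  have h1 := H.conj_pow c ((a ^ m)⁻¹ * h * a ^ m) m
  have e : a ^ m * ((a ^ m)⁻¹ * h * a ^ m) * (a ^ m)⁻¹ = h := by group
  rw [e] at h1
  rw [h1, ← mul_assoc, ← Real.exp_add]
  simp

omit [IsTopologicalGroup L] in
/-- contraction of the expanding group -/
lemma IsGauge.contract (H : IsGauge s a w) (u : L) (hu : ∀ c, w c ≤ 0 → s c u = 0) {β : Type*}
    (m : β → ℕ) (l : Filter β) (hm : Tendsto m l atTop) :
    Tendsto (fun k => (a ^ (m k))⁻¹ * u * a ^ (m k)) l (𝓝 1) := by
  rw [H.tend_one]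
  intro c
  simp_rw [H.conj_pow']
  rcases le_or_gt (w c) 0 with hw | hw
  · rw [hu c hw]
    simp only [mul_zero]
    exact tendsto_const_nhds
  · have h4 : Tendsto (fun k => (m k : ℝ) * w c) l atTop :=
      (tendsto_natCast_atTop_atTop.comp hm).atTop_mul_const hw
    have h5 : Tendsto (fun k => Real.exp (-((m k : ℝ) * w c))) l (𝓝 0) :=
      Real.tendsto_exp_neg_atTop_nhds_zero.comp h4
    simpa using h5.mul_const (s c u)

lemma IsGauge.mem_up (H : IsGauge s a w) (u : L) : u ∈ gUp a ↔ ∀ c, w c ≤ 0 → s c u = 0 := by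
  constructor
  · intro hu c hw
    have h1 : Tendsto (fun m : ℕ => (a ^ m)⁻¹ * u * a ^ m) atTop (𝓝 1) := hu
    rw [H.tend_one] at h1
    have h2 := h1 c
    simp_rw [H.conj_pow'] at h2
    have h3 : s c u ≤ 0 := by
      refine ge_of_tendsto h2 (Eventually.of_forall fun m => ?_)
      have h4 : 1 ≤ Real.exp (-(m * w c)) := by
        rw [← Real.exp_zero]
        apply Real.exp_le_exp.2
        have : (0 : ℝ) ≤ m := Nat.cast_nonneg m
        nlinarith
      have := H.nonneg c u
      nlinarith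
    exact le_antisymm h3 (H.nonneg c u)
  · intro hu
    exact H.contract u hu (fun m => m) atTop tendsto_id

lemma IsGauge.mem_low (H : IsGauge s a w) (u : L) : u ∈ gLow a ↔ ∀ c, 0 < w c → s c u = 0 := by
  constructor
  · rintro ⟨K, hK, hu⟩ c hw
    by_contra hne
    have hpos : 0 < s c u := lt_of_le_of_ne (H.nonneg c u) (Ne.symm hne)
    obtain ⟨R, hR⟩ := (hK.image (H.cont c)).bddAbove
    have h1 : ∀ m : ℕ, Real.exp (m * w c) * s c u ≤ R := by
      intro m
      rw [← H.conj_pow]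
      exact hR ⟨_, hu m, rfl⟩
    have h2 : Tendsto (fun m : ℕ => Real.exp (m * w c) * s c u) atTop atTop := by
      apply Tendsto.atTop_mul_const hpos
      apply Real.tendsto_exp_atTop.comp
      exact tendsto_natCast_atTop_atTop.atTop_mul_const hw
    obtain ⟨m, hm⟩ := (h2.eventually_gt_atTop R).exists
    exact absurd (h1 m) (not_le.2 hm)
  · intro hu
    refine ⟨{h | ∀ c, s c h ≤ ∑ c, s c u}, H.cpt _, fun m c => ?_⟩
    rw [H.conj_pow]
    have h0 : s c u ≤ ∑ c, s c u :=
      Finset.single_le_sum (f := fun c => s c u) (fun c _ => H.nonneg c u) (Finset.mem_univ c)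
    rcases lt_or_ge 0 (w c) with hw | hw
    · have hz := hu c hw
      rw [hz, mul_zero]
      rwa [hz] at h0
    · refine le_trans ?_ h0
      have h4 : Real.exp (m * w c) ≤ 1 := by
        rw [← Real.exp_zero]
        apply Real.exp_le_exp.2
        have : (0 : ℝ) ≤ m := Nat.cast_nonneg m
        nlinarith
      have := H.nonneg c u
      nlinarith

/-- size of the expanding part -/
private noncomputable def gsz (s : C → L → ℝ) (w : C → ℝ) (h : L) : ℝ :=
  ∑ c, if 0 < w c then s c h ^ (1 / w c) else 0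

omit [IsTopologicalGroup L] in
private lemma gsz_cont (H : IsGauge s a w) : Continuous (gsz s w) := by
  unfold gsz
  refine continuous_finsetSum _ fun c _ => ?_
  by_cases hw : 0 < w c
  · simp only [hw, if_true]
    exact (H.cont c).rpow_const fun h => Or.inr (by positivity)
  · simp only [hw, if_false]
    exact continuous_const

omit [IsTopologicalGroup L] [Fintype C] in
private lemma gsz_term_nonneg (H : IsGauge s a w) (h : L) (c : C) :
    0 ≤ (if 0 < w c then s c h ^ (1 / w c) else 0) := by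
  split_ifs
  · exact Real.rpow_nonneg (H.nonneg c h) _
  · exact le_rfl

omit [IsTopologicalGroup L] in
private lemma gsz_nonneg (H : IsGauge s a w) (h : L) : 0 ≤ gsz s w h :=
  Finset.sum_nonneg fun c _ => gsz_term_nonneg H h c

omit [IsTopologicalGroup L] in
private lemma gsz_entry (H : IsGauge s a w) (h : L) (c : C) (hw : 0 < w c) :
    s c h ^ (1 / w c) ≤ gsz s w h := by
  have h1 : (if 0 < w c then s c h ^ (1 / w c) else 0) = s c h ^ (1 / w c) := if_pos hw
  rw [← h1]
  exact Finset.single_le_sum (f := fun c => if 0 < w c then s c h ^ (1 / w c) else 0)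
    (fun c _ => gsz_term_nonneg H h c) (Finset.mem_univ c)

omit [IsTopologicalGroup L] in
private lemma gsz_low (H : IsGauge s a w) (h : L) :
    gsz s w h = 0 ↔ ∀ c, 0 < w c → s c h = 0 := by
  constructor
  · intro h0 c hw
    have h1 := gsz_entry H h c hw
    rw [h0] at h1
    by_contra hne
    have hpos : 0 < s c h := lt_of_le_of_ne (H.nonneg c h) (Ne.symm hne)
    have : 0 < s c h ^ (1 / w c) := Real.rpow_pos_of_pos hpos _
    linarith
  · intro hl
    refine Finset.sum_eq_zero fun c _ => ?_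
    split_ifs with hw
    · rw [hl c hw, Real.zero_rpow]
      positivity
    · rfl

omit [IsTopologicalGroup L] in
private lemma gsz_one (H : IsGauge s a w) : gsz s w (1 : L) = 0 :=
  (gsz_low H 1).2 fun c _ => H.s_one c

omit [IsTopologicalGroup L] in
private lemma gsz_conj (H : IsGauge s a w) (h : L) (m : ℕ) :
    gsz s w (a ^ m * h * (a ^ m)⁻¹) = Real.exp m * gsz s w h := by
  unfold gsz
  rw [Finset.mul_sum]
  refine Finset.sum_congr rfl fun c _ => ?_
  split_ifs with hw
  · rw [H.conj_pow, Real.mul_rpow (Real.exp_pos _).le (H.nonneg c h), ← Real.exp_mul]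
    congr 2
    field_simp
  · simp

/-- Blow-up: a sequence tending to the identity either lies in `Sp · Low`, or some renormalization
of it converges to an element of the expanding group outside `Sp`. -/
theorem blowup_gen (H : IsGauge s a w) (Sp : Subgroup L) (hcl : IsClosed (Sp : Set L))
    (hup : Sp ≤ gUp a) (hconj : ∀ u ∈ Sp, a⁻¹ * u * a ∈ Sp) (g : ℕ → L)
    (hg : Tendsto g atTop (𝓝 1)) :
    ∃ u : ℕ → L, (∀ k, u k ∈ Sp) ∧ Tendsto u atTop (𝓝 1) ∧
      ((∀ᶠ k in atTop, (u k)⁻¹ * g k ∈ gLow a) ∨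
        ∃ U : Ultrafilter ℕ, (U : Filter ℕ) ≤ atTop ∧ ∃ (m : ℕ → ℕ) (v : L),
          Tendsto (fun k => a ^ (m k) * ((u k)⁻¹ * g k) * (a ^ (m k))⁻¹) U (𝓝 v) ∧
          v ∈ gUp a ∧ v ∉ Sp) := by
  set K : Set L := {h | ∀ c, s c h ≤ 1} ∩ (Sp : Set L) with hK
  have hKc : IsCompact K := (H.cpt 1).inter_right hcl
  have h1K : (1 : L) ∈ K := by
    refine ⟨fun c => ?_, Sp.one_mem⟩
    rw [H.s_one c]
    exact zero_le_one
  have hmin : ∀ k, ∃ u ∈ K, ∀ v ∈ K, gsz s w (u⁻¹ * g k) ≤ gsz s w (v⁻¹ * g k) := by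
    intro k
    have hc : ContinuousOn (fun u => gsz s w (u⁻¹ * g k)) K :=
      ((gsz_cont H).comp (continuous_inv.mul continuous_const)).continuousOn
    obtain ⟨u, hu, hu2⟩ := hKc.exists_isMinOn ⟨1, h1K⟩ hc
    exact ⟨u, hu, fun v hv => hu2 hv⟩
  choose u huK humin using hmin
  have huSp : ∀ k, u k ∈ Sp := fun k => (huK k).2
  have hs0 : Tendsto (fun k => gsz s w (g k)) atTop (𝓝 0) := by
    have := ((gsz_cont H).tendsto 1).comp hg
    rwa [gsz_one H] at this
  have hs1 : ∀ k, gsz s w ((u k)⁻¹ * g k) ≤ gsz s w (g k) := by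
    intro k
    have := humin k 1 h1K
    simpa using this
  have hs : Tendsto (fun k => gsz s w ((u k)⁻¹ * g k)) atTop (𝓝 0) :=
    squeeze_zero (fun k => gsz_nonneg H _) hs1 hs0
  have hu1 : Tendsto u atTop (𝓝 1) := by
    rw [tendsto_iff_ultrafilter]
    intro V hV
    have hV2 : K ∈ (V.map u : Filter _) := by
      rw [Ultrafilter.coe_map, mem_map]
      exact Filter.Eventually.of_forall huK
    obtain ⟨v, hvK, hv⟩ := hKc.ultrafilter_le_nhds' (V.map u) hV2
    have hv' : Tendsto u V (𝓝 v) := hv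
    have h3 : Tendsto (fun k => gsz s w ((u k)⁻¹ * g k)) V (𝓝 (gsz s w (v⁻¹ * 1))) :=
      ((gsz_cont H).tendsto _).comp ((hv'.inv).mul (hg.mono_left hV))
    have h4 : gsz s w (v⁻¹ * 1) = 0 := tendsto_nhds_unique h3 (hs.mono_left hV)
    rw [mul_one] at h4
    have h5 : v⁻¹ = 1 := by
      rw [← H.eq_one]
      intro c
      rcases le_or_gt (w c) 0 with hw | hw
      · exact (H.mem_up _).1 (hup (Sp.inv_mem hvK.2)) c hw
      · exact (gsz_low H _).1 h4 c hw
    have h6 : v = 1 := by rwa [inv_eq_one] at h5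
    rw [← h6]
    exact hv
  have hh : Tendsto (fun k => (u k)⁻¹ * g k) atTop (𝓝 1) := by
    have := (hu1.inv).mul hg
    simpa using this
  refine ⟨u, huSp, hu1, ?_⟩
  by_cases hev : ∀ᶠ k in atTop, (u k)⁻¹ * g k ∈ gLow a
  · exact Or.inl hev
  right
  have hfr : ∃ᶠ k in atTop, ¬ ((u k)⁻¹ * g k ∈ gLow a) := by
    rwa [Filter.not_eventually] at hev
  have hne : (atTop ⊓ 𝓟 {k : ℕ | ¬ ((u k)⁻¹ * g k ∈ gLow a)}).NeBot :=
    Filter.frequently_mem_iff_neBot.1 hfr
  obtain ⟨U, hU⟩ := Ultrafilter.exists_le (atTop ⊓ 𝓟 {k : ℕ | ¬ ((u k)⁻¹ * g k ∈ gLow a)})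
  have hU1 : (U : Filter ℕ) ≤ atTop := hU.trans inf_le_left
  have hU2 : ∀ᶠ k in (U : Filter ℕ), ¬ ((u k)⁻¹ * g k ∈ gLow a) :=
    (hU.trans inf_le_right) (mem_principal_self _)
  set z : ℕ → ℝ := fun k => gsz s w ((u k)⁻¹ * g k) with hsdef
  have hspos : ∀ᶠ k in (U : Filter ℕ), 0 < z k := by
    filter_upwards [hU2] with k hk
    rcases (gsz_nonneg H ((u k)⁻¹ * g k)).lt_or_eq with h | h
    · exact h
    · exact absurd ((H.mem_low _).2 ((gsz_low H _).1 h.symm)) hk
  have hsU : Tendsto z U (𝓝 0) := hs.mono_left hU1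
  set m : ℕ → ℕ := fun k => ⌈Real.log (1 / z k)⌉₊ with hm
  have hsU' : Tendsto z U (𝓝[>] 0) := tendsto_nhdsWithin_iff.2 ⟨hsU, hspos⟩
  have hlog : Tendsto (fun k => Real.log (1 / z k)) U atTop := by
    have h1 : Tendsto (fun k => 1 / z k) U atTop := by
      have := (tendsto_inv_nhdsGT_zero (𝕜 := ℝ)).comp hsU'
      simp only [one_div]
      exact this
    exact Real.tendsto_log_atTop.comp h1
  have hmU : Tendsto m U atTop := tendsto_nat_ceil_atTop.comp hlog
  have hes : ∀ᶠ k in (U : Filter ℕ), 1 ≤ Real.exp (m k) * z k ∧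
      Real.exp (m k) * z k ≤ Real.exp 1 := by
    filter_upwards [hspos, hlog.eventually_ge_atTop 0] with k hk hk2
    have h1 : Real.log (1 / z k) ≤ m k := Nat.le_ceil _
    have h2 : (m k : ℝ) < Real.log (1 / z k) + 1 := Nat.ceil_lt_add_one hk2
    have h3 : Real.exp (Real.log (1 / z k)) = 1 / z k := Real.exp_log (by positivity)
    constructor
    · calc (1 : ℝ) = 1 / z k * z k := by field_simp
        _ ≤ Real.exp (m k) * z k := by
            apply mul_le_mul_of_nonneg_right _ hk.le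
            rw [← h3]
            exact Real.exp_le_exp.2 h1
    · calc Real.exp (m k) * z k ≤ Real.exp (Real.log (1 / z k) + 1) * z k :=
            mul_le_mul_of_nonneg_right (Real.exp_le_exp.2 h2.le) hk.le
        _ = Real.exp 1 := by
            rw [Real.exp_add, h3]; field_simp
  set W : ℕ → L := fun k => a ^ (m k) * ((u k)⁻¹ * g k) * (a ^ (m k))⁻¹ with hW
  have hWe : ∀ k c, s c (W k) = Real.exp ((m k : ℝ) * w c) * s c ((u k)⁻¹ * g k) :=
    fun k c => H.conj_pow c _ (m k)
  have hWs : ∀ k, gsz s w (W k) = Real.exp (m k) * z k := fun k => gsz_conj H _ (m k)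
  have hhU : ∀ c, Tendsto (fun k => s c ((u k)⁻¹ * g k)) U (𝓝 0) := fun c =>
    (H.tend_one.1 hh c).mono_left hU1
  -- limits of the coordinates of nonpositive weight
  have hlim : ∀ c, w c ≤ 0 → Tendsto (fun k => s c (W k)) U (𝓝 0) := by
    intro c hw
    simp_rw [hWe]
    refine squeeze_zero (fun k => mul_nonneg (Real.exp_pos _).le (H.nonneg c _)) (fun k => ?_)
      (hhU c)
    have h4 : Real.exp (m k * w c) ≤ 1 := by
      rw [← Real.exp_zero]
      apply Real.exp_le_exp.2
      have : (0 : ℝ) ≤ m k := Nat.cast_nonneg _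
      nlinarith
    have := H.nonneg c ((u k)⁻¹ * g k)
    nlinarith
  -- bounded
  set R : ℝ := ∑ c, Real.exp (w c) with hR
  have hC0 : 0 ≤ R := Finset.sum_nonneg fun c _ => (Real.exp_pos _).le
  have hC : ∀ c, Real.exp (w c) ≤ R := fun c =>
    Finset.single_le_sum (f := fun c => Real.exp (w c)) (fun c _ => (Real.exp_pos _).le)
      (Finset.mem_univ c)
  have hbd : ∀ᶠ k in (U : Filter ℕ), ∀ c, s c (W k) ≤ R + 1 := by
    refine eventually_all.2 fun c => ?_
    by_cases hw : w c ≤ 0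
    · filter_upwards [(hlim c hw).eventually_lt_const one_pos] with k hk
      linarith
    · push Not at hw
      filter_upwards [hes] with k hk
      have h2 := gsz_entry H (W k) c hw
      rw [hWs] at h2
      have h3 : s c (W k) ^ (1 / w c) ≤ Real.exp 1 := h2.trans hk.2
      have h4 : s c (W k) ≤ Real.exp (w c) := by
        have h5 : (s c (W k) ^ (1 / w c)) ^ (w c) ≤ (Real.exp 1) ^ (w c) :=
          Real.rpow_le_rpow (Real.rpow_nonneg (H.nonneg _ _) _) h3 hw.le
        rw [← Real.rpow_mul (H.nonneg _ _), one_div, inv_mul_cancel₀ hw.ne', Real.rpow_one,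
          ← Real.exp_mul, one_mul] at h5
        exact h5
      linarith [hC c]
  obtain ⟨v, -, hv⟩ := (H.cpt (R + 1)).ultrafilter_le_nhds' (U.map W) (by
    rw [← Ultrafilter.mem_coe, Ultrafilter.coe_map, mem_map]
    exact hbd)
  have hWw : Tendsto W U (𝓝 v) := hv
  have hvup : v ∈ gUp a := by
    rw [H.mem_up]
    intro c hw
    exact tendsto_nhds_unique (((H.cont c).tendsto v).comp hWw) (hlim c hw)
  refine ⟨U, hU1, m, v, hWw, hvup, ?_⟩
  intro hvSp
  -- iterate the conjugation
  have hpow : ∀ (r : ℕ), (a ^ r)⁻¹ * v * a ^ r ∈ Sp := by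
    intro r
    induction r with
    | zero => simpa using hvSp
    | succ r ih =>
      have := hconj _ ih
      have h2 : a⁻¹ * ((a ^ r)⁻¹ * v * a ^ r) * a = (a ^ (r + 1))⁻¹ * v * a ^ (r + 1) := by
        rw [pow_succ, _root_.mul_inv_rev]; group
      rwa [h2] at this
  have hv1 : Tendsto (fun k => (a ^ (m k))⁻¹ * v * a ^ (m k)) U (𝓝 1) :=
    H.contract v ((H.mem_up v).1 hvup) m U hmU
  have huv : Tendsto (fun k => u k * ((a ^ (m k))⁻¹ * v * a ^ (m k))) U (𝓝 1) := by
    have := (hu1.mono_left hU1).mul hv1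
    simpa using this
  have hin : ∀ᶠ k in (U : Filter ℕ), u k * ((a ^ (m k))⁻¹ * v * a ^ (m k)) ∈ K := by
    have h2 : ∀ᶠ k in (U : Filter ℕ), ∀ c, s c (u k * ((a ^ (m k))⁻¹ * v * a ^ (m k))) ≤ 1 := by
      refine eventually_all.2 fun c => ?_
      filter_upwards [(H.tend_one.1 huv c).eventually_lt_const one_pos] with k hk using hk.le
    filter_upwards [h2] with k hk
    exact ⟨hk, Sp.mul_mem (huSp k) (hpow (m k))⟩
  have hge : ∀ᶠ k in (U : Filter ℕ), 1 ≤ gsz s w (v⁻¹ * W k) := by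
    filter_upwards [hin, hes] with k hk hk2
    have h1 := humin k _ hk
    have h2 : gsz s w (v⁻¹ * W k) = Real.exp (m k) *
        gsz s w ((u k * ((a ^ (m k))⁻¹ * v * a ^ (m k)))⁻¹ * g k) := by
      rw [← gsz_conj H]
      congr 1
      rw [hW]
      simp only
      group
    rw [h2]
    calc (1 : ℝ) ≤ Real.exp (m k) * z k := hk2.1
      _ ≤ _ := mul_le_mul_of_nonneg_left h1 (Real.exp_pos _).le
  have hlim2 : Tendsto (fun k => gsz s w (v⁻¹ * W k)) U (𝓝 (gsz s w (v⁻¹ * v))) :=
    ((gsz_cont H).tendsto _).comp (tendsto_const_nhds.mul hWw)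
  rw [inv_mul_cancel, gsz_one H] at hlim2
  have := ge_of_tendsto hlim2 hge
  linarith

end gauge

end Pool.Agent.Work.MP_67388f_an
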