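import Pool.Agent.Work.MP_67388f_an.TS.ExpLog

set_option autoImplicit false

namespace Pool.Agent.Work.MP_67388f_an

open Polynomial

section grd

variable {n : ℕ} {K : Type*} [CommRing K] (ω : Fin n → ℝ)

/-- entries of weight less than `l` vanish -/
def Gge (l : ℝ) (M : Matrix (Fin n) (Fin n) K) : Prop := ∀ i j, ω i - ω j < l → M i j = 0

/-- entries of weight at most `l` vanish -/
def Ggt (l : ℝ) (M : Matrix (Fin n) (Fin n) K) : Prop := ∀ i j, ω i - ω j ≤ l → M i j = 0

variable {ω}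

lemma Ggt.ge {l : ℝ} {M : Matrix (Fin n) (Fin n) K} (h : Ggt ω l M) : Gge ω l M :=
  fun i j hij => h i j hij.le

lemma Gge.one : Gge ω 0 (1 : Matrix (Fin n) (Fin n) K) := by
  intro i j hij
  rw [Matrix.one_apply_ne]
  rintro rfl
  simp at hij

lemma Gge.mul {a b : ℝ} {M N : Matrix (Fin n) (Fin n) K} (hM : Gge ω a M) (hN : Gge ω b N) :
    Gge ω (a + b) (M * N) := by
  intro i j hij
  rw [Matrix.mul_apply]
  refine Finset.sum_eq_zero fun k _ => ?_
  by_cases h : ω i - ω k < a
  · rw [hM i k h, zero_mul]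
  · rw [hN k j (by linarith), mul_zero]

lemma Ggt.mul_ge {a b : ℝ} {M N : Matrix (Fin n) (Fin n) K} (hM : Ggt ω a M) (hN : Gge ω b N) :
    Ggt ω (a + b) (M * N) := by
  intro i j hij
  rw [Matrix.mul_apply]
  refine Finset.sum_eq_zero fun k _ => ?_
  by_cases h : ω i - ω k ≤ a
  · rw [hM i k h, zero_mul]
  · rw [hN k j (by linarith), mul_zero]

lemma Gge.mul_gt {a b : ℝ} {M N : Matrix (Fin n) (Fin n) K} (hM : Gge ω a M) (hN : Ggt ω b N) :
    Ggt ω (a + b) (M * N) := by
  intro i j hij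
  rw [Matrix.mul_apply]
  refine Finset.sum_eq_zero fun k _ => ?_
  by_cases h : ω i - ω k < a
  · rw [hM i k h, zero_mul]
  · rw [hN k j (by linarith), mul_zero]

lemma Ggt.zero (l : ℝ) : Ggt ω l (0 : Matrix (Fin n) (Fin n) K) := fun _ _ _ => rfl

lemma Ggt.add {l : ℝ} {M N : Matrix (Fin n) (Fin n) K} (hM : Ggt ω l M) (hN : Ggt ω l N) :
    Ggt ω l (M + N) := fun i j h => by rw [Matrix.add_apply, hM i j h, hN i j h, add_zero]

lemma Ggt.neg {l : ℝ} {M : Matrix (Fin n) (Fin n) K} (hM : Ggt ω l M) :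
    Ggt ω l (-M) := fun i j h => by rw [Matrix.neg_apply, hM i j h, neg_zero]

lemma Ggt.sub {l : ℝ} {M N : Matrix (Fin n) (Fin n) K} (hM : Ggt ω l M) (hN : Ggt ω l N) :
    Ggt ω l (M - N) := fun i j h => by rw [Matrix.sub_apply, hM i j h, hN i j h, sub_zero]

lemma Ggt.sum {l : ℝ} {σ : Type*} (s : Finset σ) (f : σ → Matrix (Fin n) (Fin n) K)
    (h : ∀ r ∈ s, Ggt ω l (f r)) : Ggt ω l (∑ r ∈ s, f r) := by
  intro i j hij
  rw [Matrix.sum_apply]
  exact Finset.sum_eq_zero fun r hr => h r hr i j hij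

lemma Ggt.smul {R : Type*} [SMulZeroClass R K] {l : ℝ} {M : Matrix (Fin n) (Fin n) K} (c : R)
    (hM : Ggt ω l M) : Ggt ω l (c • M) := fun i j h => by
  rw [Matrix.smul_apply, hM i j h, smul_zero]

lemma Ggt.mono {l l' : ℝ} (hl : l' ≤ l) {M : Matrix (Fin n) (Fin n) K} (hM : Ggt ω l M) :
    Ggt ω l' M := fun i j h => hM i j (h.trans hl)

lemma Gge.pow {M : Matrix (Fin n) (Fin n) K} (hM : Gge ω 0 M) (r : ℕ) : Gge ω 0 (M ^ r) := by
  induction r with
  | zero => rw [pow_zero]; exact Gge.one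
  | succ r ih =>
    rw [pow_succ]
    have := ih.mul hM
    rwa [add_zero] at this

/-- strictly graded matrices are nilpotent -/
lemma Ggt.pow_zero {M : Matrix (Fin n) (Fin n) K} (hM : Ggt ω 0 M) (r : ℕ) (hr : n ≤ r) :
    M ^ r = 0 := by
  classical
  let ρ : Fin n → ℕ := fun i => (Finset.univ.filter fun k : Fin n => ω k < ω i).card
  have hρ : ∀ i, ρ i < n := by
    intro i
    have h1 : (Finset.univ.filter fun k : Fin n => ω k < ω i) ⊂ Finset.univ := by
      rw [Finset.ssubset_univ_iff]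
      intro h
      have h2 : i ∈ (Finset.univ.filter fun k : Fin n => ω k < ω i) := by
        rw [h]; exact Finset.mem_univ i
      exact lt_irrefl _ (Finset.mem_filter.1 h2).2
    have h3 := Finset.card_lt_card h1
    rwa [Finset.card_univ, Fintype.card_fin] at h3
  have hstep : ∀ i k, M i k ≠ 0 → ρ k < ρ i := by
    intro i k h
    have h2 : ω k < ω i := by
      by_contra hc
      exact h (hM i k (by linarith))
    apply Finset.card_lt_card
    refine ⟨?_, ?_⟩
    · intro s hs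
      rw [Finset.mem_filter] at hs ⊢
      exact ⟨hs.1, hs.2.trans h2⟩
    · intro hsub
      have h3 : k ∈ (Finset.univ.filter fun s : Fin n => ω s < ω k) :=
        hsub (Finset.mem_filter.2 ⟨Finset.mem_univ _, h2⟩)
      exact lt_irrefl _ (Finset.mem_filter.1 h3).2
  have hpow : ∀ (r : ℕ) (i k : Fin n), (M ^ r) i k ≠ 0 → ρ k + r ≤ ρ i := by
    intro r
    induction r with
    | zero =>
      intro i k h
      rw [_root_.pow_zero] at h
      have : i = k := by
        by_contra hne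
        exact h (Matrix.one_apply_ne hne)
      rw [this, add_zero]
    | succ r ih =>
      intro i k h
      rw [pow_succ, Matrix.mul_apply] at h
      obtain ⟨s, -, hs⟩ := Finset.exists_ne_zero_of_sum_ne_zero h
      have h1 := ih i s (left_ne_zero_of_mul hs)
      have h2 := hstep s k (right_ne_zero_of_mul hs)
      omega
  ext i k
  rw [Matrix.zero_apply]
  by_contra h
  have h1 := hpow r i k h
  have h2 := hρ i
  omega

variable [Algebra ℚ K]

omit [Algebra ℚ K] in
lemma Ggt.isNilpotent {M : Matrix (Fin n) (Fin n) K} (hM : Ggt ω 0 M) : IsNilpotent M :=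
  ⟨n, hM.pow_zero n le_rfl⟩

/-- a polynomial without constant term preserves strictly graded matrices -/
lemma Ggt.aeval {M : Matrix (Fin n) (Fin n) K} (hM : Ggt ω 0 M) (P : ℚ[X])
    (h0 : P.coeff 0 = 0) : Ggt ω 0 (aeval M P) := by
  obtain ⟨Q, rfl⟩ := X_dvd_iff.2 h0
  rw [map_mul, aeval_X]
  have h : Gge ω 0 (Polynomial.aeval M Q) := by
    rw [aeval_eq_sum_range]
    intro i j hij
    rw [Matrix.sum_apply]
    refine Finset.sum_eq_zero fun r _ => ?_
    rw [Matrix.smul_apply, hM.ge.pow r i j hij, smul_zero]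
  have := hM.mul_ge h
  rwa [add_zero] at this

/-- congruence of polynomial expressions -/
lemma Ggt.aeval_sub {M N : Matrix (Fin n) (Fin n) K} (hM : Gge ω 0 M) (hN : Gge ω 0 N) (l : ℝ)
    (h : Ggt ω l (M - N)) (P : ℚ[X]) : Ggt ω l (Polynomial.aeval M P - Polynomial.aeval N P) := by
  have hp : ∀ r : ℕ, Ggt ω l (M ^ r - N ^ r) := by
    intro r
    induction r with
    | zero => rw [_root_.pow_zero, _root_.pow_zero, sub_self]; exact Ggt.zero l
    | succ r ih =>
      have e : M ^ (r + 1) - N ^ (r + 1) = M ^ r * (M - N) + (M ^ r - N ^ r) * N := by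
        rw [pow_succ, pow_succ, mul_sub, sub_mul]; abel
      rw [e]
      have h1 := (hM.pow r).mul_gt h
      have h2 := ih.mul_ge hN
      rw [zero_add] at h1
      rw [add_zero] at h2
      exact h1.add h2
  rw [aeval_eq_sum_range, aeval_eq_sum_range, ← Finset.sum_sub_distrib]
  refine Ggt.sum _ _ fun r _ => ?_
  rw [← smul_sub]
  exact (hp r).smul _

lemma exp_eq_aeval {Z : Matrix (Fin n) (Fin n) K} (hZ : Ggt ω 0 Z) :
    IsNilpotent.exp Z = Polynomial.aeval Z (expP n) :=
  (aeval_expP Z n (hZ.pow_zero _ (Nat.le_succ n))).symm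

lemma Ggt.exp_sub_one {Z : Matrix (Fin n) (Fin n) K} (hZ : Ggt ω 0 Z) :
    Ggt ω 0 (IsNilpotent.exp Z - 1) := by
  have e : IsNilpotent.exp Z - 1 = Polynomial.aeval Z (expP n - 1) := by
    rw [map_sub, map_one, exp_eq_aeval hZ]
  rw [e]
  refine hZ.aeval _ ?_
  rw [coeff_sub, coeff_zero_expP]
  simp

/-- existence of the logarithm -/
theorem exists_log {M : Matrix (Fin n) (Fin n) K} (hM : Ggt ω 0 (M - 1)) :
    ∃ Z : Matrix (Fin n) (Fin n) K, Ggt ω 0 Z ∧ M = IsNilpotent.exp Z := by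
  refine ⟨Polynomial.aeval (M - 1) (logP n), hM.aeval _ (coeff_zero_logP n), ?_⟩
  rw [exp_logM (M - 1) n (hM.pow_zero _ (Nat.le_succ n))]
  abel

/-- Peeling off the top component of the logarithm. -/
theorem peel_top {Z Y E W : Matrix (Fin n) (Fin n) K} (hZ : Ggt ω 0 Z) (h : ℝ) (hh : 0 < h)
    (hY : ∀ i j, Y i j = if ω i - ω j = h then Z i j else 0)
    (hE : E = IsNilpotent.exp Y) (hEW : E * W = IsNilpotent.exp Z) :
    ∃ Z' : Matrix (Fin n) (Fin n) K, Ggt ω 0 Z' ∧ W = IsNilpotent.exp Z' ∧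
      (∀ i j, ω i - ω j < h → Z' i j = Z i j) ∧ (∀ i j, ω i - ω j = h → Z' i j = 0) := by
  have hY0 : Gge ω h Y := by
    intro i j hij
    rw [hY, if_neg (ne_of_lt hij)]
  have hY1 : Ggt ω 0 Y := fun i j hij => hY0 i j (lt_of_le_of_lt hij hh)
  have hYn := hY1.isNilpotent
  -- W = exp (-Y) exp Z
  have hW : W = IsNilpotent.exp (-Y) * IsNilpotent.exp Z := by
    rw [← hEW, ← mul_assoc, hE, IsNilpotent.exp_neg_mul_exp_self hYn, one_mul]
  -- modulo weights greater than h
  have hYm : ∀ N : Matrix (Fin n) (Fin n) K, Ggt ω 0 N → Ggt ω h (Y * N) := by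
    intro N hN
    have := hY0.mul_gt hN
    rwa [add_zero] at this
  have hNY : ∀ N : Matrix (Fin n) (Fin n) K, Ggt ω 0 N → Ggt ω h (N * Y) := by
    intro N hN
    have := hN.mul_ge hY0
    rwa [zero_add] at this
  have hexpY : Ggt ω h (IsNilpotent.exp (-Y) - (1 - Y)) := by
    have h1 : IsNilpotent.exp (-Y) = Polynomial.aeval (-Y) (expP (n + 1)) :=
      (aeval_expP (-Y) (n + 1) (hY1.neg.pow_zero _ (by omega))).symm
    obtain ⟨Q, hQ⟩ : (X : ℚ[X]) ^ 2 ∣ expP (n + 1) - (1 + X) := by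
      rw [X_pow_dvd_iff]
      intro d hd
      have hc : ∀ N : ℕ, 1 ≤ N → (expP N).coeff 1 = 1 := by
        intro N hN
        induction N, hN using Nat.le_induction with
        | base => simp [expP, Finset.sum_range_succ, coeff_one]
        | succ N hN ih =>
          rw [expP_succ, coeff_add, ih, coeff_C_mul, coeff_X_pow, if_neg (by omega)]
          simp
      interval_cases d
      · rw [coeff_sub, coeff_zero_expP]; simp
      · rw [coeff_sub, hc (n + 1) (by omega), coeff_add, coeff_X_one, coeff_one]; simp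
    have h2 : IsNilpotent.exp (-Y) - (1 - Y) = Y * (Y * Polynomial.aeval (-Y) Q) := by
      have h3 := congrArg (Polynomial.aeval (-Y)) hQ
      rw [map_sub, ← h1] at h3
      simp only [map_add, map_one, aeval_X, map_mul, map_pow] at h3
      have h4 : IsNilpotent.exp (-Y) - (1 - Y) = IsNilpotent.exp (-Y) - (1 + -Y) := by abel
      rw [h4, h3, neg_sq, pow_two, mul_assoc]
    rw [h2]
    have h5 : Gge ω 0 (Polynomial.aeval (-Y) Q) := by
      rw [aeval_eq_sum_range]
      intro i j hij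
      rw [Matrix.sum_apply]
      refine Finset.sum_eq_zero fun r _ => ?_
      rw [Matrix.smul_apply, hY1.neg.ge.pow r i j hij, smul_zero]
    have h6 := hY1.mul_ge h5
    rw [add_zero] at h6
    exact hYm _ h6
  -- W ≡ exp Z - Y
  have hEZ : Gge ω 0 (IsNilpotent.exp Z) := by
    intro i j hij
    have h1 := hZ.exp_sub_one i j hij.le
    rw [Matrix.sub_apply, sub_eq_zero] at h1
    rw [h1]
    exact Gge.one i j hij
  have hW1 : Ggt ω h (W - (IsNilpotent.exp Z - Y)) := by
    have e : W - (IsNilpotent.exp Z - Y) =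
        (IsNilpotent.exp (-Y) - (1 - Y)) * IsNilpotent.exp Z - Y * (IsNilpotent.exp Z - 1) := by
      rw [hW, sub_mul, sub_mul, one_mul, mul_sub, mul_one]; abel
    rw [e]
    have h1 := hexpY.mul_ge hEZ
    rw [add_zero] at h1
    exact h1.sub (hYm _ hZ.exp_sub_one)
  -- exp (Z - Y) ≡ exp Z - Y
  have hZY : Ggt ω 0 (Z - Y) := hZ.sub hY1
  have hW2 : Ggt ω h (IsNilpotent.exp (Z - Y) - (IsNilpotent.exp Z - Y)) := by
    have h1 : IsNilpotent.exp (Z - Y) = Polynomial.aeval (Z - Y) (expP (n + 1)) :=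
      (aeval_expP (Z - Y) (n + 1) (hZY.pow_zero _ (by omega))).symm
    have h1' : IsNilpotent.exp Z = Polynomial.aeval Z (expP (n + 1)) :=
      (aeval_expP Z (n + 1) (hZ.pow_zero _ (by omega))).symm
    have hpw : ∀ r : ℕ, Ggt ω h ((Z - Y) ^ (r + 2) - Z ^ (r + 2)) := by
      intro r
      induction r with
      | zero =>
        have e : (Z - Y) ^ (0 + 2) - Z ^ (0 + 2) = - (Z * Y) - Y * (Z - Y) := by
          rw [zero_add, pow_two, pow_two, sub_mul, mul_sub]; abel
        rw [e]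
        exact (hNY _ hZ).neg.sub (hYm _ hZY)
      | succ r ih =>
        have e : (Z - Y) ^ (r + 1 + 2) - Z ^ (r + 1 + 2) =
            ((Z - Y) ^ (r + 2) - Z ^ (r + 2)) * (Z - Y) - Z ^ (r + 2) * Y := by
          rw [show r + 1 + 2 = (r + 2) + 1 by ring, pow_succ, pow_succ Z (r + 2), sub_mul,
            mul_sub (Z ^ (r + 2)) Z Y]
          abel
        rw [e]
        have h2 := ih.mul_ge hZY.ge
        rw [add_zero] at h2
        refine h2.sub ?_
        have h3 : Ggt ω 0 (Z ^ (r + 2)) := by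
          rw [pow_succ]
          have := (hZ.ge.pow (r + 1)).mul_gt hZ
          rwa [add_zero] at this
        exact hNY _ h3
    rw [h1, h1', ← exists_expP_split (Z - Y) n, ← exists_expP_split Z n]
    have e : (1 + (Z - Y) + ∑ r ∈ Finset.range n, (((r + 2).factorial : ℚ)⁻¹) • (Z - Y) ^ (r + 2)) -
        (1 + Z + ∑ r ∈ Finset.range n, (((r + 2).factorial : ℚ)⁻¹) • Z ^ (r + 2) - Y) =
        ∑ r ∈ Finset.range n, (((r + 2).factorial : ℚ)⁻¹) • ((Z - Y) ^ (r + 2) - Z ^ (r + 2)) := by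
      simp only [smul_sub, Finset.sum_sub_distrib]
      abel
    rw [e]
    exact Ggt.sum _ _ fun r _ => (hpw r).smul _
  have hWc : Ggt ω h (W - IsNilpotent.exp (Z - Y)) := by
    have e : W - IsNilpotent.exp (Z - Y) = (W - (IsNilpotent.exp Z - Y)) -
        (IsNilpotent.exp (Z - Y) - (IsNilpotent.exp Z - Y)) := by abel
    rw [e]
    exact hW1.sub hW2
  have hexp0 : Ggt ω 0 (IsNilpotent.exp (Z - Y) - 1) := hZY.exp_sub_one
  have hWs : Ggt ω 0 (W - 1) := by
    have e : W - 1 = (W - IsNilpotent.exp (Z - Y)) + (IsNilpotent.exp (Z - Y) - 1) := by abel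
    rw [e]
    exact (hWc.mono hh.le).add hexp0
  have hlog := Ggt.aeval_sub (M := W - 1) (N := IsNilpotent.exp (Z - Y) - 1) hWs.ge hexp0.ge h
    (by rw [sub_sub_sub_cancel_right]; exact hWc) (logP n)
  rw [log_expM (Z - Y) n (hZY.pow_zero _ (Nat.le_succ n))] at hlog
  refine ⟨Polynomial.aeval (W - 1) (logP n), hWs.aeval _ (coeff_zero_logP n), ?_, ?_, ?_⟩
  · rw [exp_logM (W - 1) n (hWs.pow_zero _ (Nat.le_succ n))]; abel
  · intro i j hij
    have h1 := hlog i j hij.le
    rw [Matrix.sub_apply, sub_eq_zero] at h1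
    rw [h1, Matrix.sub_apply, hY0 i j hij, sub_zero]
  · intro i j hij
    have h1 := hlog i j hij.le
    rw [Matrix.sub_apply, sub_eq_zero] at h1
    rw [h1, Matrix.sub_apply, hY, if_pos hij, sub_self]

end grd

end Pool.Agent.Work.MP_67388f_an
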