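import Pool.Agent.Work.MP_67388f_an.TS.Nd
import Pool.Agent.Work.MP_67388f_an.TV.ZO

set_option autoImplicit false

namespace Pool.Agent.Work.MP_67388f_an

open MeasureTheory Filter Topology Matrix
open scoped ENNReal

section field

variable {G : Type*} [Group G] {n : ℕ} {K : Type*} [NormedField K]

/-- The ratio of the diagonal entries `i`, `k` takes values `≠ 1` arbitrarily close to `1`. -/
def NearOne (A : Subgroup G) (ρ : G → SpecialLinearGroup (Fin n) K) (i k : Fin n) : Prop :=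
  ∀ ε : ℝ, 0 < ε → ∃ a ∈ A, ρ a i i ≠ ρ a k k ∧ ‖ρ a i i * (ρ a k k)⁻¹ - 1‖ < ε

lemma nd_seq (A : Subgroup G) (ρ : G → SpecialLinearGroup (Fin n) K) (i j : Fin n)
    (hND : NearOne A ρ i j) :
    ∃ a : ℕ → G, (∀ k, a k ∈ A) ∧ (∀ k, ρ (a k) i i ≠ ρ (a k) j j) ∧
      Tendsto (fun k => ρ (a k) i i * (ρ (a k) j j)⁻¹) atTop (𝓝 1) := by
  choose a ha hne hlt using fun k : ℕ => hND (1 / ((k : ℝ) + 1)) (by positivity)
  refine ⟨a, ha, hne, ?_⟩
  rw [tendsto_iff_norm_sub_tendsto_zero]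
  exact squeeze_zero (fun k => norm_nonneg _) (fun k => (hlt k).le)
    tendsto_one_div_add_atTop_nhds_zero_nat

lemma ratio_log (D : ℕ → SpecialLinearGroup (Fin n) K) (hD : ∀ k i j, i ≠ j → D k i j = 0)
    (i j : Fin n) (hlim : Tendsto (fun k => D k i i * (D k j j)⁻¹) atTop (𝓝 1)) :
    Tendsto (fun k => Real.log ‖D k i i‖ - Real.log ‖D k j j‖) atTop (𝓝 0) := by
  have h1 := hlim.norm
  rw [norm_one] at h1
  have h2 := (Real.continuousAt_log one_ne_zero).tendsto.comp h1
  rw [Real.log_one] at h2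
  refine h2.congr fun k => ?_
  rw [Function.comp_apply, norm_mul, norm_inv, Real.log_mul
    (norm_ne_zero_iff.2 (sl_dne (hD k) i)) (inv_ne_zero (norm_ne_zero_iff.2 (sl_dne (hD k) j))),
    Real.log_inv]
  ring

lemma nd_end (D : ℕ → SpecialLinearGroup (Fin n) K) (hD : ∀ k i j, i ≠ j → D k i j = 0)
    (h : SpecialLinearGroup (Fin n) K) (i j : Fin n) (hij : h i j ≠ 0)
    (hne : ∀ k, D k i i ≠ D k j j)
    (hlim : Tendsto (fun k => D k i i * (D k j j)⁻¹) atTop (𝓝 1)) (k : ℕ)
    (hk : ∀ᶠ k' in (hyperfilter ℕ : Filter ℕ), (D k)⁻¹ * h * D k = (D k')⁻¹ * h * D k') :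
    False := by
  have hat : (hyperfilter ℕ : Filter ℕ) ≤ atTop := by
    rw [← Nat.cofinite_eq_atTop]
    exact hyperfilter_le_cofinite
  have h1 := hlim.mono_left hat
  have h2 : ∀ᶠ k' in (hyperfilter ℕ : Filter ℕ),
      D k' i i * (D k' j j)⁻¹ = D k i i * (D k j j)⁻¹ := by
    filter_upwards [hk] with k' hk'
    have h3 : ((D k)⁻¹ * h * D k) i j = ((D k')⁻¹ * h * D k') i j := by rw [hk']
    rw [sl_conj_e' (hD k), sl_conj_e' (hD k')] at h3
    have h4 := mul_right_cancel₀ hij h3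
    have h5 := congrArg (fun t => t⁻¹) h4
    simp only [mul_inv, inv_inv] at h5
    exact h5.symm
  have h3 : D k i i * (D k j j)⁻¹ = 1 := by
    refine tendsto_nhds_unique (tendsto_const_nhds.congr' ?_) h1
    filter_upwards [h2] with k' hk' using hk'.symm
  apply hne k
  have h4 := sl_dne (hD k) j
  field_simp at h3
  exact h3

end field

variable {X : Type*} [TopologicalSpace X] [LocallyCompactSpace X] [T2Space X]
  [SecondCountableTopology X] [MeasurableSpace X] [BorelSpace X]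
variable {G : Type*} [Group G] [TopologicalSpace G] [IsTopologicalGroup G] [MulAction G X]
  [ContinuousSMul G X]
variable {L : Type*} [Group L] [TopologicalSpace L] [IsTopologicalGroup L]
variable {ι : Type*} [Fintype ι] {n₀ : ℕ} {n : ι → ℕ} {q : ι → ℕ} [hqp : ∀ v, Fact (q v).Prime]

/-- elements of `L` commuting with `p A` -/
def cenL (p : G →* L) (A : Subgroup G) : Subgroup L where
  carrier := {z | ∀ a ∈ A, p a * z = z * p a}
  one_mem' := fun a _ => by rw [mul_one, one_mul]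
  mul_mem' := by
    intro x y hx hy a ha
    rw [← mul_assoc, hx a ha, mul_assoc, hy a ha, mul_assoc]
  inv_mem' := by
    intro x hx a ha
    have := hx a ha
    rw [eq_inv_mul_iff_mul_eq, ← mul_assoc, ← this, mul_inv_cancel_right]

omit [TopologicalSpace G] [IsTopologicalGroup G] in
lemma cenL_closed [T2Space L] (p : G →* L) (A : Subgroup G) : IsClosed (cenL p A : Set L) := by
  have : (cenL p A : Set L) = ⋂ a ∈ A, {z | p a * z = z * p a} := by
    ext z
    simp only [SetLike.mem_coe, Set.mem_iInter, Set.mem_ofPred_eq]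
    exact Iff.rfl
  rw [this]
  refine isClosed_biInter fun a _ => ?_
  exact isClosed_eq (continuous_const.mul continuous_id) (continuous_id.mul continuous_const)

/-- Hypotheses on the acting group `A`: diagonal of class `𝒜` at all places. -/
structure ClsS (κ : L →* SLS n₀ n q) (p : G →* L) (A : Subgroup G) : Prop where
  diag : ∀ a ∈ A, IsDiagS κ (p a)
  clsR : ∀ i k r s, (∀ a ∈ A, ‖(κ (p a)).1 i i * (κ (p a)).1 s s‖ =
        ‖(κ (p a)).1 k k * (κ (p a)).1 r r‖) →
      ∀ a ∈ A, (κ (p a)).1 i i * (κ (p a)).1 s s = (κ (p a)).1 k k * (κ (p a)).1 r r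
  clsP : ∀ v, ∀ i k r s, (∀ a ∈ A, ‖(κ (p a)).2 v i i * (κ (p a)).2 v s s‖ =
        ‖(κ (p a)).2 v k k * (κ (p a)).2 v r r‖) →
      ∀ a ∈ A, (κ (p a)).2 v i i * (κ (p a)).2 v s s = (κ (p a)).2 v k k * (κ (p a)).2 v r r

/-- Small elements preserving `μ` commute with `A`, if `μ` is not unipotent-invariant. -/
theorem small_cen (hq : Function.Injective q) {κ : L →* SLS n₀ n q} (j : L →* G) (p : G →* L)
    (hκ : IsClosedEmbedding κ) (hj : Continuous j)
    (hjp : ∀ (g : G) (u : L), g * j u * g⁻¹ = j (p g * u * (p g)⁻¹)) (hpj : ∀ u, p (j u) = u)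
    {A : Subgroup G} (hA : ClsS κ p A) (μ : Measure X) [IsProbabilityMeasure μ]
    (hμ : ∀ a ∈ A, μ.map (fun z => a • z) = μ)
    (herg : ∀ s : Set X, MeasurableSet s → (∀ a ∈ A, (fun z => a • z) ⁻¹' s =ᵐ[μ] s) →
      μ s = 0 ∨ μ sᶜ = 0)
    (hU : ¬ UnipInv κ j p A μ) :
    ∀ᶠ s in 𝓝 (1 : L), s ∈ (stb (G := G) μ).comap j → s ∈ cenL p A := by
  classical
  have hscS : SecondCountableTopology (SLS n₀ n q) := sls_second
  have hsc : SecondCountableTopology L := hκ.isEmbedding.secondCountableTopology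
  have hns : ¬ μ ⟂ₘ μ := by
    rintro ⟨t, ht, e1, e2⟩
    have h3 : μ Set.univ ≤ μ t + μ tᶜ := by
      rw [← Set.union_compl_self t]
      exact measure_union_le _ _
    rw [e1, e2, measure_univ, add_zero] at h3
    exact absurd h3 (by norm_num)
  by_contra hcon
  have hfr : ∃ᶠ s in 𝓝 (1 : L), s ∈ (stb (G := G) μ).comap j ∧ s ∉ cenL p A := by
    intro hev
    apply hcon
    filter_upwards [hev] with s hs h1
    by_contra h2
    exact hs ⟨h1, h2⟩
  obtain ⟨l, hl, hfl⟩ := exists_seq_forall_of_frequently hfr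
  apply hU
  refine unip_of_seq hq κ j p hκ hj hjp A μ hμ herg (fun a ha => (hA.diag a ha).1)
    (fun a ha => (hA.diag a ha).2) hA.clsR hA.clsP μ hns l hl ?_ ?_
  · intro e he
    refine Eventually.of_forall fun k E hE => ?_
    have hk : μ.map (fun z => j (l k) • z) = μ := (hfl k).1
    have h2 : μ.real ((fun z : X => j (l k) • z) ⁻¹' E) = μ.real E := by
      conv_rhs => rw [← hk]
      rw [measureReal_def, measureReal_def, Measure.map_apply (meas_smul _) hE]
    rw [h2]
    linarith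
  · refine Eventually.frequently (Eventually.of_forall fun k => ?_)
    have h1 := (hfl k).2
    by_contra hall
    push Not at hall
    apply h1
    intro a ha
    have h2 := hall a ha
    have h3 := congrArg p h2
    rw [map_mul, map_mul, hpj] at h3
    exact h3

/-- The translates of `μ` which are not singular to `ν` form a countable set; if `μ` is not
unipotent-invariant, the translating elements are covered by countably many cosets of the
centralizer of `A`. -/
theorem cover_stb (hq : Function.Injective q) {κ : L →* SLS n₀ n q} (j : L →* G) (p : G →* L)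
    (hκ : IsClosedEmbedding κ) (hj : Continuous j)
    (hjp : ∀ (g : G) (u : L), g * j u * g⁻¹ = j (p g * u * (p g)⁻¹)) (hpj : ∀ u, p (j u) = u)
    {A : Subgroup G} (hA : ClsS κ p A) (μ : Measure X) [IsProbabilityMeasure μ]
    (hμ : ∀ a ∈ A, μ.map (fun z => a • z) = μ)
    (herg : ∀ s : Set X, MeasurableSet s → (∀ a ∈ A, (fun z => a • z) ⁻¹' s =ᵐ[μ] s) →
      μ s = 0 ∨ μ sᶜ = 0)
    (ν : Measure X) [IsFiniteMeasure ν] :
    ∃ C : Set L, C.Countable ∧ ∀ h : L, ¬ (μ.map (fun z => j h • z)) ⟂ₘ ν →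
      ∃ c ∈ C, μ.map (fun z => j h • z) = μ.map (fun z => j c • z) ∧
        (UnipInv κ j p A μ ∨ c⁻¹ * h ∈ cenL p A) := by
  classical
  have hscS : SecondCountableTopology (SLS n₀ n q) := sls_second
  have hsc : SecondCountableTopology L := hκ.isEmbedding.secondCountableTopology
  have hcount := countable_translates (G := G) j μ (by
    intro F hF hF0 l hl htv
    refine tv_rigid_S hq κ j p hκ hj hjp A μ hμ herg (fun a ha => (hA.diag a ha).1)
      (fun a ha => (hA.diag a ha).2) hA.clsR hA.clsP (μ.restrict F) ?_ l hl htv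
    rintro ⟨t, ht, h1, h2⟩
    apply hF0
    rw [Measure.restrict_apply ht.compl] at h2
    refine measure_mono_null (t := t ∪ (tᶜ ∩ F)) ?_ (measure_union_null h1 h2)
    intro x hx
    by_cases hxt : x ∈ t
    · exact Or.inl hxt
    · exact Or.inr ⟨hxt, hx⟩) hj ν
  obtain ⟨C, hC, hCs⟩ : ∃ C : Set L, C.Countable ∧ ∀ s ∈ (stb (G := G) μ).comap j, ∃ c ∈ C,
      c ∈ (stb (G := G) μ).comap j ∧ (UnipInv κ j p A μ ∨ c⁻¹ * s ∈ cenL p A) := by
    by_cases hU : UnipInv κ j p A μ
    · exact ⟨{1}, Set.countable_singleton 1, fun s _ => ⟨1, rfl, one_mem _, Or.inl hU⟩⟩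
    · obtain ⟨C, hC, hCs⟩ := countable_cosets ((stb (G := G) μ).comap j)
        {s | s ∈ (stb (G := G) μ).comap j ∧ s ∈ cenL p A} (by
          filter_upwards [small_cen hq j p hκ hj hjp hpj hA μ hμ herg hU] with s hs hs'
            using ⟨hs', hs hs'⟩)
      refine ⟨C, hC, fun s hs => ?_⟩
      obtain ⟨c, hc, h1, h2⟩ := hCs s hs
      refine ⟨c, hc, ?_, Or.inr h2⟩
      have h3 := mul_mem hs (inv_mem h1)
      rwa [_root_.mul_inv_rev, inv_inv, mul_inv_cancel_left] at h3
  have hrep : ∀ m : {m : Measure X | ∃ g : L, m = μ.map (fun z => j g • z) ∧ ¬ m ⟂ₘ ν},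
      ∃ g : L, m.1 = μ.map (fun z => j g • z) := fun m => ⟨_, m.2.choose_spec.1⟩
  choose r hr using hrep
  have : Countable {m : Measure X | ∃ g : L, m = μ.map (fun z => j g • z) ∧ ¬ m ⟂ₘ ν} :=
    hcount.to_subtype
  refine ⟨⋃ m, (fun c => r m * c) '' C, Set.countable_iUnion fun m => hC.image _, ?_⟩
  intro h hh
  set m : {m : Measure X | ∃ g : L, m = μ.map (fun z => j g • z) ∧ ¬ m ⟂ₘ ν} :=
    ⟨μ.map (fun z => j h • z), h, rfl, hh⟩ with hm
  have h1 : μ.map (fun z => j h • z) = μ.map (fun z => j (r m) • z) := hr m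
  have h2 : (r m)⁻¹ * h ∈ (stb (G := G) μ).comap j := by
    show μ.map (fun z => j ((r m)⁻¹ * h) • z) = μ
    rw [map_mul, ← map_map_smul, h1, map_map_smul, ← map_mul, inv_mul_cancel, map_one]
    have : (fun z : X => (1 : G) • z) = id := by
      funext z
      exact one_smul G z
    rw [this, Measure.map_id]
  obtain ⟨c, hc, hcS, hcZ⟩ := hCs _ h2
  refine ⟨r m * c, Set.mem_iUnion.2 ⟨m, c, hc, rfl⟩, ?_, ?_⟩
  · rw [h1, map_mul, ← map_map_smul]
    have h3 : μ.map (fun z => j c • z) = μ := hcS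
    rw [h3]
  · have h3 : (r m * c)⁻¹ * h = c⁻¹ * ((r m)⁻¹ * h) := by group
    rw [h3]
    exact hcZ

end Pool.Agent.Work.MP_67388f_an
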