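import Pool.Agent.Work.MP_67388f_an.TS.Horo

set_option autoImplicit false

namespace Pool.Agent.Work.MP_67388f_an

open MeasureTheory Filter Topology Matrix
open scoped ENNReal

section field

variable {G : Type*} [Group G] {n : ℕ} {K : Type*} [NormedField K]

/-- The elements of `A` whose diagonal entries `i`, `k` have equal norms have equal entries `i`,
`k`, and act ergodically. -/
def ErgKer {X : Type*} [MeasurableSpace X] [MulAction G X] (A : Subgroup G)
    (ρ : G → SpecialLinearGroup (Fin n) K) (μ : Measure X) (i k : Fin n) : Prop :=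
  (∀ a ∈ A, ‖ρ a i i‖ = ‖ρ a k k‖ → ρ a i i = ρ a k k) ∧
    ∀ s : Set X, MeasurableSet s →
      (∀ a ∈ A, ρ a i i = ρ a k k → (fun z => a • z) ⁻¹' s =ᵐ[μ] s) → μ s = 0 ∨ μ sᶜ = 0

lemma NearOne.congr {A : Subgroup G} {ρ : G → SpecialLinearGroup (Fin n) K} {i j k : Fin n}
    (h : NearOne A ρ j k) (hij : ∀ a ∈ A, ρ a i i = ρ a j j) : NearOne A ρ i k := by
  intro ε hε
  obtain ⟨a, ha, h1, h2⟩ := h ε hε
  exact ⟨a, ha, by rw [hij a ha]; exact h1, by rw [hij a ha]; exact h2⟩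

lemma ErgKer.congr {X : Type*} [MeasurableSpace X] [MulAction G X] {A : Subgroup G}
    {ρ : G → SpecialLinearGroup (Fin n) K} {μ : Measure X} {i j k : Fin n}
    (h : ErgKer A ρ μ j k) (hij : ∀ a ∈ A, ρ a i i = ρ a j j) : ErgKer A ρ μ i k := by
  refine ⟨fun a ha hn => ?_, fun s hs hinv => h.2 s hs fun a ha he => hinv a ha ?_⟩
  · rw [hij a ha] at hn ⊢
    exact h.1 a ha hn
  · rw [hij a ha]; exact he

lemma cen_entry {D y : SpecialLinearGroup (Fin n) K} (hD : ∀ i j, i ≠ j → D i j = 0)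
    (h : D * y = y * D) (i j : Fin n) (hij : y i j ≠ 0) : D i i = D j j := by
  have h1 : (D * y).1 i j = (y * D).1 i j := by rw [h]
  have h2 : (D * y).1 = D.1 * y.1 := rfl
  have h3 : (y * D).1 = y.1 * D.1 := rfl
  have e := sl_diag hD
  have e1 : (D.1 * y.1) i j = D i i * y i j := by
    refine (congrArg (fun M : Matrix (Fin n) (Fin n) K => (M * y.1) i j) e).trans ?_
    show (diagonal (fun i => D i i) * y.1) i j = _
    rw [diagonal_mul]
  have e2 : (y.1 * D.1) i j = y i j * D j j := by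
    refine (congrArg (fun M : Matrix (Fin n) (Fin n) K => (y.1 * M) i j) e).trans ?_
    show (y.1 * diagonal (fun i => D i i)) i j = _
    rw [mul_diagonal]
  rw [h2, h3, e1, e2, mul_comm] at h1
  exact mul_left_cancel₀ hij h1

lemma prod_entry {y g : SpecialLinearGroup (Fin n) K} {i k : Fin n} (h : (y * g) i k ≠ 0) :
    ∃ j, y i j ≠ 0 ∧ g j k ≠ 0 := by
  have h1 : (y * g) i k = ∑ j, y i j * g j k := Matrix.mul_apply
  rw [h1] at h
  obtain ⟨j, -, hj⟩ := Finset.exists_ne_zero_of_sum_ne_zero h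
  exact ⟨j, left_ne_zero_of_mul hj, right_ne_zero_of_mul hj⟩

lemma conj_fix_K {D h : SpecialLinearGroup (Fin n) K} (hD : ∀ i j, i ≠ j → D i j = 0)
    (hh : ∀ i j, i ≠ j → h i j ≠ 0 → D i i = D j j) : D * h * D⁻¹ = h := by
  apply Subtype.ext
  ext i j
  refine (sl_conj_e hD h i j).trans ?_
  show _ = h i j
  by_cases hij : i = j
  · subst hij
    rw [mul_inv_cancel₀ (sl_dne hD i), one_mul]
  · by_cases h0 : h i j = 0
    · rw [h0, mul_zero]
    · rw [hh i j hij h0, mul_inv_cancel₀ (sl_dne hD j), one_mul]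

end field

variable {X : Type*} [TopologicalSpace X] [LocallyCompactSpace X] [T2Space X]
  [SecondCountableTopology X] [MeasurableSpace X] [BorelSpace X]
variable {G : Type*} [Group G] [TopologicalSpace G] [IsTopologicalGroup G] [MulAction G X]
  [ContinuousSMul G X]
variable {L : Type*} [Group L] [TopologicalSpace L] [IsTopologicalGroup L]
variable {ι : Type*} [Fintype ι] {n₀ : ℕ} {n : ι → ℕ} {q : ι → ℕ} [hqp : ∀ v, Fact (q v).Prime]

/-- the coordinate `c` of `g` is a nonzero entry off the diagonal -/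
def EntS (κ : L →* SLS n₀ n q) (g : L) :
    ((Fin n₀ × Fin n₀) ⊕ (Σ v : ι, Fin (n v) × Fin (n v))) → Prop
  | Sum.inl c => c.1 ≠ c.2 ∧ (κ g).1 c.1 c.2 ≠ 0
  | Sum.inr c => c.2.1 ≠ c.2.2 ∧ (κ g).2 c.1 c.2.1 c.2.2 ≠ 0

/-- the diagonal entries at the coordinate `c` are equal -/
def EqS (κ : L →* SLS n₀ n q) (x : L) :
    ((Fin n₀ × Fin n₀) ⊕ (Σ v : ι, Fin (n v) × Fin (n v))) → Prop
  | Sum.inl c => (κ x).1 c.1 c.1 = (κ x).1 c.2 c.2
  | Sum.inr c => (κ x).2 c.1 c.2.1 c.2.1 = (κ x).2 c.1 c.2.2 c.2.2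

/-- the ratio at the coordinate `c` is not discrete -/
def NearS (κ : L →* SLS n₀ n q) (p : G →* L) (A : Subgroup G) :
    ((Fin n₀ × Fin n₀) ⊕ (Σ v : ι, Fin (n v) × Fin (n v))) → Prop
  | Sum.inl c => NearOne A (fun a => (κ (p a)).1) c.1 c.2
  | Sum.inr c => NearOne A (fun a => (κ (p a)).2 c.1) c.2.1 c.2.2

/-- the kernel of the ratio at the coordinate `c` is ergodic -/
def KerS (κ : L →* SLS n₀ n q) (p : G →* L) (A : Subgroup G) (μ : Measure X) :
    ((Fin n₀ × Fin n₀) ⊕ (Σ v : ι, Fin (n v) × Fin (n v))) → Prop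
  | Sum.inl c => ErgKer A (fun a => (κ (p a)).1) μ c.1 c.2
  | Sum.inr c => ErgKer A (fun a => (κ (p a)).2 c.1) μ c.2.1 c.2.2

omit [Fintype ι] [TopologicalSpace L] [IsTopologicalGroup L] in
lemma scoord_ne (κ : L →* SLS n₀ n q) (h x : L)
    (c : (Fin n₀ × Fin n₀) ⊕ (Σ v : ι, Fin (n v) × Fin (n v))) (hc : scoord κ c h ≠ 0)
    (hx : gwt κ x c ≠ 0) : EntS κ h c := by
  rcases c with ⟨i, k⟩ | ⟨v, i, k⟩
  · have hik : i ≠ k := by
      rintro rfl
      exact hx (sub_self _)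
    refine ⟨hik, fun h0 => hc ?_⟩
    show ‖(κ h).1.1 i k - (1 : Matrix (Fin n₀) (Fin n₀) ℝ) i k‖ = 0
    rw [Matrix.one_apply_ne hik, sub_zero, norm_eq_zero]
    exact h0
  · have hik : i ≠ k := by
      rintro rfl
      exact hx (sub_self _)
    refine ⟨hik, fun h0 => hc ?_⟩
    show ‖((κ h).2 v).1 i k - (1 : Matrix (Fin (n v)) (Fin (n v)) ℚ_[q v]) i k‖ = 0
    rw [Matrix.one_apply_ne hik, sub_zero, norm_eq_zero]
    exact h0

omit [Fintype ι] [TopologicalSpace L] [IsTopologicalGroup L] in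
lemma ent_scoord (κ : L →* SLS n₀ n q) (h : L)
    (c : (Fin n₀ × Fin n₀) ⊕ (Σ v : ι, Fin (n v) × Fin (n v))) (hc : EntS κ h c) :
    scoord κ c h ≠ 0 := by
  rcases c with ⟨i, k⟩ | ⟨v, i, k⟩
  · intro h0
    have h1 : ‖(κ h).1.1 i k - (1 : Matrix (Fin n₀) (Fin n₀) ℝ) i k‖ = 0 := h0
    rw [Matrix.one_apply_ne hc.1, sub_zero, norm_eq_zero] at h1
    exact hc.2 h1
  · intro h0
    have h1 : ‖((κ h).2 v).1 i k - (1 : Matrix (Fin (n v)) (Fin (n v)) ℚ_[q v]) i k‖ = 0 := h0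
    rw [Matrix.one_apply_ne hc.1, sub_zero, norm_eq_zero] at h1
    exact hc.2 h1

omit [Fintype ι] [TopologicalSpace G] [IsTopologicalGroup G] [TopologicalSpace L]
  [IsTopologicalGroup L] in
lemma log_norm_inj {K : Type*} [NormedField K] {x y : K} (hx : x ≠ 0) (hy : y ≠ 0)
    (h : Real.log ‖x‖ - Real.log ‖y‖ = 0) : ‖x‖ = ‖y‖ :=
  Real.log_injOn_pos (Set.mem_Ioi.2 (norm_pos_iff.2 hx)) (Set.mem_Ioi.2 (norm_pos_iff.2 hy))
    (sub_eq_zero.1 h)

omit [Fintype ι] [TopologicalSpace G] [IsTopologicalGroup G] [TopologicalSpace L]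
  [IsTopologicalGroup L] in
lemma KerS.eq {κ : L →* SLS n₀ n q} {p : G →* L} {A : Subgroup G} {μ : Measure X}
    {c : (Fin n₀ × Fin n₀) ⊕ (Σ v : ι, Fin (n v) × Fin (n v))} (h : KerS κ p A μ c)
    (hA : ∀ a ∈ A, IsDiagS κ (p a)) (a : G) (ha : a ∈ A) (h0 : gwt κ (p a) c = 0) :
    EqS κ (p a) c := by
  rcases c with ⟨i, k⟩ | ⟨v, i, k⟩
  · exact h.1 a ha (log_norm_inj (sl_dne (hA a ha).1 i) (sl_dne (hA a ha).1 k) h0)
  · exact h.1 a ha (log_norm_inj (sl_dne ((hA a ha).2 v) i) (sl_dne ((hA a ha).2 v) k) h0)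

omit [Fintype ι] [TopologicalSpace G] [IsTopologicalGroup G] [TopologicalSpace L]
  [IsTopologicalGroup L] in
lemma KerS.erg {κ : L →* SLS n₀ n q} {p : G →* L} {A : Subgroup G} {μ : Measure X}
    {c : (Fin n₀ × Fin n₀) ⊕ (Σ v : ι, Fin (n v) × Fin (n v))} (h : KerS κ p A μ c)
    (s : Set X) (hs : MeasurableSet s)
    (hinv : ∀ a ∈ A, EqS κ (p a) c → (fun z => a • z) ⁻¹' s =ᵐ[μ] s) : μ s = 0 ∨ μ sᶜ = 0 := by
  rcases c with ⟨i, k⟩ | ⟨v, i, k⟩
  · exact h.2 s hs hinv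
  · exact h.2 s hs hinv

omit [Fintype ι] [TopologicalSpace L] [IsTopologicalGroup L] in
lemma EqS.wt {κ : L →* SLS n₀ n q} {x : L}
    {c : (Fin n₀ × Fin n₀) ⊕ (Σ v : ι, Fin (n v) × Fin (n v))} (h : EqS κ x c) :
    gwt κ x c = 0 := by
  rcases c with ⟨i, k⟩ | ⟨v, i, k⟩
  · have h' : (κ x).1 i i = (κ x).1 k k := h
    show Real.log ‖(κ x).1 i i‖ - Real.log ‖(κ x).1 k k‖ = 0
    rw [h', sub_self]
  · have h' : (κ x).2 v i i = (κ x).2 v k k := h
    show Real.log ‖(κ x).2 v i i‖ - Real.log ‖(κ x).2 v k k‖ = 0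
    rw [h', sub_self]

omit [Fintype ι] [IsTopologicalGroup L] in
lemma conj_fix {κ : L →* SLS n₀ n q} (hκ : IsClosedEmbedding κ) (x h : L) (hx : IsDiagS κ x)
    (hh : ∀ c, EntS κ h c → EqS κ x c) : x * h * x⁻¹ = h := by
  apply hκ.injective
  rw [map_mul, map_mul, map_inv]
  refine Prod.ext ?_ (funext fun v => ?_)
  · exact conj_fix_K hx.1 fun i j hij h0 => hh (Sum.inl (i, j)) ⟨hij, h0⟩
  · exact conj_fix_K (hx.2 v) fun i j hij h0 => hh (Sum.inr ⟨v, i, j⟩) ⟨hij, h0⟩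

/-- An isolated element with proportional weights has no non-discrete ratio. -/
theorem near_case {κ : L →* SLS n₀ n q} (hκ : IsClosedEmbedding κ) (p : G →* L)
    {A : Subgroup G} (hA : ∀ a ∈ A, IsDiagS κ (p a)) (a₀ : G) (h : L)
    (hcon : ∀ c, 0 ≤ gwt κ (p a₀) c → scoord κ c h = 0)
    (hprop : ∀ a ∈ A, ∀ c c', scoord κ c h ≠ 0 → scoord κ c' h ≠ 0 →
      gwt κ (p a) c * gwt κ (p a₀) c' = gwt κ (p a) c' * gwt κ (p a₀) c)
    (hiso : ∀ᶠ y in 𝓝 h, ∀ a ∈ A, p a * h * (p a)⁻¹ = y → y = h)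
    (c₀ : (Fin n₀ × Fin n₀) ⊕ (Σ v : ι, Fin (n v) × Fin (n v))) (hc₀ : scoord κ c₀ h ≠ 0)
    (hN : NearS κ p A c₀) : False := by
  have hneg : gwt κ (p a₀) c₀ < 0 := by
    by_contra hcon'
    exact hc₀ (hcon c₀ (not_lt.1 hcon'))
  have hpf : ∀ a : ℕ → G, (∀ k, a k ∈ A) → Tendsto (fun k => gwt κ (p (a k)) c₀) atTop (𝓝 0) →
      ∃ k, ∀ᶠ k' in (hyperfilter ℕ : Filter ℕ),
        (p (a k))⁻¹ * h * p (a k) = (p (a k'))⁻¹ * h * p (a k') := by
    intro a ha hw
    refine pair_fix hκ (p a₀) (fun k => p (a k)) (fun k => hA _ (ha k)) h hcon ?_ ?_ c₀ hc₀ hw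
    · intro k c c' h1 h2
      exact hprop (a k) (ha k) c c' h1 h2
    · filter_upwards [hiso] with y hy k k' hkk
      refine hy (a k' * (a k)⁻¹) (mul_mem (ha k') (inv_mem (ha k))) ?_
      rw [← hkk, map_mul, map_inv]
      group
  have hent := scoord_ne κ h (p a₀) c₀ hc₀ hneg.ne
  rcases c₀ with ⟨i, i'⟩ | ⟨v, i, i'⟩
  · obtain ⟨a, ha, hne', hlim1⟩ := nd_seq A (fun a => (κ (p a)).1) i i' hN
    obtain ⟨k, hk⟩ := hpf a ha (ratio_log (fun k => (κ (p (a k))).1)
      (fun k => (hA _ (ha k)).1) i i' hlim1)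
    refine nd_end (fun k => (κ (p (a k))).1) (fun k => (hA _ (ha k)).1) (κ h).1 i i' hent.2 hne'
      hlim1 k ?_
    filter_upwards [hk] with k' hk'
    have h1 := congrArg (fun y => (κ y).1) hk'
    simp only [map_mul, map_inv] at h1
    exact h1
  · obtain ⟨a, ha, hne', hlim1⟩ := nd_seq A (fun a => (κ (p a)).2 v) i i' hN
    obtain ⟨k, hk⟩ := hpf a ha (ratio_log (fun k => (κ (p (a k))).2 v)
      (fun k => (hA _ (ha k)).2 v) i i' hlim1)
    refine nd_end (fun k => (κ (p (a k))).2 v) (fun k => (hA _ (ha k)).2 v) ((κ h).2 v) i i'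
      hent.2 hne' hlim1 k ?_
    filter_upwards [hk] with k' hk'
    have h1 := congrArg (fun y => (κ y).2 v) hk'
    simp only [map_mul, map_inv] at h1
    exact h1

/-- A contracted nonsingular translate with proportional weights whose kernel is ergodic. -/
theorem ker_case {κ : L →* SLS n₀ n q} (hκ : IsClosedEmbedding κ) (j : L →* G) (p : G →* L)
    (hjp : ∀ (g : G) (u : L), g * j u * g⁻¹ = j (p g * u * (p g)⁻¹))
    {A : Subgroup G} (hA : ∀ a ∈ A, IsDiagS κ (p a)) (μ : Measure X) [IsProbabilityMeasure μ]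
    (hμ : ∀ a ∈ A, μ.map (fun z => a • z) = μ)
    (hsm : ∀ᶠ s in 𝓝 (1 : L), s ∈ (stb (G := G) μ).comap j → s ∈ cenL p A)
    (a₀ : G) (ha₀ : a₀ ∈ A) (h : L) (hh1 : h ≠ 1)
    (hcon : ∀ c, 0 ≤ gwt κ (p a₀) c → scoord κ c h = 0)
    (hlimh : Tendsto (fun m : ℕ => p a₀ ^ m * h * (p a₀ ^ m)⁻¹) atTop (𝓝 1))
    (hprop : ∀ a ∈ A, ∀ c c', scoord κ c h ≠ 0 → scoord κ c' h ≠ 0 →
      gwt κ (p a) c * gwt κ (p a₀) c' = gwt κ (p a) c' * gwt κ (p a₀) c)
    (hns : ¬ (μ.map (fun x => j h • x)) ⟂ₘ μ)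
    (hK : ∀ c, scoord κ c h ≠ 0 → KerS κ p A μ c) : False := by
  classical
  have hT2 : T2Space L := hκ.isEmbedding.t2Space
  obtain ⟨c₀, hc₀⟩ : ∃ c, scoord κ c h ≠ 0 := by
    by_contra hall
    push Not at hall
    exact hh1 ((scoord_one hκ h).1 hall)
  have hneg : gwt κ (p a₀) c₀ < 0 := by
    by_contra hcon'
    exact hc₀ (hcon c₀ (not_lt.1 hcon'))
  have hfix : ∀ a ∈ A, EqS κ (p a) c₀ → p a * h * (p a)⁻¹ = h := by
    intro a ha he
    refine conj_fix hκ _ h (hA a ha) fun c hc => ?_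
    have hc' := ent_scoord κ h c hc
    refine (hK c hc').eq hA a ha ?_
    have h1 := hprop a ha c₀ c hc₀ hc'
    rw [he.wt, zero_mul] at h1
    exact (mul_eq_zero.1 h1.symm).resolve_right hneg.ne
  have hcomj : ∀ a ∈ A, EqS κ (p a) c₀ → a * j h = j h * a := by
    intro a ha he
    have h1 := hjp a h
    rw [hfix a ha he] at h1
    exact mul_inv_eq_iff_eq_mul.1 h1
  set B : Subgroup G := Subgroup.closure {a | a ∈ A ∧ EqS κ (p a) c₀} with hB
  have hBA : B ≤ A := (Subgroup.closure_le A).2 fun a ha => ha.1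
  have hgen : ∀ a, a ∈ A → EqS κ (p a) c₀ → a ∈ B := fun a ha he =>
    Subgroup.subset_closure ⟨ha, he⟩
  have hprob : IsProbabilityMeasure (μ.map (fun x => j h • x)) :=
    Measure.isProbabilityMeasure_map (meas_smul _).aemeasurable
  have hBh : B ≤ stb (G := G) (μ.map (fun x => j h • x)) := by
    refine (Subgroup.closure_le _).2 ?_
    rintro a ⟨ha, he⟩
    show (μ.map (fun x => j h • x)).map (fun x => a • x) = μ.map (fun x => j h • x)
    rw [map_map_smul, hcomj a ha he, ← map_map_smul, hμ a ha]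
  have herg : ∀ s : Set X, MeasurableSet s → (∀ a ∈ B, (fun z => a • z) ⁻¹' s =ᵐ[μ] s) →
      μ s = 0 ∨ μ sᶜ = 0 := fun s hs hinv =>
    (hK c₀ hc₀).erg s hs fun a ha he => hinv a (hgen a ha he)
  have herg' : ∀ s : Set X, MeasurableSet s →
      (∀ a ∈ B, (fun z => a • z) ⁻¹' s =ᵐ[μ.map (fun x => j h • x)] s) →
      (μ.map (fun x => j h • x)) s = 0 ∨ (μ.map (fun x => j h • x)) sᶜ = 0 := by
    intro s hs hinv
    rw [Measure.map_apply (meas_smul _) hs, Measure.map_apply (meas_smul _) hs.compl]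
    refine (hK c₀ hc₀).erg _ (meas_smul _ hs) fun a ha he => ?_
    have h1 := hinv a (hgen a ha he)
    have h2 := ae_of_ae_map (meas_smul (X := X) (j h)).aemeasurable h1
    filter_upwards [h2] with x hx
    show (j h • a • x ∈ s) = (j h • x ∈ s)
    have h3 : (a • j h • x ∈ s) = (j h • x ∈ s) := hx
    rw [← h3, smul_smul, smul_smul, hcomj a ha he]
  have heq : μ.map (fun x => j h • x) = μ :=
    eq_of_erg (μ.map (fun x => j h • x)) μ B B (fun a ha => hBh ha) (fun a ha => hμ a (hBA ha))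
      (fun a ha => hBh ha) (fun a ha => hμ a (hBA ha)) herg' herg hns
  have hst : j h ∈ stb (G := G) μ := heq
  have hstm : ∀ m : ℕ, p a₀ ^ m * h * (p a₀ ^ m)⁻¹ ∈ (stb (G := G) μ).comap j := by
    intro m
    have h1 := hjp (a₀ ^ m) h
    rw [map_pow] at h1
    show j (p a₀ ^ m * h * (p a₀ ^ m)⁻¹) ∈ stb (G := G) μ
    rw [← h1]
    have h2 : a₀ ^ m ∈ stb (G := G) μ := hμ _ (pow_mem ha₀ m)
    exact mul_mem (mul_mem h2 hst) (inv_mem h2)
  have hev := hlimh.eventually hsm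
  apply hh1
  refine tendsto_nhds_unique (tendsto_const_nhds.congr' ?_) hlimh
  filter_upwards [hev] with m hm
  have h1 := hm (hstm m) (a₀ ^ m) (pow_mem ha₀ m)
  rw [map_pow] at h1
  have h2 : p a₀ ^ m * h * (p a₀ ^ m)⁻¹ * p a₀ ^ m = p a₀ ^ m * h := by group
  rw [h2] at h1
  have h3 := mul_left_cancel h1
  exact h3.symm

/-- Nonsingular translates along directions contracted to the centralizer. -/
theorem horo_sing (hq : Function.Injective q) {κ : L →* SLS n₀ n q} (j : L →* G) (p : G →* L)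
    (hκ : IsClosedEmbedding κ) (hj : Continuous j)
    (hjp : ∀ (g : G) (u : L), g * j u * g⁻¹ = j (p g * u * (p g)⁻¹)) (hpj : ∀ u, p (j u) = u)
    {A : Subgroup G} (hA : ClsS κ p A)
    (μ ν : Measure X) [IsProbabilityMeasure μ] [IsProbabilityMeasure ν]
    (hμ : ∀ a ∈ A, μ.map (fun z => a • z) = μ)
    (herg : ∀ s : Set X, MeasurableSet s → (∀ a ∈ A, (fun z => a • z) ⁻¹' s =ᵐ[μ] s) →
      μ s = 0 ∨ μ sᶜ = 0)
    (hν : ∀ a ∈ A, ν.map (fun z => a • z) = ν)
    (herg' : ∀ s : Set X, MeasurableSet s → (∀ a ∈ A, (fun z => a • z) ⁻¹' s =ᵐ[ν] s) →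
      ν s = 0 ∨ ν sᶜ = 0)
    (hU : ¬ UnipInv κ j p A μ) (g : L)
    (hgood : ∀ c, EntS κ g c → NearS κ p A c ∨ KerS κ p A μ c)
    (a₀ : G) (ha₀ : a₀ ∈ A) (z : L) (hz : z ∈ cenL p A)
    (hlim : Tendsto (fun m : ℕ => p a₀ ^ m * g * (p a₀ ^ m)⁻¹) atTop (𝓝 z)) :
    (μ.map (fun x => j g • x)) ⟂ₘ ν ∨ (g = z ∧ μ.map (fun x => j g • x) = ν) := by
  classical
  by_cases hs : (μ.map (fun x => j g • x)) ⟂ₘ ν
  · exact Or.inl hs
  right
  have hT2 : T2Space L := hκ.isEmbedding.t2Space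
  have hlocS : LocallyCompactSpace (SLS n₀ n q) := sls_loc
  have hloc : LocallyCompactSpace L := hκ.locallyCompactSpace
  obtain ⟨c, hc0, hc⟩ := exists_ov _ _ hs
  have hZ : ∀ z ∈ cenL p A, ∀ a ∈ A, p a * z = z * p a := fun z hz a ha => hz a ha
  have hcomm : ∀ a ∈ A, ∀ b ∈ A, p a * p b = p b * p a := by
    intro a ha b hb
    apply hκ.injective
    rw [map_mul, map_mul]
    have hcm : ∀ {m : ℕ} {K : Type} [NormedField K] (D E : SpecialLinearGroup (Fin m) K)
      (hD : ∀ i j, i ≠ j → D i j = 0) (hE : ∀ i j, i ≠ j → E i j = 0), D * E = E * D := by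
      intro m K _ D E hD hE
      apply Subtype.ext
      have h1 : (D * E).1 = D.1 * E.1 := rfl
      have h2 : (E * D).1 = E.1 * D.1 := rfl
      rw [h1, h2, sl_diag hD, sl_diag hE, diagonal_mul_diagonal, diagonal_mul_diagonal]
      congr 1
      funext i
      exact mul_comm _ _
    refine Prod.ext ?_ (funext fun v => ?_)
    · exact hcm _ _ (hA.diag a ha).1 (hA.diag b hb).1
    · exact hcm _ _ ((hA.diag a ha).2 v) ((hA.diag b hb).2 v)
  have hzj : ∀ a ∈ A, a * j z = j z * a := by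
    intro a ha
    have h1 := hjp a z
    rw [hZ z hz a ha, mul_inv_cancel_right] at h1
    exact mul_inv_eq_iff_eq_mul.1 h1
  -- step 3
  have hzov : Ov c (μ.map (fun x => j z • x)) ν := by
    refine ov_limit (l := atTop) (fun m : ℕ => j (p a₀ ^ m * g * (p a₀ ^ m)⁻¹)) (j z)
      ((hj.tendsto z).comp hlim) c μ ν (Eventually.of_forall fun m => ?_)
    have h1 := hjp (a₀ ^ m) g
    rw [map_pow] at h1
    rw [← h1]
    exact ov_conj c μ ν (j g) (a₀ ^ m) (hμ _ (pow_mem ha₀ m)) (hν _ (pow_mem ha₀ m)) hc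
  have : IsProbabilityMeasure (μ.map (fun x => j z • x)) :=
    Measure.isProbabilityMeasure_map (meas_smul _).aemeasurable
  have hzinv : ∀ a ∈ A, (μ.map (fun x => j z • x)).map (fun x => a • x) =
      μ.map (fun x => j z • x) := by
    intro a ha
    rw [map_map_smul, hzj a ha, ← map_map_smul, hμ a ha]
  have hzerg : ∀ s : Set X, MeasurableSet s →
      (∀ a ∈ A, (fun x => a • x) ⁻¹' s =ᵐ[μ.map (fun x => j z • x)] s) →
      (μ.map (fun x => j z • x)) s = 0 ∨ (μ.map (fun x => j z • x)) sᶜ = 0 := by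
    intro s hs h
    rw [Measure.map_apply (meas_smul _) hs, Measure.map_apply (meas_smul _) hs.compl]
    refine herg _ (meas_smul _ hs) fun a ha => ?_
    have h1 := h a ha
    have h2 := ae_of_ae_map (meas_smul (X := X) (j z)).aemeasurable h1
    filter_upwards [h2] with x hx
    show (j z • a • x ∈ s) = (j z • x ∈ s)
    have h3 : (a • j z • x ∈ s) = (j z • x ∈ s) := hx
    rw [← h3, smul_smul, smul_smul, hzj a ha]
  have hzν : μ.map (fun x => j z • x) = ν :=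
    eq_of_erg (μ.map (fun x => j z • x)) ν A A hzinv hν hzinv hν hzerg herg'
      (not_sing_of_ov hc0 hzov)
  -- step 4
  set g' : L := z⁻¹ * g with hg'
  have hov' : Ov c (μ.map (fun x => j g' • x)) μ := by
    intro s hs
    have h1 := hc ((fun x => (j z)⁻¹ • x) ⁻¹' s) (meas_smul _ hs)
    rw [← hzν, ← Measure.map_apply (meas_smul _) hs, map_map_smul, ← Set.preimage_compl,
      ← Measure.map_apply (meas_smul _) hs.compl, map_map_smul, inv_mul_cancel] at h1
    have e1 : (j z)⁻¹ * j g = j g' := by rw [hg', map_mul, map_inv]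
    have e2 : (fun x : X => (1 : G) • x) = id := by
      funext x
      exact one_smul G x
    rw [e1, e2, Measure.map_id] at h1
    exact h1
  have hpz : ∀ m : ℕ, p a₀ ^ m * z⁻¹ = z⁻¹ * p a₀ ^ m := fun m =>
    (Commute.pow_left (show Commute (p a₀) z⁻¹ from hZ _ (inv_mem hz) a₀ ha₀) m).eq
  have hlim' : Tendsto (fun m : ℕ => p a₀ ^ m * g' * (p a₀ ^ m)⁻¹) atTop (𝓝 1) := by
    have h1 := hlim.const_mul z⁻¹
    rw [inv_mul_cancel] at h1
    refine h1.congr fun m => ?_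
    rw [hg', ← mul_assoc (p a₀ ^ m), hpz m]
    group
  -- the good coordinates of `g'`
  have hgood' : ∀ c, scoord κ c g' ≠ 0 → gwt κ (p a₀) c ≠ 0 →
      NearS κ p A c ∨ KerS κ p A μ c := by
    intro c hc hw
    have hent := scoord_ne κ g' (p a₀) c hc hw
    rcases c with ⟨i, k⟩ | ⟨v, i, k⟩
    · have h1 : ((κ z⁻¹).1 * (κ g).1) i k ≠ 0 := by
        have h2 := hent.2
        rw [hg', map_mul] at h2
        exact h2
      obtain ⟨j', hj1, hj2⟩ := prod_entry h1
      have hij : ∀ a ∈ A, (κ (p a)).1 i i = (κ (p a)).1 j' j' := by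
        intro a ha
        refine cen_entry (hA.diag a ha).1 ?_ i j' hj1
        have h2 := congrArg (fun y => (κ y).1) (hZ _ (inv_mem hz) a ha)
        simp only [map_mul] at h2
        exact h2
      have hjk : j' ≠ k := by
        rintro rfl
        apply hw
        show Real.log ‖(κ (p a₀)).1 i i‖ - Real.log ‖(κ (p a₀)).1 j' j'‖ = 0
        rw [hij a₀ ha₀, sub_self]
      rcases hgood (Sum.inl (j', k)) ⟨hjk, hj2⟩ with h2 | h2
      · exact Or.inl (NearOne.congr h2 hij)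
      · exact Or.inr (ErgKer.congr h2 hij)
    · have h1 : ((κ z⁻¹).2 v * (κ g).2 v) i k ≠ 0 := by
        have h2 := hent.2
        rw [hg', map_mul] at h2
        exact h2
      obtain ⟨j', hj1, hj2⟩ := prod_entry h1
      have hij : ∀ a ∈ A, (κ (p a)).2 v i i = (κ (p a)).2 v j' j' := by
        intro a ha
        refine cen_entry ((hA.diag a ha).2 v) ?_ i j' hj1
        have h2 := congrArg (fun y => (κ y).2 v) (hZ _ (inv_mem hz) a ha)
        simp only [map_mul] at h2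
        exact h2
      have hjk : j' ≠ k := by
        rintro rfl
        apply hw
        show Real.log ‖(κ (p a₀)).2 v i i‖ - Real.log ‖(κ (p a₀)).2 v j' j'‖ = 0
        rw [hij a₀ ha₀, sub_self]
      rcases hgood (Sum.inr ⟨v, j', k⟩) ⟨hjk, hj2⟩ with h2 | h2
      · exact Or.inl (NearOne.congr h2 hij)
      · exact Or.inr (ErgKer.congr h2 hij)
  -- step 6
  set S : Set L := {y | ∃ a ∈ A, p a * g' * (p a)⁻¹ = y} with hS
  set O : Set L := closure S with hO
  have hSov : ∀ y ∈ S, Ov c (μ.map (fun x => j y • x)) μ := by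
    rintro y ⟨a, ha, rfl⟩
    rw [← hjp a g']
    exact ov_conj c μ μ (j g') a (hμ a ha) (hμ a ha) hov'
  have hOov : ∀ y ∈ O, Ov c (μ.map (fun x => j y • x)) μ := by
    intro y hy
    have hne : NeBot (𝓝[S] y) := mem_closure_iff_nhdsWithin_neBot.1 hy
    refine ov_limit (l := 𝓝[S] y) (fun x => j x) (j y)
      ((hj.tendsto y).mono_left nhdsWithin_le_nhds) c μ μ ?_
    filter_upwards [self_mem_nhdsWithin] with x hx using hSov x hx
  have hOcl : IsClosed O := isClosed_closure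
  have hSA : ∀ h ∈ S, ∀ a ∈ A, p a * h * (p a)⁻¹ ∈ S := by
    rintro h ⟨b, hb, rfl⟩ a ha
    exact ⟨a * b, mul_mem ha hb, by rw [map_mul]; group⟩
  have hOA : ∀ h ∈ O, ∀ a : A, (p.comp A.subtype) a * h * ((p.comp A.subtype) a)⁻¹ ∈ O := by
    intro h hh a
    have hcont : Continuous (fun y : L => p (a : G) * y * (p (a : G))⁻¹) :=
      (continuous_const.mul continuous_id).mul continuous_const
    exact map_mem_closure (f := fun y : L => p (a : G) * y * (p (a : G))⁻¹) hcont hh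
      fun y hy => hSA y hy a a.2
  have hdiagpow : ∀ m : ℕ, IsDiagS κ (p a₀ ^ m) := by
    intro m
    rw [← map_pow]
    exact hA.diag _ (pow_mem ha₀ m)
  have hconS : ∀ c, 0 ≤ gwt κ (p a₀) c → scoord κ c g' = 0 := by
    intro c hc
    have h1 : Tendsto (fun m : ℕ => scoord κ c (p a₀ ^ m * g' * (p a₀ ^ m)⁻¹)) atTop (𝓝 0) := by
      have := ((scoord_cont hκ c).tendsto 1).comp hlim'
      rwa [(scoord_one hκ 1).2 rfl c] at this
    have h2 : ∀ m : ℕ, gwt κ (p a₀ ^ m) c = m * gwt κ (p a₀) c := by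
      intro m
      induction m with
      | zero =>
        have h3 := gwt_mul κ 1 1 (by simpa using hdiagpow 0) (by simpa using hdiagpow 0) c
        rw [mul_one] at h3
        rw [pow_zero]
        push_cast
        linarith
      | succ m ih =>
        rw [pow_succ, gwt_mul κ _ _ (hdiagpow m) (hA.diag a₀ ha₀), ih]
        push_cast
        ring
    have h3 : ∀ m : ℕ, scoord κ c g' ≤ scoord κ c (p a₀ ^ m * g' * (p a₀ ^ m)⁻¹) := by
      intro m
      rw [scoord_conj κ _ (hdiagpow m), h2]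
      exact le_mul_of_one_le_left (scoord_nonneg κ c g')
        (Real.one_le_exp (mul_nonneg (Nat.cast_nonneg m) hc))
    have h4 := ge_of_tendsto h1 (Eventually.of_forall h3)
    exact le_antisymm h4 (scoord_nonneg κ c g')
  have hsubO : ∀ c, scoord κ c g' = 0 → ∀ h ∈ O, scoord κ c h = 0 := by
    intro c hc h hh
    have hcl : IsClosed {y : L | scoord κ c y = 0} :=
      isClosed_eq (scoord_cont hκ c) continuous_const
    have hsub : S ⊆ {y : L | scoord κ c y = 0} := by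
      rintro y ⟨a, ha, rfl⟩
      show scoord κ c (p a * g' * (p a)⁻¹) = 0
      rw [scoord_conj κ _ (hA.diag a ha), hc, mul_zero]
    exact (closure_minimal hsub hcl) hh
  have hconO : ∀ h ∈ O, ∀ c, 0 ≤ gwt κ (p a₀) c → scoord κ c h = 0 := fun h hh c hc =>
    hsubO c (hconS c hc) h hh
  obtain ⟨C, hC, hcov⟩ : ∃ C : Set L, C.Countable ∧ ∀ h : L,
      ¬ (μ.map (fun z => j h • z)) ⟂ₘ μ → ∃ c ∈ C, c⁻¹ * h ∈ cenL p A := by
    obtain ⟨C, hC, hcov⟩ := cover_stb hq j p hκ hj hjp hpj hA μ hμ herg μ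
    refine ⟨C, hC, fun h hh => ?_⟩
    obtain ⟨c, hc, -, h1⟩ := hcov h hh
    exact ⟨c, hc, h1.resolve_left hU⟩
  have hsm := small_cen hq j p hκ hj hjp hpj hA μ hμ herg hU
  have hgauge : IsGauge (scoord κ) (p a₀) (gwt κ (p a₀)) :=
    { nonneg := fun c h => scoord_nonneg κ c h
      cont := fun c => scoord_cont hκ c
      eq_one := fun h => scoord_one hκ h
      cpt := fun R => scoord_cpt hκ R
      conj := fun c h => scoord_conj κ _ (hA.diag a₀ ha₀) c h }
  have hOone : ∀ h ∈ O, h = 1 := by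
    refine trivial_of_prop (A := A) (p.comp A.subtype) (scoord κ)
      (fun a c => gwt κ (p (a : G)) c) (fun c h => scoord_nonneg κ c h)
      (fun c => scoord_cont hκ c) (fun h => scoord_one hκ h) (fun R => scoord_cpt hκ R)
      (fun a c h => scoord_conj κ _ (hA.diag a a.2) c h)
      (fun a b c => by
        show gwt κ (p ((a : G) * (b : G))) c = _
        rw [map_mul]
        exact gwt_mul κ _ _ (hA.diag a a.2) (hA.diag b b.2) c)
      ⟨a₀, ha₀⟩ O hOcl hOA hconO ?_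
    intro h hh hh1
    by_contra hcon
    push Not at hcon
    have hprop : ∀ a ∈ A, ∀ c c', scoord κ c h ≠ 0 → scoord κ c' h ≠ 0 →
        gwt κ (p a) c * gwt κ (p a₀) c' = gwt κ (p a) c' * gwt κ (p a₀) c :=
      fun a ha c c' h1 h2 => hcon ⟨a, ha⟩ c c' h1 h2
    have hne : ¬ (μ.map (fun x => j h • x)) ⟂ₘ μ := not_sing_of_ov hc0 (hOov h hh)
    have hlimh : Tendsto (fun m : ℕ => p a₀ ^ m * h * (p a₀ ^ m)⁻¹) atTop (𝓝 1) := by
      have h1 := hgauge.inv.contract h (fun c hc => hconO h hh c (by linarith)) (fun m : ℕ => m)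
        atTop tendsto_id
      refine h1.congr fun m => ?_
      rw [inv_pow, inv_inv]
    by_cases hN : ∃ c, scoord κ c h ≠ 0 ∧ NearS κ p A c
    · obtain ⟨c₀, hc₀, hN⟩ := hN
      have hnear := near_orbit j p hj hjp A μ μ hμ hμ (cenL p A) (cenL_closed p A) hZ C hC hcov h
        hne
      have hiso := isolated_of_contract p A hcomm (cenL p A) hZ h a₀ ha₀ 1 (one_mem _) hlimh hnear
      exact near_case hκ p hA.diag a₀ h (hconO h hh) hprop hiso c₀ hc₀ hN
    · push Not at hN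
      refine ker_case hκ j p hjp hA.diag μ hμ hsm a₀ ha₀ h hh1 (hconO h hh) hlimh hprop hne ?_
      intro c hc
      have h1 : scoord κ c g' ≠ 0 := fun h0 => hc (hsubO c h0 h hh)
      have h2 : gwt κ (p a₀) c ≠ 0 := fun h0 => hc (hconO h hh c h0.ge)
      exact (hgood' c h1 h2).resolve_left (hN c hc)
  have hg'1 : g' = 1 := hOone g' (subset_closure ⟨1, one_mem _, by simp⟩)
  have hgz : g = z := by
    rw [hg', inv_mul_eq_one] at hg'1
    exact hg'1.symm
  exact ⟨hgz, by rw [hgz]; exact hzν⟩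

end Pool.Agent.Work.MP_67388f_an
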