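import Pool.Agent.Work.MP_67388f_an.TS.Clear

set_option autoImplicit false

namespace Pool.Agent.Work.MP_67388f_an

open MeasureTheory Filter Topology Matrix

section place

variable {n : ℕ} {K : Type*} [NormedField K] {A : Type*} [Group A]

/-- the characters of one place -/
noncomputable def chi (d : A → Fin n → K) (hmul : ∀ a b i, d (a * b) i = d a i * d b i)
    (hne : ∀ a i, d a i ≠ 0) (c : Fin n × Fin n × Fin n × Fin n) : A →* Multiplicative ℝ :=
  MonoidHom.mk' (fun a => Multiplicative.ofAdd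
    (Real.log ‖d a c.1‖ + Real.log ‖d a c.2.2.2‖ - Real.log ‖d a c.2.1‖
      - Real.log ‖d a c.2.2.1‖)) (by
    intro a b
    rw [← ofAdd_add]
    congr 1
    have h : ∀ i, Real.log ‖d (a * b) i‖ = Real.log ‖d a i‖ + Real.log ‖d b i‖ := by
      intro i
      rw [hmul, norm_mul, Real.log_mul (norm_ne_zero_iff.2 (hne a i))
        (norm_ne_zero_iff.2 (hne b i))]
    rw [h, h, h, h]
    ring)

lemma reg_of_chi (d : A → Fin n → K) (hmul : ∀ a b i, d (a * b) i = d a i * d b i)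
    (hne : ∀ a i, d a i ≠ 0)
    (hclass : ∀ i k r s, (∀ a, ‖d a i * d a s‖ = ‖d a k * d a r‖) →
      ∀ a, d a i * d a s = d a k * d a r) (a₁ : A)
    (ha₁ : ∀ c, chi d hmul hne c a₁ = 1 → ∀ b, chi d hmul hne c b = 1) (b : A) (l : ℝ) :
    ∃ c : K, ∀ i k, Real.log ‖d a₁ i ^ 2‖ - Real.log ‖d a₁ k ^ 2‖ = l → d b i = c * d b k := by
  by_cases hex : ∃ q : Fin n × Fin n, Real.log ‖d a₁ q.1 ^ 2‖ - Real.log ‖d a₁ q.2 ^ 2‖ = l
  · obtain ⟨q, hq⟩ := hex
    refine ⟨d b q.1 / d b q.2, fun i k hik => ?_⟩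
    have h1 : chi d hmul hne (i, k, q.1, q.2) a₁ = 1 := by
      show Multiplicative.ofAdd _ = Multiplicative.ofAdd 0
      congr 1
      rw [norm_pow, norm_pow, Real.log_pow, Real.log_pow] at hik hq
      push_cast at hik hq
      simp only
      linarith
    have h2 := ha₁ _ h1
    have h3 := hclass i k q.1 q.2 (fun a => by
      have h4 : Multiplicative.ofAdd _ = Multiplicative.ofAdd (0 : ℝ) := h2 a
      have h5 := Multiplicative.ofAdd.injective h4
      simp only at h5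
      have hi := norm_pos_iff.2 (hne a i)
      have hk := norm_pos_iff.2 (hne a k)
      have hq1 := norm_pos_iff.2 (hne a q.1)
      have hq2 := norm_pos_iff.2 (hne a q.2)
      rw [norm_mul, norm_mul]
      apply Real.log_injOn_pos (Set.mem_Ioi.2 (by positivity)) (Set.mem_Ioi.2 (by positivity))
      rw [Real.log_mul hi.ne' hq2.ne', Real.log_mul hk.ne' hq1.ne']
      linarith) b
    have h6 := hne b q.2
    field_simp
    rw [h3]
    ring
  · exact ⟨0, fun i k hik => absurd ⟨(i, k), hik⟩ hex⟩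

lemma comm_entry {β' : Fin n → K} (b z : SpecialLinearGroup (Fin n) K) (hb : b.1 = diagonal β')
    (hz : ∀ i k, z.1 i k ≠ (1 : Matrix (Fin n) (Fin n) K) i k → β' i = β' k) :
    b * z * b⁻¹ = z := by
  rw [mul_inv_eq_iff_eq_mul]
  apply Subtype.ext
  show b.1 * z.1 = z.1 * b.1
  rw [hb]
  ext i k
  rw [diagonal_mul, mul_diagonal]
  by_cases h : z.1 i k = (1 : Matrix (Fin n) (Fin n) K) i k
  · rw [h]
    by_cases hik : i = k
    · subst hik; ring
    · rw [Matrix.one_apply_ne hik]; ring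
  · rw [hz i k h, mul_comm]

end place

variable {X : Type*} [TopologicalSpace X] [LocallyCompactSpace X] [T2Space X]
  [SecondCountableTopology X] [MeasurableSpace X] [BorelSpace X]
variable {G : Type*} [Group G] [TopologicalSpace G] [IsTopologicalGroup G] [MulAction G X]
  [ContinuousSMul G X]
variable {L : Type*} [Group L] [TopologicalSpace L] [IsTopologicalGroup L]
variable {ι : Type*} [Fintype ι] {n₀ : ℕ} {n : ι → ℕ} {q : ι → ℕ} [hqp : ∀ v, Fact (q v).Prime]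

omit [TopologicalSpace G] [IsTopologicalGroup G] in
/-- Existence of a regular element. -/
theorem exists_sdata (κ : L →* SLS n₀ n q) (j : L →* G) (p : G →* L)
    (hκ : IsClosedEmbedding κ)
    (hjp : ∀ (g : G) (u : L), g * j u * g⁻¹ = j (p g * u * (p g)⁻¹))
    (A : Subgroup G)
    (hdR : ∀ a ∈ A, ∀ i k, i ≠ k → (κ (p a)).1 i k = 0)
    (hdP : ∀ a ∈ A, ∀ v, ∀ i k, i ≠ k → (κ (p a)).2 v i k = 0)
    (hcR : ∀ i k r s, (∀ a ∈ A, ‖(κ (p a)).1 i i * (κ (p a)).1 s s‖ =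
        ‖(κ (p a)).1 k k * (κ (p a)).1 r r‖) →
      ∀ a ∈ A, (κ (p a)).1 i i * (κ (p a)).1 s s = (κ (p a)).1 k k * (κ (p a)).1 r r)
    (hcP : ∀ v, ∀ i k r s, (∀ a ∈ A, ‖(κ (p a)).2 v i i * (κ (p a)).2 v s s‖ =
        ‖(κ (p a)).2 v k k * (κ (p a)).2 v r r‖) →
      ∀ a ∈ A, (κ (p a)).2 v i i * (κ (p a)).2 v s s = (κ (p a)).2 v k k * (κ (p a)).2 v r r) :
    ∃ (a₀ : G) (α : Fin n₀ → ℝ) (β : (v : ι) → Fin (n v) → ℚ_[q v]), SData κ p A a₀ α β ∧
      ∀ z : L, (∀ c, swt α β c ≠ 0 → scoord κ c z = 0) → ∀ b ∈ A, b * j z = j z * b := by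
  classical
  -- diagonal entries
  have hMR : ∀ a ∈ A, (κ (p a)).1.1 = diagonal (fun i => (κ (p a)).1 i i) := by
    intro a ha
    ext i k
    by_cases h : i = k
    · subst h; rw [diagonal_apply_eq]
    · rw [diagonal_apply_ne _ h]; exact hdR a ha i k h
  have hMP : ∀ a ∈ A, ∀ v, ((κ (p a)).2 v).1 = diagonal (fun i => (κ (p a)).2 v i i) := by
    intro a ha v
    ext i k
    by_cases h : i = k
    · subst h; rw [diagonal_apply_eq]
    · rw [diagonal_apply_ne _ h]; exact hdP a ha v i k h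
  let dR : A → Fin n₀ → ℝ := fun a i => (κ (p a.1)).1 i i
  let dP : (v : ι) → A → Fin (n v) → ℚ_[q v] := fun v a i => (κ (p a.1)).2 v i i
  have hneR : ∀ a i, dR a i ≠ 0 := fun a i => sl_diag_ne (hMR a.1 a.2) i
  have hneP : ∀ v a i, dP v a i ≠ 0 := fun v a i => sl_diag_ne (hMP a.1 a.2 v) i
  have hmulR : ∀ a b i, dR (a * b) i = dR a i * dR b i := by
    intro a b i
    have h1 : (κ (p (a.1 * b.1))).1.1 = (κ (p a.1)).1.1 * (κ (p b.1)).1.1 := by
      rw [map_mul, map_mul]; rfl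
    have h2 := congrFun (congrFun h1 i) i
    rw [hMR a.1 a.2, hMR b.1 b.2, diagonal_mul_diagonal, diagonal_apply_eq] at h2
    exact h2
  have hmulP : ∀ v a b i, dP v (a * b) i = dP v a i * dP v b i := by
    intro v a b i
    have h1 : ((κ (p (a.1 * b.1))).2 v).1 = ((κ (p a.1)).2 v).1 * ((κ (p b.1)).2 v).1 := by
      rw [map_mul, map_mul]; rfl
    have h2 := congrFun (congrFun h1 i) i
    rw [hMP a.1 a.2, hMP b.1 b.2, diagonal_mul_diagonal, diagonal_apply_eq] at h2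
    exact h2
  -- a regular element
  let χ : ((Fin n₀ × Fin n₀ × Fin n₀ × Fin n₀) ⊕
      (Σ v : ι, Fin (n v) × Fin (n v) × Fin (n v) × Fin (n v))) → A →* Multiplicative ℝ
    | Sum.inl c => chi dR hmulR hneR c
    | Sum.inr c => chi (dP c.1) (hmulP c.1) (hneP c.1) c.2
  obtain ⟨a₁, ha₁⟩ := exists_regular χ
  have ha₁R : ∀ c, chi dR hmulR hneR c a₁ = 1 → ∀ b, chi dR hmulR hneR c b = 1 :=
    fun c => ha₁ (Sum.inl c)
  have ha₁P : ∀ v c, chi (dP v) (hmulP v) (hneP v) c a₁ = 1 →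
      ∀ b, chi (dP v) (hmulP v) (hneP v) c b = 1 := fun v c => ha₁ (Sum.inr ⟨v, c⟩)
  have hregR := fun b l => reg_of_chi dR hmulR hneR (fun i k r s h a =>
    hcR i k r s (fun a ha => h ⟨a, ha⟩) a.1 a.2) a₁ ha₁R b l
  have hregP := fun v b l => reg_of_chi (dP v) (hmulP v) (hneP v) (fun i k r s h a =>
    hcP v i k r s (fun a ha => h ⟨a, ha⟩) a.1 a.2) a₁ (ha₁P v) b l
  set a₀ : G := a₁.1 ^ 2 with ha₀
  have ha₀A : a₀ ∈ A := pow_mem a₁.2 2
  have D : SData κ p A a₀ (fun i => dR a₁ i ^ 2) (fun v i => dP v a₁ i ^ 2) :=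
    { mem := ha₀A
      pos := fun i => by
        have := hneR a₁ i
        positivity
      eqR := by
        rw [hMR a₀ ha₀A]
        congr 1
        funext i
        have h := hmulR a₁ a₁ i
        rw [← pow_two, ← pow_two] at h
        exact h
      eqP := by
        intro v
        rw [hMP a₀ ha₀A v]
        congr 1
        funext i
        have h := hmulP v a₁ a₁ i
        rw [← pow_two, ← pow_two] at h
        exact h
      regR := by
        intro b hb
        refine ⟨_, hMR b hb, fun l => ?_⟩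
        obtain ⟨c, hc⟩ := hregR ⟨b, hb⟩ l
        refine ⟨c, fun i k hik => hc i k ?_⟩
        rw [Real.norm_of_nonneg (sq_nonneg _), Real.norm_of_nonneg (sq_nonneg _)]
        exact hik
      regP := by
        intro b hb v
        refine ⟨_, hMP b hb v, fun l => ?_⟩
        exact hregP v ⟨b, hb⟩ l }
  have hcen : ∀ z : L, (∀ c, swt (fun i => dR a₁ i ^ 2) (fun v i => dP v a₁ i ^ 2) c ≠ 0 →
      scoord κ c z = 0) → ∀ b ∈ A, b * j z = j z * b := by
    intro z hz b hb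
    have h1 : p b * z * (p b)⁻¹ = z := by
      apply hκ.injective
      rw [map_mul, map_mul, map_inv]
      refine Prod.ext ?_ ?_
      · obtain ⟨β', hβ', hc⟩ := D.regR b hb
        obtain ⟨c, hc⟩ := hc 0
        refine comm_entry _ _ hβ' fun i k hne => ?_
        have h0 : wt (fun i => dR a₁ i ^ 2) i k = 0 := by
          by_contra hw
          have h2 : ‖(κ z).1.1 i k - (1 : Matrix (Fin n₀) (Fin n₀) ℝ) i k‖ = 0 :=
            hz (Sum.inl (i, k)) hw
          rw [norm_eq_zero, sub_eq_zero] at h2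
          exact hne h2
        rw [hc i k h0, ← hc k k (wt_self _ k)]
      · funext v
        obtain ⟨β', hβ', hc⟩ := D.regP b hb v
        obtain ⟨c, hc⟩ := hc 0
        refine comm_entry _ _ hβ' fun i k hne => ?_
        have h0 : Real.log ‖dP v a₁ i ^ 2‖ - Real.log ‖dP v a₁ k ^ 2‖ = 0 := by
          by_contra hw
          have h2 : ‖((κ z).2 v).1 i k - (1 : Matrix (Fin (n v)) (Fin (n v)) ℚ_[q v]) i k‖ = 0 :=
            hz (Sum.inr ⟨v, i, k⟩) hw
          rw [norm_eq_zero, sub_eq_zero] at h2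
          exact hne h2
        rw [hc i k h0, ← hc k k (sub_self _)]
    have h2 := hjp b z
    rw [h1] at h2
    exact mul_inv_eq_iff_eq_mul.1 h2
  exact ⟨a₀, _, _, D, hcen⟩

/-- Total variation rigidity over all places. -/
theorem tv_rigid_S (hq : Function.Injective q) (κ : L →* SLS n₀ n q) (j : L →* G) (p : G →* L)
    (hκ : IsClosedEmbedding κ) (hj : Continuous j)
    (hjp : ∀ (g : G) (u : L), g * j u * g⁻¹ = j (p g * u * (p g)⁻¹))
    (A : Subgroup G) (μ : Measure X) [IsProbabilityMeasure μ]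
    (hμ : ∀ a ∈ A, μ.map (fun z => a • z) = μ)
    (herg : ∀ s : Set X, MeasurableSet s → (∀ a ∈ A, (fun z => a • z) ⁻¹' s =ᵐ[μ] s) →
      μ s = 0 ∨ μ sᶜ = 0)
    (hdR : ∀ a ∈ A, ∀ i k, i ≠ k → (κ (p a)).1 i k = 0)
    (hdP : ∀ a ∈ A, ∀ v, ∀ i k, i ≠ k → (κ (p a)).2 v i k = 0)
    (hcR : ∀ i k r s, (∀ a ∈ A, ‖(κ (p a)).1 i i * (κ (p a)).1 s s‖ =
        ‖(κ (p a)).1 k k * (κ (p a)).1 r r‖) →
      ∀ a ∈ A, (κ (p a)).1 i i * (κ (p a)).1 s s = (κ (p a)).1 k k * (κ (p a)).1 r r)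
    (hcP : ∀ v, ∀ i k r s, (∀ a ∈ A, ‖(κ (p a)).2 v i i * (κ (p a)).2 v s s‖ =
        ‖(κ (p a)).2 v k k * (κ (p a)).2 v r r‖) →
      ∀ a ∈ A, (κ (p a)).2 v i i * (κ (p a)).2 v s s = (κ (p a)).2 v k k * (κ (p a)).2 v r r)
    (ν : Measure X) [IsFiniteMeasure ν] (hns : ¬ μ ⟂ₘ ν) (g : ℕ → L)
    (hg : Tendsto g atTop (𝓝 1)) (hTV : TVto atTop (fun k => j (g k)) ν) :
    ∀ᶠ k in atTop, μ.map (fun z => j (g k) • z) = μ := by
  obtain ⟨a₀, α, β, D, hcen⟩ := exists_sdata κ j p hκ hjp A hdR hdP hcR hcP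
  exact tv_rigid_gauge j p hj hjp A μ hμ herg a₀ D.mem (D.gauge hκ)
    (fun φ h0 hSD => gD_le hq hκ j p hj hjp μ hμ herg D φ h0 hSD)
    (fun φ h0 hSD => gD_le hq hκ j p hj hjp μ hμ herg D.inv φ h0 hSD)
    hcen ν hns g hg hTV

end Pool.Agent.Work.MP_67388f_an
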