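import Pool.Agent.Work.MP_67388f_an.TS.Gauge

set_option autoImplicit false

namespace Pool.Agent.Work.MP_67388f_an

open Filter Topology Set

variable {L : Type*} [Group L] [TopologicalSpace L]
variable {C : Type*} [Fintype C]

/-- weights of powers -/
lemma wt_zpow {A : Type*} [Group A] (W : A → ℝ) (hmul : ∀ a b, W (a * b) = W a + W b) (a : A)
    (m : ℤ) : W (a ^ m) = m * W a := by
  let χ : A →* Multiplicative ℝ := MonoidHom.mk' (fun a => Multiplicative.ofAdd (W a)) (by
    intro a b
    rw [hmul]
    rfl)
  have h := map_zpow χ a m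
  have h2 : Multiplicative.toAdd (χ (a ^ m)) = m • Multiplicative.toAdd (χ a) := by
    rw [h]; rfl
  have h3 : W (a ^ m) = m • W a := h2
  rw [h3, zsmul_eq_mul]

/-- Let `O` be a closed set, invariant under conjugation by `A` and contracted by `a₀`, containing
no element `h ≠ 1` all of whose weights are proportional. Then `O ⊆ {1}`. -/
theorem trivial_of_prop {A : Type*} [Group A] (p : A →* L) (s : C → L → ℝ) (w : A → C → ℝ)
    (hnn : ∀ c h, 0 ≤ s c h) (hcont : ∀ c, Continuous (s c))
    (hone : ∀ h, (∀ c, s c h = 0) ↔ h = 1) (hcpt : ∀ R : ℝ, IsCompact {h | ∀ c, s c h ≤ R})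
    (hconj : ∀ (a : A) c h, s c (p a * h * (p a)⁻¹) = Real.exp (w a c) * s c h)
    (hmul : ∀ a b c, w (a * b) c = w a c + w b c) (a₀ : A) (O : Set L) (hO : IsClosed O)
    (hOA : ∀ h ∈ O, ∀ a : A, p a * h * (p a)⁻¹ ∈ O)
    (hcon : ∀ h ∈ O, ∀ c, 0 ≤ w a₀ c → s c h = 0)
    (hprop : ∀ h ∈ O, h ≠ 1 → ∃ b : A, ∃ c c', s c h ≠ 0 ∧ s c' h ≠ 0 ∧
      w b c * w a₀ c' ≠ w b c' * w a₀ c) : ∀ h ∈ O, h = 1 := by
  classical
  have key : ∀ N : ℕ, ∀ h ∈ O, (Finset.univ.filter fun c => s c h ≠ 0).card ≤ N → h = 1 := by
    intro N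
    induction N with
    | zero =>
      intro h _ hcard
      rw [← hone]
      intro c
      by_contra hne
      have h1 : c ∈ Finset.univ.filter fun c => s c h ≠ 0 :=
        Finset.mem_filter.2 ⟨Finset.mem_univ _, hne⟩
      have h2 := Finset.card_pos.2 ⟨c, h1⟩
      omega
    | succ N ih =>
      intro h hh hcard
      by_contra hne1
      obtain ⟨b, c₁, c₂, hc₁, hc₂, hne⟩ := hprop h hh hne1
      have hneg : ∀ c, s c h ≠ 0 → w a₀ c < 0 := by
        intro c hc
        by_contra hcon'
        exact hc (hcon h hh c (not_lt.1 hcon'))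
      set S : Finset C := Finset.univ.filter fun c => s c h ≠ 0 with hS
      have hSmem : ∀ c, c ∈ S ↔ s c h ≠ 0 := fun c => by
        rw [hS, Finset.mem_filter]
        exact ⟨fun h => h.2, fun h => ⟨Finset.mem_univ _, h⟩⟩
      set r : C → ℝ := fun c => - w b c / w a₀ c with hr
      obtain ⟨cm, hcm, hmax⟩ := Finset.exists_max_image S r ⟨c₁, (hSmem _).2 hc₁⟩
      have hcm' := (hSmem _).1 hcm
      have hwb : ∀ c, s c h ≠ 0 → w b c = - r c * w a₀ c := by
        intro c hc
        have := (hneg c hc).ne
        rw [hr]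
        field_simp
      have hrne : r c₁ ≠ r c₂ := by
        intro heq
        apply hne
        rw [hwb c₁ hc₁, hwb c₂ hc₂, heq]
        ring
      set m : ℕ → ℤ := fun n => ⌈(n : ℝ) * r cm⌉ with hm
      set a : ℕ → A := fun n => a₀ ^ (m n) * b ^ (n : ℤ) with ha
      have hw : ∀ n c, s c h ≠ 0 → w (a n) c = w a₀ c * ((m n : ℝ) - n * r c) := by
        intro n c hc
        rw [ha]
        simp only
        rw [hmul, wt_zpow (fun a => w a c) (fun a b => hmul a b c) a₀,
          wt_zpow (fun a => w a c) (fun a b => hmul a b c) b]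
        rw [hwb c hc]
        push_cast
        ring
      have hm0 : ∀ n c, s c h ≠ 0 → 0 ≤ (m n : ℝ) - n * r c := by
        intro n c hc
        have h1 : (n : ℝ) * r cm ≤ m n := Int.le_ceil _
        have h2 := hmax c ((hSmem _).2 hc)
        have h3 : (n : ℝ) * r c ≤ n * r cm := mul_le_mul_of_nonneg_left h2 (Nat.cast_nonneg n)
        linarith
      set f : ℕ → L := fun n => p (a n) * h * (p (a n))⁻¹ with hf
      have hfO : ∀ n, f n ∈ O := fun n => hOA h hh (a n)
      have hfs : ∀ n c, s c (f n) = Real.exp (w (a n) c) * s c h := fun n c => hconj (a n) c h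
      have hfle : ∀ n c, s c (f n) ≤ s c h := by
        intro n c
        rw [hfs]
        by_cases hc : s c h = 0
        · rw [hc, mul_zero]
        · have h1 : w (a n) c ≤ 0 := by
            rw [hw n c hc]
            exact mul_nonpos_of_nonpos_of_nonneg (hneg c hc).le (hm0 n c hc)
          exact mul_le_of_le_one_left (hnn c h) (Real.exp_le_one_iff.2 h1)
      set R : ℝ := ∑ c, s c h with hR
      have hfR : ∀ n, f n ∈ {h | ∀ c, s c h ≤ R} := by
        intro n c
        refine (hfle n c).trans ?_
        exact Finset.single_le_sum (f := fun c => s c h) (fun c _ => hnn c h) (Finset.mem_univ c)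
      obtain ⟨h', hh'R, hh'⟩ := (hcpt R).ultrafilter_le_nhds' ((hyperfilter ℕ).map f)
        (Filter.Eventually.of_forall (f := (hyperfilter ℕ : Filter ℕ)) hfR)
      have hlim : Tendsto f (hyperfilter ℕ) (𝓝 h') := hh'
      have hh'O : h' ∈ O := hO.mem_of_tendsto hlim (Eventually.of_forall hfO)
      have hslim : ∀ c, Tendsto (fun n => s c (f n)) (hyperfilter ℕ) (𝓝 (s c h')) := fun c =>
        ((hcont c).tendsto h').comp hlim
      have hat : (hyperfilter ℕ : Filter ℕ) ≤ atTop := by
        rw [← Nat.cofinite_eq_atTop]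
        exact hyperfilter_le_cofinite
      -- the coordinates which survive
      have hsub : ∀ c, s c h = 0 → s c h' = 0 := by
        intro c hc
        refine tendsto_nhds_unique (hslim c) ?_
        have : (fun n => s c (f n)) = fun _ => 0 := by
          funext n
          rw [hfs, hc, mul_zero]
        rw [this]
        exact tendsto_const_nhds
      have hlt : ∀ c, s c h ≠ 0 → r c < r cm → s c h' = 0 := by
        intro c hc hlt
        refine tendsto_nhds_unique (hslim c) ?_
        have h1 : Tendsto (fun n : ℕ => w a₀ c * ((n : ℝ) * (r cm - r c))) atTop atBot := by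
          have h2 : Tendsto (fun n : ℕ => (n : ℝ) * (r cm - r c)) atTop atTop :=
            tendsto_natCast_atTop_atTop.atTop_mul_const (by linarith)
          exact h2.const_mul_atTop_of_neg (hneg c hc)
        have h3 : Tendsto (fun n : ℕ => Real.exp (w a₀ c * ((n : ℝ) * (r cm - r c))) * s c h) atTop
            (𝓝 0) := by
          have := (Real.tendsto_exp_atBot.comp h1).mul_const (s c h)
          rwa [zero_mul] at this
        refine squeeze_zero (fun n => hnn c _) (fun n => ?_) (h3.mono_left hat)
        rw [hfs]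
        refine mul_le_mul_of_nonneg_right (Real.exp_le_exp.2 ?_) (hnn c h)
        rw [hw n c hc]
        refine mul_le_mul_of_nonpos_left ?_ (hneg c hc).le
        have h4 : (n : ℝ) * r cm ≤ m n := Int.le_ceil _
        linarith
      have hcm2 : s cm h' ≠ 0 := by
        have h1 : ∀ n, Real.exp (w a₀ cm) * s cm h ≤ s cm (f n) := by
          intro n
          rw [hfs]
          refine mul_le_mul_of_nonneg_right (Real.exp_le_exp.2 ?_) (hnn cm h)
          rw [hw n cm hcm']
          have h4 : (m n : ℝ) < n * r cm + 1 := Int.ceil_lt_add_one _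
          have h5 := hneg cm hcm'
          nlinarith
        have h2 := ge_of_tendsto (hslim cm) (Eventually.of_forall h1)
        have h3 : 0 < Real.exp (w a₀ cm) * s cm h :=
          mul_pos (Real.exp_pos _) (lt_of_le_of_ne (hnn cm h) (Ne.symm hcm'))
        exact (lt_of_lt_of_le h3 h2).ne'
      have hcard' : (Finset.univ.filter fun c => s c h' ≠ 0).card < S.card := by
        refine Finset.card_lt_card ?_
        rw [Finset.ssubset_iff_of_subset]
        · -- one of c₁, c₂ disappears
          rcases lt_or_gt_of_ne hrne with h1 | h1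
          · refine ⟨c₁, (hSmem _).2 hc₁, fun h2 => ?_⟩
            exact (Finset.mem_filter.1 h2).2
              (hlt c₁ hc₁ (lt_of_lt_of_le h1 (hmax c₂ ((hSmem _).2 hc₂))))
          · refine ⟨c₂, (hSmem _).2 hc₂, fun h2 => ?_⟩
            exact (Finset.mem_filter.1 h2).2
              (hlt c₂ hc₂ (lt_of_lt_of_le h1 (hmax c₁ ((hSmem _).2 hc₁))))
        · intro c hc
          rw [hSmem]
          intro h0
          exact (Finset.mem_filter.1 hc).2 (hsub c h0)
      have h1 := ih h' hh'O (by omega)
      exact hcm2 ((hone h').2 h1 cm)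
  intro h hh
  exact key _ h hh le_rfl

end Pool.Agent.Work.MP_67388f_an
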