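import Pool.Agent.Work.MP_67388f_an.TS.Ov
import Pool.Agent.Work.MP_67388f_an.TS.Supp

set_option autoImplicit false

namespace Pool.Agent.Work.MP_67388f_an

open MeasureTheory Filter Topology Matrix

section field

variable {n : ℕ} {K : Type*} [NormedField K]

lemma sl_diag {D : SpecialLinearGroup (Fin n) K} (hD : ∀ i j, i ≠ j → D i j = 0) :
    D.1 = diagonal (fun i => D i i) := by
  ext i j
  by_cases h : i = j
  · subst h; rw [diagonal_apply_eq]
  · rw [diagonal_apply_ne _ h]; exact hD i j h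

lemma sl_dne {D : SpecialLinearGroup (Fin n) K} (hD : ∀ i j, i ≠ j → D i j = 0) (i : Fin n) :
    D i i ≠ 0 := sl_diag_ne (sl_diag hD) i

lemma sl_inv_diag {D : SpecialLinearGroup (Fin n) K} (hD : ∀ i j, i ≠ j → D i j = 0) :
    (D⁻¹).1 = diagonal (fun i => (D i i)⁻¹) := by
  have h1 : (D⁻¹).1 * D.1 = 1 := congrArg Subtype.val (inv_mul_cancel D)
  have h2 : D.1 * diagonal (fun i => (D i i)⁻¹) = 1 := by
    refine (congrArg (fun M => M * diagonal (fun i => (D i i)⁻¹)) (sl_diag hD)).trans ?_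
    rw [diagonal_mul_diagonal, ← diagonal_one]
    congr 1
    funext i
    exact mul_inv_cancel₀ (sl_dne hD i)
  calc (D⁻¹).1 = (D⁻¹).1 * (D.1 * diagonal (fun i => (D i i)⁻¹)) := by rw [h2, mul_one]
    _ = diagonal (fun i => (D i i)⁻¹) := by rw [← mul_assoc, h1, one_mul]

lemma sl_conj_e {D : SpecialLinearGroup (Fin n) K} (hD : ∀ i j, i ≠ j → D i j = 0)
    (h : SpecialLinearGroup (Fin n) K) (i j : Fin n) :
    (D * h * D⁻¹) i j = D i i * (D j j)⁻¹ * h i j := by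
  have h1 := sl_conj_entry (sl_diag hD) h 1 i j
  rw [pow_one, pow_one, pow_one] at h1
  exact h1

lemma sl_conj_e' {D : SpecialLinearGroup (Fin n) K} (hD : ∀ i j, i ≠ j → D i j = 0)
    (h : SpecialLinearGroup (Fin n) K) (i j : Fin n) :
    (D⁻¹ * h * D) i j = (D i i)⁻¹ * D j j * h i j := by
  have h1 := sl_conj_entry (sl_inv_diag hD) h 1 i j
  rw [pow_one, pow_one, pow_one, inv_inv, inv_inv] at h1
  exact h1

lemma ratio_lim (l : Filter ℕ) (x : ℕ → K) (y y' : K) (hy : Tendsto (fun k => x k * y) l (𝓝 y'))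
    [NeBot l] (hn : Tendsto (fun k => ‖x k‖) l (𝓝 1)) (hy0 : y ≠ 0) :
    Tendsto (fun kk : ℕ × ℕ => x kk.2 * (x kk.1)⁻¹ * y) (l ×ˢ l) (𝓝 y) := by
  have h0 : ‖y'‖ = ‖y‖ := by
    refine tendsto_nhds_unique hy.norm ?_
    have := hn.mul_const ‖y‖
    rw [one_mul] at this
    refine this.congr fun k => ?_
    rw [norm_mul]
  have hy'0 : y' ≠ 0 := by
    rw [← norm_ne_zero_iff, h0]
    exact norm_ne_zero_iff.2 hy0
  have h1 : Tendsto (fun kk : ℕ × ℕ => x kk.2 * y) (l ×ˢ l) (𝓝 y') := hy.comp tendsto_snd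
  have h2 : Tendsto (fun kk : ℕ × ℕ => x kk.1 * y) (l ×ˢ l) (𝓝 y') := hy.comp tendsto_fst
  have h3 := (h1.mul (h2.inv₀ hy'0)).mul_const y
  rw [mul_inv_cancel₀ hy'0, one_mul] at h3
  refine h3.congr fun kk => ?_
  rw [mul_inv]
  field_simp

lemma sl_pair (l : Filter ℕ) [NeBot l] (D : ℕ → SpecialLinearGroup (Fin n) K)
    (hD : ∀ k i j, i ≠ j → D k i j = 0) (h h' : SpecialLinearGroup (Fin n) K)
    (hlim : Tendsto (fun k => D k * h * (D k)⁻¹) l (𝓝 h'))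
    (hw : ∀ i j, ‖h.1 i j - (1 : Matrix (Fin n) (Fin n) K) i j‖ ≠ 0 →
      Tendsto (fun k => Real.log ‖D k i i‖ - Real.log ‖D k j j‖) l (𝓝 0)) :
    Tendsto (fun kk : ℕ × ℕ => D kk.2 * ((D kk.1)⁻¹ * h * D kk.1) * (D kk.2)⁻¹) (l ×ˢ l)
      (𝓝 h) := by
  refine sl_tendsto _ _ _ fun i j => ?_
  have he : ∀ kk : ℕ × ℕ, (D kk.2 * ((D kk.1)⁻¹ * h * D kk.1) * (D kk.2)⁻¹).1 i j =
      (D kk.2 i i * (D kk.2 j j)⁻¹) * (D kk.1 i i * (D kk.1 j j)⁻¹)⁻¹ * h i j := by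
    intro kk
    have h1 := sl_conj_e (hD kk.2) ((D kk.1)⁻¹ * h * D kk.1) i j
    rw [sl_conj_e' (hD kk.1)] at h1
    refine h1.trans ?_
    rw [mul_inv, inv_inv]
    ring
  simp_rw [he]
  have hne := fun k i => sl_dne (hD k) i
  by_cases hij : i = j
  · subst hij
    refine tendsto_const_nhds.congr fun kk => ?_
    rw [mul_inv_cancel₀ (hne _ i), mul_inv_cancel₀ (hne _ i), inv_one, one_mul, one_mul]
  by_cases h0 : h i j = 0
  · rw [show h.1 i j = 0 from h0]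
    simp only [mul_zero]
    exact tendsto_const_nhds
  have h1 : Tendsto (fun k => (D k i i * (D k j j)⁻¹) * h i j) l (𝓝 (h' i j)) := by
    have h2 : Tendsto (fun k => (D k * h * (D k)⁻¹) i j) l (𝓝 (h' i j)) :=
      ((sl_cont_entry i j).tendsto h').comp hlim
    refine h2.congr fun k => ?_
    exact sl_conj_e (hD k) h i j
  refine ratio_lim l (fun k => D k i i * (D k j j)⁻¹) (h i j) (h' i j) h1 ?_ h0
  have h2 := hw i j (by
    rw [Matrix.one_apply_ne hij, sub_zero]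
    exact norm_ne_zero_iff.2 h0)
  have h3 := (Real.continuous_exp.tendsto 0).comp h2
  rw [Real.exp_zero] at h3
  refine h3.congr fun k => ?_
  rw [Function.comp_apply, Real.exp_sub, Real.exp_log (norm_pos_iff.2 (hne k i)),
    Real.exp_log (norm_pos_iff.2 (hne k j)), norm_mul, norm_inv, div_eq_mul_inv]

end field

/-- The ratios of two diagonal entries of `ρ` are `1` on `A`, or take values different from `1` and
arbitrarily close to `1` on `A`. -/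
def NonDiscreteRatios {G : Type*} [Group G] {n : ℕ} {K : Type*} [NormedField K] (A : Subgroup G)
    (ρ : G → SpecialLinearGroup (Fin n) K) : Prop :=
  ∀ i k, (∀ a ∈ A, ρ a i i = ρ a k k) ∨
    ∀ ε : ℝ, 0 < ε → ∃ a ∈ A, ρ a i i ≠ ρ a k k ∧ ‖ρ a i i * (ρ a k k)⁻¹ - 1‖ < ε

variable {ι : Type*} [Fintype ι] {n₀ : ℕ} {n : ι → ℕ} {q : ι → ℕ} [hqp : ∀ v, Fact (q v).Prime]
variable {L : Type*} [Group L] [TopologicalSpace L] [IsTopologicalGroup L]

/-- `x` is diagonal at every place. -/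
def IsDiagS (κ : L →* SLS n₀ n q) (x : L) : Prop :=
  (∀ i k, i ≠ k → (κ x).1 i k = 0) ∧ ∀ v, ∀ i k, i ≠ k → (κ x).2 v i k = 0

/-- the weights of a diagonal element -/
noncomputable def gwt (κ : L →* SLS n₀ n q) (x : L) :
    ((Fin n₀ × Fin n₀) ⊕ (Σ v : ι, Fin (n v) × Fin (n v))) → ℝ
  | Sum.inl c => Real.log ‖(κ x).1 c.1 c.1‖ - Real.log ‖(κ x).1 c.2 c.2‖
  | Sum.inr c => Real.log ‖(κ x).2 c.1 c.2.1 c.2.1‖ - Real.log ‖(κ x).2 c.1 c.2.2 c.2.2‖

omit [Fintype ι] [TopologicalSpace L] [IsTopologicalGroup L] in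
lemma scoord_conj (κ : L →* SLS n₀ n q) (x : L) (hx : IsDiagS κ x)
    (c : (Fin n₀ × Fin n₀) ⊕ (Σ v : ι, Fin (n v) × Fin (n v))) (h : L) :
    scoord κ c (x * h * x⁻¹) = Real.exp (gwt κ x c) * scoord κ c h := by
  rcases c with c | c
  · show ‖(κ (x * h * x⁻¹)).1.1 c.1 c.2 - _‖ = _
    rw [map_mul, map_mul, map_inv]
    exact sl_conj_norm (sl_diag hx.1) (κ h).1 c.1 c.2
  · show ‖((κ (x * h * x⁻¹)).2 c.1).1 c.2.1 c.2.2 - _‖ = _
    rw [map_mul, map_mul, map_inv]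
    exact sl_conj_norm (sl_diag (hx.2 c.1)) ((κ h).2 c.1) c.2.1 c.2.2

omit [Fintype ι] [TopologicalSpace L] [IsTopologicalGroup L] in
lemma gwt_mul (κ : L →* SLS n₀ n q) (x y : L) (hx : IsDiagS κ x) (hy : IsDiagS κ y)
    (c : (Fin n₀ × Fin n₀) ⊕ (Σ v : ι, Fin (n v) × Fin (n v))) :
    gwt κ (x * y) c = gwt κ x c + gwt κ y c := by
  have hm : ∀ {m : ℕ} {K : Type} [NormedField K] (D E : SpecialLinearGroup (Fin m) K)
      (hD : ∀ i j, i ≠ j → D i j = 0) (hE : ∀ i j, i ≠ j → E i j = 0) (i : Fin m),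
      Real.log ‖(D * E) i i‖ = Real.log ‖D i i‖ + Real.log ‖E i i‖ := by
    intro m K _ D E hD hE i
    have h1 : (D * E).1 = D.1 * E.1 := rfl
    have h2 : (D * E).1 i i = D i i * E i i := by
      rw [h1]
      conv_lhs => rw [sl_diag hD, sl_diag hE]
      rw [diagonal_mul_diagonal, diagonal_apply_eq]
    have h3 : (D * E) i i = D i i * E i i := h2
    rw [h3, norm_mul, Real.log_mul (norm_ne_zero_iff.2 (sl_dne hD i))
      (norm_ne_zero_iff.2 (sl_dne hE i))]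
  rcases c with c | c
  · show Real.log ‖(κ (x * y)).1 c.1 c.1‖ - Real.log ‖(κ (x * y)).1 c.2 c.2‖ =
      (Real.log ‖(κ x).1 c.1 c.1‖ - Real.log ‖(κ x).1 c.2 c.2‖) +
      (Real.log ‖(κ y).1 c.1 c.1‖ - Real.log ‖(κ y).1 c.2 c.2‖)
    rw [map_mul, Prod.fst_mul, hm _ _ hx.1 hy.1, hm _ _ hx.1 hy.1]
    ring
  · show Real.log ‖(κ (x * y)).2 c.1 c.2.1 c.2.1‖ - Real.log ‖(κ (x * y)).2 c.1 c.2.2 c.2.2‖ =
      (Real.log ‖(κ x).2 c.1 c.2.1 c.2.1‖ - Real.log ‖(κ x).2 c.1 c.2.2 c.2.2‖) +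
      (Real.log ‖(κ y).2 c.1 c.2.1 c.2.1‖ - Real.log ‖(κ y).2 c.1 c.2.2 c.2.2‖)
    rw [map_mul, Prod.snd_mul, Pi.mul_apply, hm _ _ (hx.2 _) (hy.2 _), hm _ _ (hx.2 _) (hy.2 _)]
    ring

omit [Fintype ι] in
/-- conjugates of `h` by quotients of a convergent sequence of conjugations return to `h` -/
theorem pair_tendsto {κ : L →* SLS n₀ n q} (hκ : IsClosedEmbedding κ) (l : Filter ℕ) [NeBot l]
    (x : ℕ → L) (hx : ∀ k, IsDiagS κ (x k)) (h h' : L)
    (hlim : Tendsto (fun k => x k * h * (x k)⁻¹) l (𝓝 h'))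
    (hw : ∀ c, scoord κ c h ≠ 0 → Tendsto (fun k => gwt κ (x k) c) l (𝓝 0)) :
    Tendsto (fun kk : ℕ × ℕ => x kk.2 * ((x kk.1)⁻¹ * h * x kk.1) * (x kk.2)⁻¹) (l ×ˢ l)
      (𝓝 h) := by
  have h1 : Tendsto (fun k => κ (x k) * κ h * (κ (x k))⁻¹) l (𝓝 (κ h')) := by
    have := (hκ.continuous.tendsto h').comp hlim
    refine this.congr fun k => ?_
    rw [Function.comp_apply, map_mul, map_mul, map_inv]
  rw [hκ.isEmbedding.tendsto_nhds_iff]
  have h2 : κ ∘ (fun kk : ℕ × ℕ => x kk.2 * ((x kk.1)⁻¹ * h * x kk.1) * (x kk.2)⁻¹) =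
      fun kk : ℕ × ℕ => κ (x kk.2) * ((κ (x kk.1))⁻¹ * κ h * κ (x kk.1)) * (κ (x kk.2))⁻¹ := by
    funext kk
    simp only [Function.comp_apply, map_mul, map_inv]
  rw [h2]
  refine Tendsto.congr (f₁ := fun kk : ℕ × ℕ =>
    ((κ (x kk.2)).1 * ((κ (x kk.1)).1⁻¹ * (κ h).1 * (κ (x kk.1)).1) * (κ (x kk.2)).1⁻¹,
      fun v => (κ (x kk.2)).2 v * (((κ (x kk.1)).2 v)⁻¹ * (κ h).2 v * (κ (x kk.1)).2 v) *
        ((κ (x kk.2)).2 v)⁻¹)) (fun kk => rfl) ?_
  rw [show κ h = ((κ h).1, (κ h).2) from rfl, nhds_prod_eq]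
  refine Tendsto.prodMk ?_ (tendsto_pi_nhds.2 fun v => ?_)
  · refine sl_pair l (fun k => (κ (x k)).1) (fun k => (hx k).1) (κ h).1 (κ h').1 ?_ ?_
    · exact (continuous_fst.tendsto (κ h')).comp h1
    · intro i j hij
      exact hw (Sum.inl (i, j)) hij
  · refine sl_pair l (fun k => (κ (x k)).2 v) (fun k => (hx k).2 v) ((κ h).2 v) ((κ h').2 v) ?_ ?_
    · exact (((continuous_apply v).comp continuous_snd).tendsto (κ h')).comp h1
    · intro i j hij
      exact hw (Sum.inr ⟨v, i, j⟩) hij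

lemma scoord_cpt {κ : L →* SLS n₀ n q} (hκ : IsClosedEmbedding κ) (R : ℝ) :
    IsCompact {h : L | ∀ c, scoord κ c h ≤ R} := by
  have h1 := (sl_box_compact (n := n₀) (K := ℝ) R).prod (isCompact_univ_pi fun v : ι =>
    sl_box_compact (n := n v) (K := ℚ_[q v]) R)
  have h2 := hκ.isCompact_preimage h1
  convert h2 using 1
  ext h
  constructor
  · intro H
    refine ⟨fun i j => H (Sum.inl (i, j)), fun v _ i j => H (Sum.inr ⟨v, i, j⟩)⟩
  · rintro ⟨H1, H2⟩ (c | c)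
    · exact H1 c.1 c.2
    · exact H2 c.1 (Set.mem_univ _) c.2.1 c.2.2

lemma scoord_nonneg (κ : L →* SLS n₀ n q)
    (c : (Fin n₀ × Fin n₀) ⊕ (Σ v : ι, Fin (n v) × Fin (n v))) (h : L) : 0 ≤ scoord κ c h := by
  rcases c with c | c
  · exact norm_nonneg _
  · exact norm_nonneg _

lemma scoord_cont {κ : L →* SLS n₀ n q} (hκ : IsClosedEmbedding κ)
    (c : (Fin n₀ × Fin n₀) ⊕ (Σ v : ι, Fin (n v) × Fin (n v))) : Continuous (scoord κ c) := by
  rcases c with c | c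
  · have h1 : Continuous (fun h : L => (κ h).1.1 c.1 c.2) :=
      (sl_cont_entry c.1 c.2).comp (continuous_fst.comp hκ.continuous)
    exact (h1.sub continuous_const).norm
  · have h1 : Continuous (fun h : L => ((κ h).2 c.1).1 c.2.1 c.2.2) :=
      (sl_cont_entry c.2.1 c.2.2).comp
        ((continuous_apply c.1).comp (continuous_snd.comp hκ.continuous))
    exact (h1.sub continuous_const).norm

lemma scoord_one {κ : L →* SLS n₀ n q} (hκ : IsClosedEmbedding κ) (h : L) :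
    (∀ c, scoord κ c h = 0) ↔ h = 1 := by
  constructor
  · intro H
    apply hκ.injective
    rw [map_one]
    refine Prod.ext ?_ ?_
    · apply Subtype.ext
      ext i j
      have h1 : ‖(κ h).1.1 i j - (1 : Matrix (Fin n₀) (Fin n₀) ℝ) i j‖ = 0 := H (Sum.inl (i, j))
      rw [norm_eq_zero, sub_eq_zero] at h1
      exact h1
    · funext v
      apply Subtype.ext
      ext i j
      have h1 : ‖((κ h).2 v).1 i j - (1 : Matrix (Fin (n v)) (Fin (n v)) ℚ_[q v]) i j‖ = 0 :=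
        H (Sum.inr ⟨v, i, j⟩)
      rw [norm_eq_zero, sub_eq_zero] at h1
      exact h1
  · rintro rfl
    rintro (c | c)
    · show ‖(κ 1).1.1 c.1 c.2 - (1 : Matrix (Fin n₀) (Fin n₀) ℝ) c.1 c.2‖ = 0
      rw [map_one]
      show ‖(1 : Matrix (Fin n₀) (Fin n₀) ℝ) c.1 c.2 - _‖ = 0
      rw [sub_self, norm_zero]
    · show ‖((κ 1).2 c.1).1 c.2.1 c.2.2 -
        (1 : Matrix (Fin (n c.1)) (Fin (n c.1)) ℚ_[q c.1]) c.2.1 c.2.2‖ = 0
      rw [map_one]
      show ‖(1 : Matrix (Fin (n c.1)) (Fin (n c.1)) ℚ_[q c.1]) c.2.1 c.2.2 - _‖ = 0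
      rw [sub_self, norm_zero]

/-- If one weight of `x k` tends to zero then `(x k)⁻¹ h (x k)` is frequently constant. -/
theorem pair_fix {κ : L →* SLS n₀ n q} (hκ : IsClosedEmbedding κ) (x₀ : L) (x : ℕ → L)
    (hx : ∀ k, IsDiagS κ (x k)) (h : L)
    (hcon : ∀ c, 0 ≤ gwt κ x₀ c → scoord κ c h = 0)
    (hprop : ∀ k c c', scoord κ c h ≠ 0 → scoord κ c' h ≠ 0 →
      gwt κ (x k) c * gwt κ x₀ c' = gwt κ (x k) c' * gwt κ x₀ c)
    (hiso : ∀ᶠ y in 𝓝 h, ∀ k k' : ℕ, x k' * ((x k)⁻¹ * h * x k) * (x k')⁻¹ = y → y = h)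
    (c₀ : (Fin n₀ × Fin n₀) ⊕ (Σ v : ι, Fin (n v) × Fin (n v))) (hc₀ : scoord κ c₀ h ≠ 0)
    (hw : Tendsto (fun k => gwt κ (x k) c₀) atTop (𝓝 0)) :
    ∃ k, ∀ᶠ k' in (hyperfilter ℕ : Filter ℕ), (x k)⁻¹ * h * x k = (x k')⁻¹ * h * x k' := by
  have hneg : ∀ c, scoord κ c h ≠ 0 → gwt κ x₀ c < 0 := by
    intro c hc
    by_contra hcon'
    exact hc (hcon c (not_lt.1 hcon'))
  have hwall : ∀ c, scoord κ c h ≠ 0 → Tendsto (fun k => gwt κ (x k) c) atTop (𝓝 0) := by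
    intro c hc
    have h1 := hw.mul_const (gwt κ x₀ c / gwt κ x₀ c₀)
    rw [zero_mul] at h1
    refine h1.congr fun k => ?_
    have h2 := hprop k c₀ c hc₀ hc
    have h3 := (hneg c₀ hc₀).ne
    field_simp
    linarith
  have hat : (hyperfilter ℕ : Filter ℕ) ≤ atTop := by
    rw [← Nat.cofinite_eq_atTop]
    exact hyperfilter_le_cofinite
  set f : ℕ → L := fun k => x k * h * (x k)⁻¹ with hf
  have hfs : ∀ k c, scoord κ c (f k) = Real.exp (gwt κ (x k) c) * scoord κ c h := fun k c =>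
    scoord_conj κ (x k) (hx k) c h
  have hbd : ∀ᶠ k in (hyperfilter ℕ : Filter ℕ),
      f k ∈ {h' : L | ∀ c, scoord κ c h' ≤ ∑ c, Real.exp 1 * scoord κ c h} := by
    have h1 : ∀ᶠ k in (hyperfilter ℕ : Filter ℕ), ∀ c, scoord κ c h ≠ 0 → gwt κ (x k) c ≤ 1 := by
      refine eventually_all.2 fun c => ?_
      by_cases hc : scoord κ c h = 0
      · exact Eventually.of_forall fun k h => absurd hc h
      · filter_upwards [((hwall c hc).mono_left hat).eventually_lt_const one_pos] with k hk _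
          using hk.le
    filter_upwards [h1] with k hk c
    have h2 : scoord κ c (f k) ≤ Real.exp 1 * scoord κ c h := by
      rw [hfs]
      by_cases hc : scoord κ c h = 0
      · rw [hc, mul_zero, mul_zero]
      · exact mul_le_mul_of_nonneg_right (Real.exp_le_exp.2 (hk c hc)) (scoord_nonneg κ c h)
    refine h2.trans ?_
    exact Finset.single_le_sum (f := fun c => Real.exp 1 * scoord κ c h)
      (fun c _ => mul_nonneg (Real.exp_pos _).le (scoord_nonneg κ c h)) (Finset.mem_univ c)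
  obtain ⟨h', -, hh'⟩ := (scoord_cpt hκ _).ultrafilter_le_nhds' ((hyperfilter ℕ).map f) hbd
  have hlim : Tendsto f (hyperfilter ℕ) (𝓝 h') := hh'
  have h1 := pair_tendsto hκ (hyperfilter ℕ : Filter ℕ) x hx h h' hlim
    (fun c hc => (hwall c hc).mono_left hat)
  have h2 := (h1.eventually hiso).curry
  obtain ⟨k, hk⟩ := h2.exists
  refine ⟨k, ?_⟩
  filter_upwards [hk] with k' hk'
  have h3 := hk' k k' rfl
  calc (x k)⁻¹ * h * x k
      = (x k')⁻¹ * (x k' * ((x k)⁻¹ * h * x k) * (x k')⁻¹) * x k' := by group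
    _ = (x k')⁻¹ * h * x k' := by rw [h3]

end Pool.Agent.Work.MP_67388f_an
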