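import Pool.Agent.Work.MP_67388f_an.TS.Count

set_option autoImplicit false

namespace Pool.Agent.Work.MP_67388f_an

open MeasureTheory Filter Topology Set
open scoped ENNReal

/-- `μ` and `ν` share the mass `c`. -/
def Ov {X : Type*} [MeasurableSpace X] (c : ℝ≥0∞) (μ ν : Measure X) : Prop :=
  ∀ s : Set X, MeasurableSet s → c ≤ μ s + ν sᶜ

section basic

variable {X : Type*} [MeasurableSpace X]

lemma exists_ov (μ ν : Measure X) (h : ¬ μ ⟂ₘ ν) : ∃ c : ℝ≥0∞, 0 < c ∧ Ov c μ ν := by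
  by_contra hcon
  apply h
  have h1 : ∀ k : ℕ, ∃ s : Set X, MeasurableSet s ∧ μ s + ν sᶜ < 2⁻¹ ^ k := by
    intro k
    by_contra h2
    push Not at h2
    exact hcon ⟨2⁻¹ ^ k, ENNReal.pow_pos (by simp) k, fun s hs => h2 s hs⟩
  choose s hs hlt using h1
  have hsum : ∑' k, (2⁻¹ : ℝ≥0∞) ^ k ≠ ⊤ := by
    rw [ENNReal.tsum_geometric]
    have : (1 : ℝ≥0∞) - 2⁻¹ = 2⁻¹ := ENNReal.one_sub_inv_two
    rw [this, inv_inv]
    exact ENNReal.ofNat_ne_top
  have h2 : μ (limsup s atTop) = 0 := by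
    refine measure_limsup_atTop_eq_zero ?_
    refine ne_top_of_le_ne_top hsum (ENNReal.tsum_le_tsum fun k => ?_)
    exact (le_self_add.trans (hlt k).le)
  refine ⟨limsup s atTop, MeasurableSet.measurableSet_limsup hs, h2, ?_⟩
  have h3 : (limsup s atTop)ᶜ ⊆ ⋃ N : ℕ, ⋂ k ∈ Ici N, (s k)ᶜ := by
    intro x hx
    rw [limsup_eq_iInf_iSup_of_nat] at hx
    simp only [iInf_eq_iInter, iSup_eq_iUnion, mem_compl_iff, mem_iInter, mem_iUnion, not_forall,
      not_exists] at hx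
    obtain ⟨N, hN⟩ := hx
    refine mem_iUnion.2 ⟨N, mem_iInter₂.2 fun k hk => ?_⟩
    exact fun hxk => hN k hk hxk
  refine measure_mono_null h3 (measure_iUnion_null fun N => ?_)
  refine le_antisymm (le_of_forall_pos_le_add ?_) (zero_le)
  intro e he
  obtain ⟨m, hm⟩ := ENNReal.exists_inv_two_pow_lt he.ne'
  rw [zero_add]
  have h4 : ν (⋂ k ∈ Ici N, (s k)ᶜ) ≤ ν (s (max N m))ᶜ :=
    measure_mono (iInter₂_subset (max N m) (le_max_left N m))
  have h5 : ν (s (max N m))ᶜ ≤ 2⁻¹ ^ (max N m) := le_add_self.trans (hlt (max N m)).le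
  have h6 : (2⁻¹ : ℝ≥0∞) ^ (max N m) ≤ 2⁻¹ ^ m :=
    pow_le_pow_right_of_le_one' (by norm_num) (le_max_right N m)
  exact (h4.trans (h5.trans h6)).trans hm.le

lemma not_sing_of_ov {μ ν : Measure X} {c : ℝ≥0∞} (hc : 0 < c) (h : Ov c μ ν) : ¬ μ ⟂ₘ ν := by
  rintro ⟨s, hs, h1, h2⟩
  have := h s hs
  rw [h1, h2, add_zero] at this
  exact absurd hc (not_lt.2 this)

end basic

variable {X : Type*} [TopologicalSpace X] [LocallyCompactSpace X] [T2Space X]
  [SecondCountableTopology X] [MeasurableSpace X] [BorelSpace X]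
variable {G : Type*} [Group G] [TopologicalSpace G] [IsTopologicalGroup G] [MulAction G X]
  [ContinuousSMul G X]

/-- Sharing the mass `c` is a closed condition on the translate. -/
lemma ov_limit {T : Type*} {l : Filter T} [NeBot l] (f : T → G) (g : G)
    (hf : Tendsto f l (𝓝 g)) (c : ℝ≥0∞) (μ ν : Measure X) [IsFiniteMeasure μ] [IsFiniteMeasure ν]
    (h : ∀ᶠ k in l, Ov c (μ.map (fun z => f k • z)) ν) : Ov c (μ.map (fun z => g • z)) ν := by
  intro s hs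
  refine ENNReal.le_of_forall_pos_le_add ?_
  intro e he _
  have he2 : (0 : ℝ≥0∞) < (e : ℝ≥0∞) / 2 := by
    refine ENNReal.div_pos ?_ (by simp)
    exact_mod_cast he.ne'
  obtain ⟨K, hKs, hK, hKlt⟩ := hs.exists_isCompact_sdiff_lt (μ := ν) (measure_ne_top ν _) he2.ne'
  set K' : Set X := (fun z => g • z) ⁻¹' K with hK'
  have hK'c : IsCompact K' := (Homeomorph.smul g).isCompact_preimage.2 hK
  obtain ⟨U, hKU, hU, hUlt⟩ := hK'c.exists_isOpen_lt_add (μ := μ) he2.ne'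
  have hopen : IsOpen {p : G × X | p.1⁻¹ • p.2 ∈ U} :=
    hU.preimage ((continuous_fst.inv).smul continuous_snd)
  obtain ⟨V, W, hV, hW, h1V, hKW, hVW⟩ := generalized_tube_lemma (s := {g}) (t := K)
    isCompact_singleton hK hopen (by
      rintro ⟨a, x⟩ ⟨ha, hx⟩
      rw [Set.mem_singleton_iff] at ha
      subst ha
      apply hKU
      show a • a⁻¹ • x ∈ K
      rw [smul_inv_smul]
      exact hx)
  have hV1 : V ∈ 𝓝 g := hV.mem_nhds (h1V rfl)
  obtain ⟨k, hk, hov⟩ := ((hf.eventually hV1).and h).exists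
  have h1 := hov K hK.measurableSet
  rw [Measure.map_apply (meas_smul _) hK.measurableSet] at h1
  have h2 : (fun z : X => f k • z) ⁻¹' K ⊆ U := by
    intro x hx
    have := hVW (show (f k, f k • x) ∈ V ×ˢ W from ⟨hk, hKW hx⟩)
    have h3 : (f k)⁻¹ • f k • x ∈ U := this
    rwa [inv_smul_smul] at h3
  have h3 : μ ((fun z : X => f k • z) ⁻¹' K) ≤ (μ.map (fun z => g • z)) s + e / 2 := by
    refine (measure_mono h2).trans (hUlt.le.trans ?_)
    refine add_le_add ?_ le_rfl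
    rw [Measure.map_apply (meas_smul _) hs]
    exact measure_mono (preimage_mono hKs)
  have h4 : ν Kᶜ ≤ ν sᶜ + e / 2 := by
    have h5 : Kᶜ ⊆ sᶜ ∪ (s \ K) := by
      intro x hx
      by_cases hxs : x ∈ s
      · exact Or.inr ⟨hxs, hx⟩
      · exact Or.inl hxs
    refine (measure_mono h5).trans ((measure_union_le _ _).trans ?_)
    exact add_le_add le_rfl hKlt.le
  calc c ≤ μ ((fun z : X => f k • z) ⁻¹' K) + ν Kᶜ := h1
    _ ≤ ((μ.map (fun z => g • z)) s + e / 2) + (ν sᶜ + e / 2) := add_le_add h3 h4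
    _ = (μ.map (fun z => g • z)) s + ν sᶜ + (e / 2 + e / 2) := by ring
    _ = (μ.map (fun z => g • z)) s + ν sᶜ + e := by rw [ENNReal.add_halves]

/-- Sharing the mass `c` is invariant under conjugation. -/
lemma ov_conj (c : ℝ≥0∞) (μ ν : Measure X) [IsFiniteMeasure μ] [IsFiniteMeasure ν] (g a : G)
    (ha : μ.map (fun z => a • z) = μ) (ha' : ν.map (fun z => a • z) = ν)
    (h : Ov c (μ.map (fun z => g • z)) ν) : Ov c (μ.map (fun z => (a * g * a⁻¹) • z)) ν := by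
  intro s hs
  have h1 := h ((fun z => a • z) ⁻¹' s) (meas_smul _ hs)
  have h2 : (μ.map (fun z => g • z)) ((fun z => a • z) ⁻¹' s) =
      (μ.map (fun z => (a * g * a⁻¹) • z)) s := by
    rw [← Measure.map_apply (meas_smul _) hs, map_map_smul]
    conv_rhs => rw [← ha, map_map_smul]
    congr 2
    funext z
    rw [inv_mul_cancel_right]
  have h3 : ν ((fun z => a • z) ⁻¹' s)ᶜ = ν sᶜ := by
    conv_rhs => rw [← ha']
    rw [Measure.map_apply (meas_smul _) hs.compl]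
    rfl
  rw [h2, h3] at h1
  exact h1

variable {L : Type*} [Group L] [TopologicalSpace L] [IsTopologicalGroup L]

/-- If the nonsingular translates are covered by countably many cosets of a closed group `Z`
centralizing `A`, then nearby points `y` of the `A`-orbit of a nonsingular translate `g` lie in
`g Z`. -/
theorem near_orbit [T2Space L] [LocallyCompactSpace L] (j : L →* G) (p : G →* L)
    (hj : Continuous j) (hjp : ∀ (g : G) (u : L), g * j u * g⁻¹ = j (p g * u * (p g)⁻¹))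
    (A : Subgroup G) (μ ν : Measure X) [IsFiniteMeasure μ] [IsFiniteMeasure ν]
    (hμ : ∀ a ∈ A, μ.map (fun z => a • z) = μ) (hν : ∀ a ∈ A, ν.map (fun z => a • z) = ν)
    (Z : Subgroup L) (hZcl : IsClosed (Z : Set L)) (hZ : ∀ z ∈ Z, ∀ a ∈ A, p a * z = z * p a)
    (C : Set L) (hC : C.Countable)
    (hcov : ∀ h : L, ¬ (μ.map (fun z => j h • z)) ⟂ₘ ν → ∃ c ∈ C, c⁻¹ * h ∈ Z)
    (g : L) (hg : ¬ (μ.map (fun z => j g • z)) ⟂ₘ ν) :
    ∀ᶠ y in 𝓝 g, ∀ a ∈ A, p a * g * (p a)⁻¹ = y → g⁻¹ * y ∈ Z := by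
  classical
  obtain ⟨c, hc0, hc⟩ := exists_ov _ _ hg
  set S : Set L := {y | ∃ a ∈ A, p a * g * (p a)⁻¹ = y} with hS
  have hSov : ∀ y ∈ S, Ov c (μ.map (fun z => j y • z)) ν := by
    rintro y ⟨a, ha, rfl⟩
    rw [← hjp a g]
    exact ov_conj c μ ν (j g) a (hμ a ha) (hν a ha) hc
  set O : Set L := closure S with hO
  have hOov : ∀ y ∈ O, Ov c (μ.map (fun z => j y • z)) ν := by
    intro y hy
    have hne : NeBot (𝓝[S] y) := mem_closure_iff_nhdsWithin_neBot.1 hy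
    refine ov_limit (l := 𝓝[S] y) (fun x => j x) (j y)
      ((hj.tendsto y).mono_left nhdsWithin_le_nhds) c μ ν ?_
    filter_upwards [self_mem_nhdsWithin] with x hx using hSov x hx
  have hgS : g ∈ S := ⟨1, one_mem _, by simp⟩
  have hOcl : IsClosed O := isClosed_closure
  have hloc : LocallyCompactSpace O := hOcl.isClosedEmbedding_subtypeVal.locallyCompactSpace
  have hne : Nonempty O := ⟨⟨g, subset_closure hgS⟩⟩
  have hCc : Countable C := hC.to_subtype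
  obtain ⟨⟨c₁, hc₁⟩, y₀, hy₀⟩ := nonempty_interior_of_iUnion_of_closed
    (f := fun c : C => {y : O | (c : L)⁻¹ * (y : L) ∈ Z}) (fun c => by
      refine hZcl.preimage ?_
      exact continuous_const.mul continuous_subtype_val) (by
      refine eq_univ_of_forall fun y => ?_
      obtain ⟨c', hc', h⟩ := hcov y (not_sing_of_ov hc0 (hOov y y.2))
      exact mem_iUnion.2 ⟨⟨c', hc'⟩, h⟩)
  obtain ⟨t, ht, hto, hy₀t⟩ := mem_interior.1 hy₀
  obtain ⟨V, hV, rfl⟩ := isOpen_induced_iff.1 hto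
  obtain ⟨g₁, hg₁V, b, hb, rfl⟩ := mem_closure_iff.1 y₀.2 V hV hy₀t
  have hkey : ∀ y : L, y ∈ V → y ∈ S → c₁⁻¹ * y ∈ Z := by
    intro y hyV hyS
    exact ht (show (⟨y, subset_closure hyS⟩ : O) ∈ Subtype.val ⁻¹' V from hyV)
  have h1 := hkey _ hg₁V ⟨b, hb, rfl⟩
  have hcont : Tendsto (fun y : L => p b * y * (p b)⁻¹) (𝓝 g) (𝓝 (p b * g * (p b)⁻¹)) :=
    ((continuous_const.mul continuous_id).mul continuous_const).tendsto g
  filter_upwards [hcont.eventually (hV.mem_nhds hg₁V)] with y hy a ha hay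
  have h2 := hkey _ hy ⟨b * a, mul_mem hb ha, by rw [← hay, map_mul]; group⟩
  have h3 := mul_mem (inv_mem h1) h2
  have h4 : (c₁⁻¹ * (p b * g * (p b)⁻¹))⁻¹ * (c₁⁻¹ * (p b * y * (p b)⁻¹)) =
      p b * (g⁻¹ * y) * (p b)⁻¹ := by group
  rw [h4] at h3
  have h5 := hZ _ h3 b⁻¹ (inv_mem hb)
  have h6 : g⁻¹ * y = p b * (g⁻¹ * y) * (p b)⁻¹ := by
    rw [map_inv] at h5
    have h7 : (p b)⁻¹ * (p b * (g⁻¹ * y) * (p b)⁻¹) = (g⁻¹ * y) * (p b)⁻¹ := by group
    rw [h7] at h5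
    exact mul_right_cancel h5
  rw [h6]
  exact h3

/-- A contracted nonsingular translate is isolated in its `A`-orbit. -/
theorem isolated_of_contract [T2Space L] (p : G →* L) (A : Subgroup G)
    (hcomm : ∀ a ∈ A, ∀ b ∈ A, p a * p b = p b * p a)
    (Z : Subgroup L) (hZ : ∀ z ∈ Z, ∀ a ∈ A, p a * z = z * p a) (g : L) (a₀ : G) (ha₀ : a₀ ∈ A)
    (z : L) (hz : z ∈ Z)
    (hlim : Tendsto (fun n : ℕ => p a₀ ^ n * g * (p a₀ ^ n)⁻¹) atTop (𝓝 z))
    (h : ∀ᶠ y in 𝓝 g, ∀ a ∈ A, p a * g * (p a)⁻¹ = y → g⁻¹ * y ∈ Z) :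
    ∀ᶠ y in 𝓝 g, ∀ a ∈ A, p a * g * (p a)⁻¹ = y → y = g := by
  filter_upwards [h] with y hy a ha hay
  have hu := hy a ha hay
  set u : L := g⁻¹ * y with hudef
  have hyu : y = g * u := by rw [hudef, mul_inv_cancel_left]
  have hpow : ∀ (x : L), (p a₀ * x = x * p a₀) → ∀ n : ℕ, p a₀ ^ n * x = x * p a₀ ^ n := by
    intro x hx n
    exact ((Commute.pow_left (show Commute (p a₀) x from hx) n)).eq
  have l1 : Tendsto (fun n : ℕ => p a₀ ^ n * y * (p a₀ ^ n)⁻¹) atTop (𝓝 z) := by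
    have h1 := (hlim.const_mul (p a)).mul_const ((p a)⁻¹)
    have h2 : p a * z * (p a)⁻¹ = z := by rw [hZ z hz a ha, mul_inv_cancel_right]
    rw [h2] at h1
    refine h1.congr fun n => ?_
    have h3 := hpow (p a) (hcomm a₀ ha₀ a ha) n
    calc p a * (p a₀ ^ n * g * (p a₀ ^ n)⁻¹) * (p a)⁻¹
        = (p a * p a₀ ^ n) * g * (p a * p a₀ ^ n)⁻¹ := by group
      _ = (p a₀ ^ n * p a) * g * (p a₀ ^ n * p a)⁻¹ := by rw [h3]
      _ = p a₀ ^ n * y * (p a₀ ^ n)⁻¹ := by rw [← hay]; group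
  have l2 : Tendsto (fun n : ℕ => p a₀ ^ n * y * (p a₀ ^ n)⁻¹) atTop (𝓝 (z * u)) := by
    have h1 := hlim.mul_const u
    refine h1.congr fun n => ?_
    have h3 := hpow u (hZ u hu a₀ ha₀) n
    calc p a₀ ^ n * g * (p a₀ ^ n)⁻¹ * u
        = p a₀ ^ n * g * (p a₀ ^ n)⁻¹ * (u * p a₀ ^ n) * (p a₀ ^ n)⁻¹ := by group
      _ = p a₀ ^ n * g * (p a₀ ^ n)⁻¹ * (p a₀ ^ n * u) * (p a₀ ^ n)⁻¹ := by rw [h3]
      _ = p a₀ ^ n * y * (p a₀ ^ n)⁻¹ := by rw [hyu]; group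
  have h4 := tendsto_nhds_unique l1 l2
  have h5 : u = 1 := by
    have : z * 1 = z * u := by rw [mul_one]; exact h4
    exact (mul_left_cancel this).symm
  rw [hyu, h5, mul_one]

end Pool.Agent.Work.MP_67388f_an
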