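import Pool.Agent.Work.MP_67388f_an.TS.Grd

set_option autoImplicit false

namespace Pool.Agent.Work.MP_67388f_an

open Filter Topology Matrix

section top

variable {n : ℕ} {K : Type*} [CommRing K] {ω : Fin n → ℝ}

lemma top_pow {Z : Matrix (Fin n) (Fin n) K} {h : ℝ} (hZ : ∀ i j, h < ω i - ω j → Z i j = 0)
    (r : ℕ) : ∀ i j, r * h < ω i - ω j → (Z ^ r) i j = 0 := by
  induction r with
  | zero =>
    intro i j hij
    rw [pow_zero, one_apply_ne]
    rintro rfl
    simp at hij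
  | succ r ih =>
    intro i j hij
    rw [pow_succ, mul_apply]
    refine Finset.sum_eq_zero fun k _ => ?_
    push_cast at hij
    by_cases h1 : r * h < ω i - ω k
    · rw [ih i k h1, zero_mul]
    · rw [hZ k j (by linarith), mul_zero]

lemma hom_pow {Y : Matrix (Fin n) (Fin n) K} {h : ℝ} (hY : ∀ i j, ω i - ω j ≠ h → Y i j = 0)
    (r : ℕ) : ∀ i j, ω i - ω j ≠ r * h → (Y ^ r) i j = 0 := by
  induction r with
  | zero =>
    intro i j hij
    rw [pow_zero, one_apply_ne]
    rintro rfl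
    simp at hij
  | succ r ih =>
    intro i j hij
    rw [pow_succ, mul_apply]
    refine Finset.sum_eq_zero fun k _ => ?_
    push_cast at hij
    by_cases h1 : ω i - ω k = r * h
    · rw [hY k j (fun h2 => hij (by linarith)), mul_zero]
    · rw [ih i k h1, zero_mul]

lemma top_pow_lead {Z Y : Matrix (Fin n) (Fin n) K} {h : ℝ}
    (hZ : ∀ i j, h < ω i - ω j → Z i j = 0)
    (hY : ∀ i j, Y i j = if ω i - ω j = h then Z i j else 0) (r : ℕ) :
    ∀ i j, ω i - ω j = r * h → (Z ^ r) i j = (Y ^ r) i j := by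
  have hY0 : ∀ i j, ω i - ω j ≠ h → Y i j = 0 := fun i j h => by rw [hY, if_neg h]
  induction r with
  | zero =>
    intro i j _
    rw [pow_zero, pow_zero]
  | succ r ih =>
    intro i j hij
    rw [pow_succ, pow_succ, mul_apply, mul_apply]
    refine Finset.sum_congr rfl fun k _ => ?_
    push_cast at hij
    rcases lt_trichotomy (ω i - ω k) (r * h) with h1 | h1 | h1
    · rw [hZ k j (by linarith), hY0 k j (by intro h2; linarith), mul_zero, mul_zero]
    · rw [ih i k h1, hY k j, if_pos (by linarith)]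
    · rw [top_pow hZ r i k h1, hom_pow hY0 r i k (ne_of_gt h1), zero_mul, zero_mul]

end top

section sl

variable {n : ℕ} {K : Type*} [NormedField K] [CharZero K]

omit [CharZero K] in
lemma sl_tendsto {ι : Type*} (l : Filter ι) (f : ι → SpecialLinearGroup (Fin n) K)
    (w : SpecialLinearGroup (Fin n) K) (h : ∀ i j, Tendsto (fun k => (f k).1 i j) l (𝓝 (w.1 i j))) :
    Tendsto f l (𝓝 w) := by
  have h0 : Topology.IsInducing (fun h : SpecialLinearGroup (Fin n) K => h.1) :=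
    Topology.IsInducing.subtypeVal
  rw [h0.tendsto_nhds_iff]
  exact tendsto_pi_nhds.2 fun i => tendsto_pi_nhds.2 fun j => h i j

omit [CharZero K] in
lemma sl_diag_ne {β : Fin n → K} {a : SpecialLinearGroup (Fin n) K} (ha : a.1 = diagonal β)
    (i : Fin n) : β i ≠ 0 := by
  have h2 := a.2
  rw [ha, det_diagonal] at h2
  have h3 : ∏ i, β i ≠ 0 := by rw [h2]; exact one_ne_zero
  exact Finset.prod_ne_zero_iff.1 h3 i (Finset.mem_univ i)

omit [CharZero K] in
lemma sl_conj_entry {β : Fin n → K} {a : SpecialLinearGroup (Fin n) K} (ha : a.1 = diagonal β)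
    (h : SpecialLinearGroup (Fin n) K) (m : ℕ) (i j : Fin n) :
    (a ^ m * h * (a ^ m)⁻¹).1 i j = β i ^ m * (β j ^ m)⁻¹ * h.1 i j := by
  classical
  have ham : (a ^ m).1 = diagonal (fun i => β i ^ m) := by
    have h0 : (a ^ m).1 = a.1 ^ m := Matrix.SpecialLinearGroup.coe_pow a m
    refine h0.trans ?_
    rw [ha, diagonal_pow]
    rfl
  have hinv : ((a ^ m)⁻¹ : SpecialLinearGroup (Fin n) K).1 = diagonal (fun i => (β i ^ m)⁻¹) := by
    have h1 : ((a ^ m)⁻¹ : SpecialLinearGroup (Fin n) K).1 * (a ^ m).1 = 1 :=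
      congrArg Subtype.val (inv_mul_cancel (a ^ m))
    have h2 : (a ^ m).1 * diagonal (fun i => (β i ^ m)⁻¹) = 1 := by
      rw [ham, diagonal_mul_diagonal, ← diagonal_one]
      congr 1
      funext i
      exact mul_inv_cancel₀ (pow_ne_zero _ (sl_diag_ne ha i))
    calc ((a ^ m)⁻¹ : SpecialLinearGroup (Fin n) K).1
        = ((a ^ m)⁻¹ : SpecialLinearGroup (Fin n) K).1 *
          ((a ^ m).1 * diagonal (fun i => (β i ^ m)⁻¹)) := by rw [h2, mul_one]
      _ = diagonal (fun i => (β i ^ m)⁻¹) := by rw [← mul_assoc, h1, one_mul]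
  have h1 : (a ^ m * h * (a ^ m)⁻¹).1 = (a ^ m).1 * h.1 *
      ((a ^ m)⁻¹ : SpecialLinearGroup (Fin n) K).1 := rfl
  rw [h1, ham, hinv, mul_diagonal, diagonal_mul]
  ring

/-- entries of `exp (x Z)` -/
lemma exp_smul_entry {Z : Matrix (Fin n) (Fin n) K} (hZ : Z ^ n = 0) (x : K) (i j : Fin n) :
    (IsNilpotent.exp (x • Z)) i j =
      ∑ r ∈ Finset.range n, x ^ r * ((r.factorial : K)⁻¹ * (Z ^ r) i j) := by
  have h1 : (x • Z) ^ n = 0 := by rw [smul_pow, hZ, smul_zero]
  rw [IsNilpotent.exp_eq_sum h1, Matrix.sum_apply]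
  refine Finset.sum_congr rfl fun r _ => ?_
  rw [smul_pow, ← Rat.cast_smul_eq_qsmul K, Matrix.smul_apply, Matrix.smul_apply]
  push_cast
  simp only [smul_eq_mul]
  ring

/-- entries of the powers of an exponential -/
lemma pow_entry {Z : Matrix (Fin n) (Fin n) K} (hZ : Z ^ n = 0)
    {w : SpecialLinearGroup (Fin n) K} (hw : w.1 = IsNilpotent.exp Z) (k : ℕ) (i j : Fin n) :
    (w ^ k).1 i j = ∑ r ∈ Finset.range n, (k : K) ^ r * ((r.factorial : K)⁻¹ * (Z ^ r) i j) := by
  have h0 : (w ^ k).1 = w.1 ^ k := Matrix.SpecialLinearGroup.coe_pow w k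
  have e : ((k : ℚ) • Z) = ((k : K) • Z) := by
    ext i j
    rw [Matrix.smul_apply, Matrix.smul_apply, ← Rat.cast_smul_eq_qsmul K]
    push_cast
    rfl
  rw [h0, hw, exp_pow_nat Z ⟨n, hZ⟩, e, exp_smul_entry hZ]

/-- A contraction, or small powers: the renormalized powers tend to one. -/
theorem lim_one {ω : Fin n → ℝ} {β : Fin n → K} {a w : SpecialLinearGroup (Fin n) K}
    (ha : a.1 = diagonal β) {Z : Matrix (Fin n) (Fin n) K} (hZ : Ggt ω 0 Z)
    (hw : w.1 = IsNilpotent.exp Z) (k : ℕ → ℕ) (hk1 : ∀ m, ‖(k m : K)‖ ≤ 1)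
    (hk : ∀ i j, ω j < ω i →
      Tendsto (fun m : ℕ => ‖(k m : K)‖ * (‖β i‖ / ‖β j‖) ^ m) atTop (𝓝 0) ∨
      Tendsto (fun m : ℕ => (‖β i‖ / ‖β j‖) ^ m) atTop (𝓝 0)) :
    Tendsto (fun m => a ^ m * w ^ (k m) * (a ^ m)⁻¹) atTop (𝓝 1) := by
  classical
  have hZn : Z ^ n = 0 := hZ.pow_zero n le_rfl
  refine sl_tendsto _ _ _ fun i j => ?_
  simp_rw [sl_conj_entry ha, pow_entry hZn hw, Finset.mul_sum]
  have hone : (1 : SpecialLinearGroup (Fin n) K).1 i j =
      ∑ r ∈ Finset.range n, if r = 0 then (1 : Matrix (Fin n) (Fin n) K) i j else 0 := by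
    rw [Finset.sum_ite_eq', if_pos]
    · rfl
    · rw [Finset.mem_range]
      exact lt_of_le_of_lt (Nat.zero_le _) i.2
  rw [hone]
  refine tendsto_finsetSum _ fun r _ => ?_
  by_cases hr : r = 0
  · subst hr
    rw [if_pos rfl]
    refine tendsto_const_nhds.congr fun m => ?_
    rw [pow_zero, pow_zero, Nat.factorial_zero, Nat.cast_one, inv_one, one_mul, one_mul]
    by_cases hij : i = j
    · subst hij
      rw [mul_inv_cancel₀ (pow_ne_zero _ (sl_diag_ne ha i)), one_mul]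
    · rw [Matrix.one_apply_ne hij, mul_zero]
  · rw [if_neg hr]
    by_cases hij : ω j < ω i
    · have hbound : ∀ m : ℕ, ‖β i ^ m * (β j ^ m)⁻¹ *
          ((k m : K) ^ r * ((r.factorial : K)⁻¹ * (Z ^ r) i j))‖ ≤
          (‖(k m : K)‖ * (‖β i‖ / ‖β j‖) ^ m) * ‖(r.factorial : K)⁻¹ * (Z ^ r) i j‖ := by
        intro m
        rw [norm_mul, norm_mul, norm_inv, norm_pow, norm_pow, norm_mul, norm_pow, div_pow,
          div_eq_mul_inv]
        have h1 : ‖(k m : K)‖ ^ r ≤ ‖(k m : K)‖ := by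
          calc ‖(k m : K)‖ ^ r ≤ ‖(k m : K)‖ ^ 1 :=
                pow_le_pow_of_le_one (norm_nonneg _) (hk1 m) (Nat.one_le_iff_ne_zero.2 hr)
            _ = _ := pow_one _
        have h2 : 0 ≤ ‖β i‖ ^ m * (‖β j‖ ^ m)⁻¹ := by positivity
        calc ‖β i‖ ^ m * (‖β j‖ ^ m)⁻¹ * (‖(k m : K)‖ ^ r * ‖(r.factorial : K)⁻¹ * (Z ^ r) i j‖)
            ≤ ‖β i‖ ^ m * (‖β j‖ ^ m)⁻¹ * (‖(k m : K)‖ * ‖(r.factorial : K)⁻¹ * (Z ^ r) i j‖) := by
              gcongr
          _ = _ := by ring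
      have hto : Tendsto (fun m : ℕ => ‖(k m : K)‖ * (‖β i‖ / ‖β j‖) ^ m) atTop (𝓝 0) := by
        rcases hk i j hij with h | h
        · exact h
        · refine squeeze_zero (fun m => by positivity) (fun m => ?_) h
          have h2 : 0 ≤ (‖β i‖ / ‖β j‖) ^ m := by positivity
          nlinarith [hk1 m]
      have h3 := hto.mul_const ‖(r.factorial : K)⁻¹ * (Z ^ r) i j‖
      rw [zero_mul] at h3
      exact squeeze_zero_norm hbound h3
    · have h1 : (Z ^ r) i j = 0 := by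
        obtain ⟨r', rfl⟩ := Nat.exists_eq_succ_of_ne_zero hr
        rw [Nat.succ_eq_add_one, pow_succ]
        have h2 := (hZ.ge.pow r').mul_gt hZ
        rw [add_zero] at h2
        exact h2 i j (by linarith)
      rw [h1]
      simp only [mul_zero]
      exact tendsto_const_nhds

/-- The main renormalization: powers `k m` with `k m * c ^ m → x` isolate the top component. -/
theorem lim_top {ω : Fin n → ℝ} {β : Fin n → K} {a w : SpecialLinearGroup (Fin n) K}
    (ha : a.1 = diagonal β) (hω : ∀ i, ω i = Real.log ‖β i‖)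
    {Z Y : Matrix (Fin n) (Fin n) K} (hZ : Ggt ω 0 Z)
    (hw : w.1 = IsNilpotent.exp Z) (h : ℝ)
    (htop : ∀ i j, h < ω i - ω j → Z i j = 0)
    (hY : ∀ i j, Y i j = if ω i - ω j = h then Z i j else 0) (c : K) (hc0 : ‖c‖ = Real.exp h)
    (hc : ∀ i j, ω i - ω j = h → β i = c * β j) (x : K) (k : ℕ → ℕ)
    (hk : Tendsto (fun m : ℕ => (k m : K) * c ^ m) atTop (𝓝 x)) :
    ∃ e : SpecialLinearGroup (Fin n) K, e.1 = IsNilpotent.exp (x • Y) ∧
      Tendsto (fun m => a ^ m * w ^ (k m) * (a ^ m)⁻¹) atTop (𝓝 e) := by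
  classical
  have hZn : Z ^ n = 0 := hZ.pow_zero n le_rfl
  have hY0 : ∀ i j, ω i - ω j ≠ h → Y i j = 0 := fun i j h => by rw [hY, if_neg h]
  have hYg : Ggt ω 0 Y := by
    intro i j hij
    rw [hY]
    split_ifs
    · exact hZ i j hij
    · rfl
  have hYn : Y ^ n = 0 := hYg.pow_zero n le_rfl
  have hβ : ∀ i, β i ≠ 0 := sl_diag_ne ha
  -- the action on the powers of Y
  have hDY : ∀ (m : ℕ) (r : ℕ) (i j : Fin n),
      β i ^ m * (β j ^ m)⁻¹ * (Y ^ r) i j = (c ^ m) ^ r * (Y ^ r) i j := by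
    intro m r
    induction r with
    | zero =>
      intro i j
      rw [pow_zero, pow_zero, one_mul]
      by_cases hij : i = j
      · subst hij
        rw [mul_inv_cancel₀ (pow_ne_zero _ (hβ i)), one_mul]
      · rw [Matrix.one_apply_ne hij, mul_zero]
    | succ r ih =>
      intro i j
      rw [pow_succ, mul_apply, Finset.mul_sum, Finset.mul_sum]
      refine Finset.sum_congr rfl fun t _ => ?_
      have h1 : β t ^ m * (β j ^ m)⁻¹ * Y t j = c ^ m * Y t j := by
        by_cases htj : ω t - ω j = h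
        · rw [hc t j htj, mul_pow, mul_assoc (c ^ m), mul_inv_cancel₀ (pow_ne_zero _ (hβ j)),
            mul_one]
        · rw [hY0 t j htj, mul_zero, mul_zero]
      calc β i ^ m * (β j ^ m)⁻¹ * ((Y ^ r) i t * Y t j)
          = (β i ^ m * (β t ^ m)⁻¹ * (Y ^ r) i t) * (β t ^ m * (β j ^ m)⁻¹ * Y t j) := by
            have := pow_ne_zero m (hβ t)
            field_simp
        _ = (c ^ m) ^ (r + 1) * ((Y ^ r) i t * Y t j) := by
            rw [ih, h1]; ring
  have hlim : ∀ (i j : Fin n), Tendsto (fun m : ℕ => (a ^ m * w ^ (k m) * (a ^ m)⁻¹).1 i j) atTop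
      (𝓝 ((IsNilpotent.exp (x • Y)) i j)) := by
    intro i j
    simp_rw [sl_conj_entry ha, pow_entry hZn hw, Finset.mul_sum]
    rw [exp_smul_entry hYn]
    refine tendsto_finsetSum _ fun r _ => ?_
    rcases lt_trichotomy (ω i - ω j) (r * h) with h1 | h1 | h1
    · rw [hom_pow hY0 r i j (ne_of_lt h1), mul_zero, mul_zero]
      -- norms
      have hnorm : ∀ m : ℕ, ‖β i ^ m * (β j ^ m)⁻¹ *
          ((k m : K) ^ r * ((r.factorial : K)⁻¹ * (Z ^ r) i j))‖ =
          ‖(k m : K) * c ^ m‖ ^ r * (Real.exp (ω i - ω j - r * h)) ^ m *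
            ‖(r.factorial : K)⁻¹ * (Z ^ r) i j‖ := by
        intro m
        have e1 : ‖β i‖ = Real.exp (ω i) := by
          rw [hω, Real.exp_log (norm_pos_iff.2 (hβ i))]
        have e2 : ‖β j‖ = Real.exp (ω j) := by
          rw [hω, Real.exp_log (norm_pos_iff.2 (hβ j))]
        rw [norm_mul, norm_mul (β i ^ m), norm_inv, norm_pow, norm_pow, norm_mul, norm_pow,
          norm_mul (k m : K), norm_pow c m, hc0, e1, e2]
        have e3 : Real.exp (ω i) ^ m * (Real.exp (ω j) ^ m)⁻¹ =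
            (Real.exp h ^ m) ^ r * Real.exp (ω i - ω j - ↑r * h) ^ m := by
          rw [← pow_mul, ← Real.exp_nat_mul, ← Real.exp_nat_mul, ← Real.exp_nat_mul,
            ← Real.exp_nat_mul, ← Real.exp_neg, ← Real.exp_add, ← Real.exp_add]
          congr 1
          push_cast
          ring
        rw [e3, mul_pow]
        ring
      have h2 : Tendsto (fun m : ℕ => (Real.exp (ω i - ω j - r * h)) ^ m) atTop (𝓝 0) := by
        apply tendsto_pow_atTop_nhds_zero_of_lt_one (Real.exp_pos _).le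
        rw [Real.exp_lt_one_iff]
        linarith
      have h3 := ((hk.norm.pow r).mul h2).mul_const ‖(r.factorial : K)⁻¹ * (Z ^ r) i j‖
      rw [mul_zero, zero_mul] at h3
      rw [tendsto_zero_iff_norm_tendsto_zero]
      simp_rw [hnorm]
      exact h3
    · have h2 := top_pow_lead htop hY r i j h1
      have h3 := (hk.pow r).mul_const ((r.factorial : K)⁻¹ * (Y ^ r) i j)
      refine h3.congr fun m => ?_
      rw [h2]
      have h4 := hDY m r i j
      calc ((k m : K) * c ^ m) ^ r * ((r.factorial : K)⁻¹ * (Y ^ r) i j)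
          = (k m : K) ^ r * (r.factorial : K)⁻¹ * ((c ^ m) ^ r * (Y ^ r) i j) := by
            rw [mul_pow]; ring
        _ = _ := by rw [← h4]; ring
    · rw [hom_pow hY0 r i j (ne_of_gt h1), top_pow htop r i j h1]
      simp only [mul_zero]
      exact tendsto_const_nhds
  have hlimM : Tendsto (fun m : ℕ => (a ^ m * w ^ (k m) * (a ^ m)⁻¹).1) atTop
      (𝓝 (IsNilpotent.exp (x • Y))) :=
    tendsto_pi_nhds.2 fun i => tendsto_pi_nhds.2 fun j => hlim i j
  have hdet : (IsNilpotent.exp (x • Y)).det = 1 := by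
    have h1 : Tendsto (fun m : ℕ => (a ^ m * w ^ (k m) * (a ^ m)⁻¹).1.det) atTop
        (𝓝 (IsNilpotent.exp (x • Y)).det) :=
      ((continuous_id.matrix_det).tendsto _).comp hlimM
    have h2 : (fun m : ℕ => (a ^ m * w ^ (k m) * (a ^ m)⁻¹).1.det) = fun _ => 1 := by
      funext m
      exact (a ^ m * w ^ (k m) * (a ^ m)⁻¹).2
    rw [h2] at h1
    exact tendsto_nhds_unique h1 tendsto_const_nhds
  exact ⟨⟨_, hdet⟩, rfl, tendsto_subtype_rng.2 hlimM⟩

end sl

end Pool.Agent.Work.MP_67388f_an
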