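import Pool.Agent.Work.MP_67388f_an.TV.Main
import Pool.Agent.Work.MP_67388f_an.TS.Gauge

set_option autoImplicit false

namespace Pool.Agent.Work.MP_67388f_an

open MeasureTheory Filter Topology Matrix

variable {X : Type*} [TopologicalSpace X] [LocallyCompactSpace X] [T2Space X]
  [SecondCountableTopology X] [MeasurableSpace X] [BorelSpace X]
variable {G : Type*} [Group G] [TopologicalSpace G] [IsTopologicalGroup G] [MulAction G X]
  [ContinuousSMul G X]
variable {L : Type*} [Group L] [TopologicalSpace L] [IsTopologicalGroup L]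
variable {C : Type*} [Fintype C]

/-- The part of the stabilizer of `μ` expanded by `a`. -/
def gS (j : L →* G) (a : L) (μ : Measure X) : Subgroup L := gUp a ⊓ (stb (G := G) μ).comap j

/-- The symmetries of `φ μ` expanded by `a`. -/
def gD (j : L →* G) (a : L) (μ : Measure X) (φ : X → ℝ) : Subgroup L where
  carrier := {u | u ∈ gUp a ∧ InvD μ (j u) φ}
  one_mem' := ⟨one_mem _, by rw [map_one]; exact invD_one μ φ⟩
  mul_mem' := fun ha hb => ⟨mul_mem ha.1 hb.1,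
    by rw [map_mul]; exact invD_mul μ φ _ _ ha.2 hb.2⟩
  inv_mem' := fun ha => ⟨inv_mem ha.1, by rw [map_inv]; exact invD_inv μ φ _ ha.2⟩

variable {s : C → L → ℝ} {w : C → ℝ} (j : L →* G) (p : G →* L)

/-- The positive part of a sequence of asymptotic symmetries lies in the stabilizer. -/
theorem pos_part_gen (hj : Continuous j)
    (hjp : ∀ (g : G) (u : L), g * j u * g⁻¹ = j (p g * u * (p g)⁻¹))
    (μ : Measure X) [IsProbabilityMeasure μ] (a₀ : G) (ha₀ : a₀ ∈ stb (G := G) μ)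
    (H : IsGauge s (p a₀) w)
    (hup : ∀ φ : Lp ℝ 2 μ, ∫ x, φ x ∂μ ≠ 0 → gS j (p a₀) μ ≤ gD j (p a₀) μ φ →
      gD j (p a₀) μ φ ≤ gS j (p a₀) μ)
    (F : Set X) (hF : MeasurableSet F) (hF0 : μ F ≠ 0) (g : ℕ → L)
    (hg : Tendsto g atTop (𝓝 1)) (hTV : TVto atTop (fun k => j (g k)) (μ.restrict F)) :
    ∃ u : ℕ → L, (∀ k, u k ∈ gS j (p a₀) μ) ∧ Tendsto u atTop (𝓝 1) ∧
      ∀ᶠ k in atTop, (u k)⁻¹ * g k ∈ gLow (p a₀) := by
  classical
  have hres : (μ.restrict F) ≪ μ := Measure.restrict_le_self.absolutelyContinuous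
  have hcl : IsClosed (gS j (p a₀) μ : Set L) := by
    have h2 : (gS j (p a₀) μ : Set L) = {u : L | ∀ c, w c ≤ 0 → s c u = 0} ∩
        (j ⁻¹' (stb (G := G) μ : Set G)) := by
      ext u
      constructor
      · rintro ⟨h1, h2⟩
        exact ⟨(H.mem_up u).1 h1, h2⟩
      · rintro ⟨h1, h2⟩
        exact ⟨(H.mem_up u).2 h1, h2⟩
    rw [h2]
    refine IsClosed.inter ?_ ((stb_closed μ).preimage hj)
    have h3 : {u : L | ∀ c, w c ≤ 0 → s c u = 0} = ⋂ (c : C) (_ : w c ≤ 0), {u | s c u = 0} := by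
      ext u
      simp only [Set.mem_ofPred_eq, Set.mem_iInter]
    rw [h3]
    refine isClosed_iInter fun c => isClosed_iInter fun _ => ?_
    exact isClosed_eq (H.cont c) continuous_const
  have hconj : ∀ u ∈ gS j (p a₀) μ, (p a₀)⁻¹ * u * p a₀ ∈ gS j (p a₀) μ := by
    rintro u ⟨h1, h2⟩
    refine ⟨?_, ?_⟩
    · have h1' := (H.mem_up u).1 h1
      refine (H.mem_up _).2 fun c hw => ?_
      have h3 := H.conj_pow' c u 1
      rw [pow_one] at h3
      rw [h3, h1' c hw, mul_zero]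
    · have h3 := hjp a₀⁻¹ u
      rw [inv_inv, map_inv, inv_inv] at h3
      show j ((p a₀)⁻¹ * u * p a₀) ∈ stb (G := G) μ
      rw [← h3]
      exact mul_mem (mul_mem (inv_mem ha₀) h2) ha₀
  obtain ⟨u, huS, hu1, hcase⟩ := blowup_gen H (gS j (p a₀) μ) hcl inf_le_left hconj g hg
  refine ⟨u, huS, hu1, ?_⟩
  rcases hcase with hlow | ⟨U, hU, m, v, hw2, hvup, hvS⟩
  · exact hlow
  exfalso
  -- total variation
  have hTVu : TVto atTop (fun k => j (u k)) (μ.restrict F) := by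
    refine tv_ac _ ?_ μ _ (tv_of_inv _ μ fun k => (huS k).2) hres
    have := (hj.tendsto 1).comp hu1
    rwa [map_one] at this
  have hTVh : TVto atTop (fun k => j ((u k)⁻¹ * g k)) (μ.restrict F) := by
    have h1 := tv_mul _ _ _ (tv_inv _ _ hTVu) hTV
    intro ε hε
    filter_upwards [h1 ε hε] with k hk
    rw [map_mul, map_inv]
    exact hk
  have hTVU : TVto (U : Filter ℕ) (fun k => j ((u k)⁻¹ * g k)) (μ.restrict F) :=
    fun ε hε => (hTVh ε hε).filter_mono hU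
  have hw3 : Tendsto (fun k => a₀ ^ (m k) * j ((u k)⁻¹ * g k) * (a₀ ^ (m k))⁻¹) U (𝓝 (j v)) := by
    refine ((hj.tendsto v).comp hw2).congr fun k => ?_
    rw [hjp, map_pow]
    rfl
  -- m tends to infinity along U
  have hm : Tendsto m U atTop := by
    by_contra hcon
    rw [tendsto_atTop] at hcon
    push Not at hcon
    obtain ⟨N, hN⟩ := hcon
    have h1 : ∀ᶠ k in (U : Filter ℕ), m k ∈ Finset.range N := by
      filter_upwards [hN] with k hk
      rw [Finset.mem_range]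
      exact hk
    have h2 : ∃ m₀, ∀ᶠ k in (U : Filter ℕ), m k = m₀ := by
      have h3 : (↑(Finset.range N) : Set ℕ) ∈ U.map m := h1
      obtain ⟨m₀, -, hm₀⟩ := Ultrafilter.eq_pure_of_finite_mem (Finset.finite_toSet _) h3
      refine ⟨m₀, ?_⟩
      have h4 : {m₀} ∈ U.map m := by rw [hm₀]; exact Ultrafilter.mem_pure.2 rfl
      exact h4
    obtain ⟨m₀, hm₀⟩ := h2
    have h5 : Tendsto (fun k => p a₀ ^ m₀ * ((u k)⁻¹ * g k) * (p a₀ ^ m₀)⁻¹) U (𝓝 1) := by
      have h := (((hu1.inv.mul hg).const_mul (p a₀ ^ m₀)).mul_const (p a₀ ^ m₀)⁻¹).mono_left hU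
      rwa [inv_one, mul_one, mul_one, mul_inv_cancel] at h
    have h6 : v = 1 := by
      rw [← H.eq_one]
      intro c
      have h7 : Tendsto (fun k => p a₀ ^ (m k) * ((u k)⁻¹ * g k) * (p a₀ ^ (m k))⁻¹) U (𝓝 1) := by
        refine h5.congr' ?_
        filter_upwards [hm₀] with k hk
        rw [hk]
      exact tendsto_nhds_unique (((H.cont c).tendsto v).comp hw2) (H.tend_one.1 h7 c)
    apply hvS
    rw [h6]
    exact one_mem _
  -- weak limit
  have hstb0 : ∀ k, a₀ ^ (m k) ∈ stb (G := G) μ := fun k => pow_mem ha₀ _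
  set f : ℕ → Lp ℝ 2 μ := fun k => ind μ ((fun z => (a₀ ^ (m k))⁻¹ • z) ⁻¹' F)
    (meas_smul (a₀ ^ (m k))⁻¹ hF) with hf
  have hfn : ∀ k, ‖f k‖ ≤ 1 := by
    intro k
    simp only [hf, ind]
    rw [norm_indicatorConstLp (by norm_num) (by norm_num)]
    simp only [norm_one, ENNReal.toReal_ofNat, one_mul]
    exact Real.rpow_le_one measureReal_nonneg measureReal_le_one (by norm_num)
  obtain ⟨φ, hφ⟩ := weak_limit U f 1 hfn
  have h0 : ∫ x, φ x ∂μ ≠ 0 := by
    have h1 := hφ (ind μ Set.univ MeasurableSet.univ)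
    rw [inner_one] at h1
    have h2 : ∀ k, inner ℝ (f k) (ind μ Set.univ MeasurableSet.univ) = μ.real F := by
      intro k
      rw [inner_one]
      have h3 := int_ind μ (a₀ ^ (m k)) (hstb0 k) F hF (fun _ => 1) measurable_const
      simp only [one_mul, integral_const, smul_eq_mul, mul_one,
        measureReal_restrict_apply MeasurableSet.univ, Set.univ_inter] at h3
      exact h3
    simp_rw [h2] at h1
    rw [tendsto_nhds_unique h1 tendsto_const_nhds]
    rw [measureReal_def, Ne, ENNReal.toReal_eq_zero_iff]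
    push Not
    exact ⟨hF0, measure_ne_top _ _⟩
  -- symmetries of the weak limit
  have hSD : gS j (p a₀) μ ≤ gD j (p a₀) μ φ := by
    intro v hv
    refine ⟨hv.1, ?_⟩
    have hvk : ∀ k, j ((p a₀ ^ (m k))⁻¹ * v * p a₀ ^ (m k)) ∈ stb (G := G) μ := by
      intro k
      have h1 := hjp (a₀ ^ (m k))⁻¹ v
      rw [inv_inv, map_inv, inv_inv, map_pow] at h1
      rw [← h1]
      exact mul_mem (mul_mem (inv_mem (hstb0 k)) hv.2) (hstb0 k)
    refine limit_inv U μ (fun k => a₀ ^ (m k)) hstb0 F hF φ hφ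
      (fun k => j ((p a₀ ^ (m k))⁻¹ * v * p a₀ ^ (m k))) ?_ (j v) ?_
    · refine tv_ac _ ?_ μ _ (tv_of_inv _ μ hvk) hres
      have h1 := H.contract v ((H.mem_up v).1 hv.1) m U hm
      have := (hj.tendsto 1).comp h1
      rwa [map_one] at this
    · refine tendsto_const_nhds.congr fun k => ?_
      rw [hjp, map_pow]
      congr 1
      group
  have hwD : v ∈ gD j (p a₀) μ φ :=
    ⟨hvup, limit_inv U μ (fun k => a₀ ^ (m k)) hstb0 F hF φ hφ _ hTVU (j v) hw3⟩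
  exact hvS (hup φ h0 hSD hwD)

omit [IsTopologicalGroup L] [Fintype C] in
/-- the gauge of the inverse -/
lemma IsGauge.inv {a : L} (H : IsGauge s a w) : IsGauge s a⁻¹ (fun c => - w c) where
  nonneg := H.nonneg
  cont := H.cont
  eq_one := H.eq_one
  cpt := H.cpt
  conj := by
    intro c h
    have h1 := H.conj_pow' c h 1
    rw [pow_one] at h1
    rw [inv_inv, h1]
    simp

/-- Decomposition of asymptotic symmetries. -/
theorem tv_gauge_dec (hj : Continuous j)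
    (hjp : ∀ (g : G) (u : L), g * j u * g⁻¹ = j (p g * u * (p g)⁻¹))
    (A : Subgroup G) (μ : Measure X) [IsProbabilityMeasure μ]
    (hμ : ∀ a ∈ A, μ.map (fun z => a • z) = μ)
    (herg : ∀ s : Set X, MeasurableSet s → (∀ a ∈ A, (fun z => a • z) ⁻¹' s =ᵐ[μ] s) →
      μ s = 0 ∨ μ sᶜ = 0)
    (a₀ : G) (ha₀ : a₀ ∈ A) (H : IsGauge s (p a₀) w)
    (hup : ∀ φ : Lp ℝ 2 μ, ∫ x, φ x ∂μ ≠ 0 → gS j (p a₀) μ ≤ gD j (p a₀) μ φ →
      gD j (p a₀) μ φ ≤ gS j (p a₀) μ)
    (hup' : ∀ φ : Lp ℝ 2 μ, ∫ x, φ x ∂μ ≠ 0 → gS j (p a₀⁻¹) μ ≤ gD j (p a₀⁻¹) μ φ →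
      gD j (p a₀⁻¹) μ φ ≤ gS j (p a₀⁻¹) μ)
    (hcen : ∀ z : L, (∀ c, w c ≠ 0 → s c z = 0) → ∀ b ∈ A, b * j z = j z * b)
    (ν : Measure X) [IsFiniteMeasure ν] (hns : ¬ μ ⟂ₘ ν) (g : ℕ → L)
    (hg : Tendsto g atTop (𝓝 1)) (hTV : TVto atTop (fun k => j (g k)) ν) :
    ∃ u u' : ℕ → L, (∀ k, u k ∈ gS j (p a₀) μ) ∧ (∀ k, u' k ∈ gS j (p a₀⁻¹) μ) ∧
      ∀ᶠ k in atTop, (∀ c, w c ≠ 0 → s c ((u' k)⁻¹ * ((u k)⁻¹ * g k)) = 0) ∧
        j (g k) ∈ stb (G := G) μ := by
  classical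
  obtain ⟨F, hF, hF0, hac⟩ := exists_ac_part μ ν hns
  have hres : (μ.restrict F) ≪ μ := Measure.restrict_le_self.absolutelyContinuous
  have htend : ∀ u : ℕ → L, Tendsto u atTop (𝓝 1) → Tendsto (fun k => j (u k)) atTop (𝓝 1) := by
    intro u hu
    have := (hj.tendsto 1).comp hu
    rwa [map_one] at this
  have hTVF : TVto atTop (fun k => j (g k)) (μ.restrict F) := tv_ac _ (htend g hg) ν _ hTV hac
  have hstb : ∀ a ∈ A, a ∈ stb (G := G) μ := fun a ha => hμ a ha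
  have H' : IsGauge s (p a₀⁻¹) (fun c => - w c) := by
    rw [map_inv]
    exact H.inv
  -- first step
  obtain ⟨u, huS, hu1, hulow⟩ := pos_part_gen j p hj hjp μ a₀ (hstb a₀ ha₀) H hup F hF hF0 g
    hg hTVF
  have tvS : ∀ u : ℕ → L, Tendsto u atTop (𝓝 1) → (∀ k, j (u k) ∈ stb (G := G) μ) →
      TVto atTop (fun k => j (u k)) (μ.restrict F) := fun u hu hS =>
    tv_ac _ (htend u hu) μ _ (tv_of_inv _ μ hS) hres
  have tvQ : ∀ u g : ℕ → L, TVto atTop (fun k => j (u k)) (μ.restrict F) →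
      TVto atTop (fun k => j (g k)) (μ.restrict F) →
      TVto atTop (fun k => j ((u k)⁻¹ * g k)) (μ.restrict F) := by
    intro u g hu hg
    have h1 := tv_mul _ _ _ (tv_inv _ _ hu) hg
    intro ε hε
    filter_upwards [h1 ε hε] with k hk
    rw [map_mul, map_inv]
    exact hk
  have hh1 : Tendsto (fun k => (u k)⁻¹ * g k) atTop (𝓝 1) := by
    have := hu1.inv.mul hg
    simpa using this
  have hhTV := tvQ u g (tvS u hu1 fun k => (huS k).2) hTVF
  obtain ⟨u', huS', hu1', hulow'⟩ := pos_part_gen j p hj hjp μ a₀⁻¹ (inv_mem (hstb a₀ ha₀)) H'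
    hup' F hF hF0 (fun k => (u k)⁻¹ * g k) hh1 hhTV
  have hz1 : Tendsto (fun k => (u' k)⁻¹ * ((u k)⁻¹ * g k)) atTop (𝓝 1) := by
    have := hu1'.inv.mul hh1
    simpa using this
  have hzTV := tvQ u' _ (tvS u' hu1' fun k => (huS' k).2) hhTV
  -- a small total variation excludes singularity
  have hF0' : 0 < (μ.restrict F).real Set.univ := by
    rw [measureReal_restrict_apply MeasurableSet.univ, Set.univ_inter, measureReal_def]
    exact ENNReal.toReal_pos hF0 (measure_ne_top _ _)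
  refine ⟨u, u', huS, huS', ?_⟩
  filter_upwards [hulow, hulow', hzTV _ (half_pos hF0')] with k hk hk' hkTV
  set z : L := (u' k)⁻¹ * ((u k)⁻¹ * g k) with hz
  have hzlow : z ∈ gLow (p a₀) := by
    refine mul_mem (inv_mem ?_) hk
    rw [H.mem_low]
    intro c hc
    exact (H'.mem_up _).1 (huS' k).1 c (by linarith)
  have hzero : ∀ c, w c ≠ 0 → s c z = 0 := by
    intro c hc
    rcases lt_or_gt_of_ne hc with h | h
    · exact (H'.mem_low z).1 hk' c (by linarith)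
    · exact (H.mem_low z).1 hzlow c h
  have hcomm : ∀ b ∈ A, b * j z = j z * b := hcen z hzero
  refine ⟨hzero, ?_⟩
  have hzS : j z ∈ stb (G := G) μ := by
    refine commute_inv μ A hμ herg (j z) hcomm ?_
    rintro ⟨S, hS, h1, h2⟩
    rw [Measure.map_apply (meas_smul _) hS] at h1
    have h3 := hkTV Sᶜ hS.compl
    have h4 : (μ.restrict F).real Sᶜ = 0 := by
      rw [measureReal_def, measure_mono_null (le_refl _) (hres h2), ENNReal.toReal_zero]
    have h5 : (μ.restrict F).real ((fun x => j z • x) ⁻¹' S) = 0 := by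
      rw [measureReal_def, hres h1, ENNReal.toReal_zero]
    have h6 : (μ.restrict F).real ((fun x => j z • x) ⁻¹' Sᶜ) = (μ.restrict F).real Set.univ := by
      rw [Set.preimage_compl, measureReal_compl (meas_smul _ hS), h5, sub_zero]
    have h7 : (μ.restrict F).real ((fun x => j z • x) ⁻¹' Sᶜ) ≤ (μ.restrict F).real Sᶜ
        + (μ.restrict F).real Set.univ / 2 := h3
    rw [h6, h4] at h7
    linarith
  have e : g k = u k * (u' k * z) := by rw [hz]; group
  rw [e, map_mul, map_mul]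
  exact mul_mem (huS k).2 (mul_mem (huS' k).2 hzS)

/-- Total variation rigidity for a group with a gauge. -/
theorem tv_rigid_gauge (hj : Continuous j)
    (hjp : ∀ (g : G) (u : L), g * j u * g⁻¹ = j (p g * u * (p g)⁻¹))
    (A : Subgroup G) (μ : Measure X) [IsProbabilityMeasure μ]
    (hμ : ∀ a ∈ A, μ.map (fun z => a • z) = μ)
    (herg : ∀ s : Set X, MeasurableSet s → (∀ a ∈ A, (fun z => a • z) ⁻¹' s =ᵐ[μ] s) →
      μ s = 0 ∨ μ sᶜ = 0)
    (a₀ : G) (ha₀ : a₀ ∈ A) (H : IsGauge s (p a₀) w)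
    (hup : ∀ φ : Lp ℝ 2 μ, ∫ x, φ x ∂μ ≠ 0 → gS j (p a₀) μ ≤ gD j (p a₀) μ φ →
      gD j (p a₀) μ φ ≤ gS j (p a₀) μ)
    (hup' : ∀ φ : Lp ℝ 2 μ, ∫ x, φ x ∂μ ≠ 0 → gS j (p a₀⁻¹) μ ≤ gD j (p a₀⁻¹) μ φ →
      gD j (p a₀⁻¹) μ φ ≤ gS j (p a₀⁻¹) μ)
    (hcen : ∀ z : L, (∀ c, w c ≠ 0 → s c z = 0) → ∀ b ∈ A, b * j z = j z * b)
    (ν : Measure X) [IsFiniteMeasure ν] (hns : ¬ μ ⟂ₘ ν) (g : ℕ → L)
    (hg : Tendsto g atTop (𝓝 1)) (hTV : TVto atTop (fun k => j (g k)) ν) :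
    ∀ᶠ k in atTop, j (g k) ∈ stb (G := G) μ := by
  obtain ⟨u, u', -, -, h⟩ := tv_gauge_dec j p hj hjp A μ hμ herg a₀ ha₀ H hup hup' hcen ν hns g
    hg hTV
  exact h.mono fun k hk => hk.2

end Pool.Agent.Work.MP_67388f_an
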