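import Pool.Agent.Work.MP_67388f_an.TS.Step

set_option autoImplicit false

namespace Pool.Agent.Work.MP_67388f_an

open MeasureTheory Filter Topology Matrix

/-- The group `SL(n₀, ℝ) × ∏ SL(n v, ℚ_[q v])`. -/
abbrev SLS {ι : Type*} (n₀ : ℕ) (n : ι → ℕ) (q : ι → ℕ) [∀ v, Fact (q v).Prime] : Type _ :=
  SpecialLinearGroup (Fin n₀) ℝ × ((v : ι) → SpecialLinearGroup (Fin (n v)) ℚ_[q v])

section box

variable {n : ℕ} {K : Type*} [NormedField K]

lemma isClosedEmbedding_slval :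
    IsClosedEmbedding (fun h : SpecialLinearGroup (Fin n) K => h.1) := by
  refine IsClosed.isClosedEmbedding_subtypeVal ?_
  exact isClosed_eq (by fun_prop) continuous_const

lemma sl_box_compact [ProperSpace K] (R : ℝ) :
    IsCompact {h : SpecialLinearGroup (Fin n) K |
      ∀ i j, ‖h.1 i j - (1 : Matrix (Fin n) (Fin n) K) i j‖ ≤ R} := by
  have h1 : IsCompact (Set.pi Set.univ fun i : Fin n => Set.pi Set.univ fun j : Fin n =>
      Metric.closedBall ((1 : Matrix (Fin n) (Fin n) K) i j) R) :=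
    isCompact_univ_pi fun i => isCompact_univ_pi fun j => isCompact_closedBall _ _
  have h2 := (isClosedEmbedding_slval (n := n) (K := K)).isCompact_preimage h1
  convert h2 using 1
  ext h
  constructor
  · intro H i _ j _
    rw [Metric.mem_closedBall, dist_eq_norm]
    exact H i j
  · intro H i j
    have h3 := H i (Set.mem_univ i) j (Set.mem_univ j)
    rw [Metric.mem_closedBall, dist_eq_norm] at h3
    exact h3

lemma sl_cont_entry (i j : Fin n) :
    Continuous (fun h : SpecialLinearGroup (Fin n) K => h.1 i j) := by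
  have : Continuous (fun h : SpecialLinearGroup (Fin n) K => h.1) := continuous_subtype_val
  exact (continuous_apply j).comp ((continuous_apply i).comp this)

/-- conjugation by a diagonal matrix scales the distance to one -/
lemma sl_conj_norm {β : Fin n → K} {a : SpecialLinearGroup (Fin n) K} (ha : a.1 = diagonal β)
    (h : SpecialLinearGroup (Fin n) K) (i j : Fin n) :
    ‖(a * h * a⁻¹).1 i j - (1 : Matrix (Fin n) (Fin n) K) i j‖ =
      Real.exp (Real.log ‖β i‖ - Real.log ‖β j‖) *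
        ‖h.1 i j - (1 : Matrix (Fin n) (Fin n) K) i j‖ := by
  have h1 := sl_conj_entry ha h 1 i j
  rw [pow_one, pow_one, pow_one] at h1
  rw [h1, Real.exp_sub, Real.exp_log (norm_pos_iff.2 (sl_diag_ne ha i)),
    Real.exp_log (norm_pos_iff.2 (sl_diag_ne ha j))]
  have h2 : β i * (β j)⁻¹ * h.1 i j - (1 : Matrix (Fin n) (Fin n) K) i j =
      β i * (β j)⁻¹ * (h.1 i j - (1 : Matrix (Fin n) (Fin n) K) i j) := by
    by_cases hij : i = j
    · subst hij
      rw [mul_inv_cancel₀ (sl_diag_ne ha i)]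
      ring
    · rw [Matrix.one_apply_ne hij]; ring
  rw [h2, norm_mul, norm_mul, norm_inv, div_eq_mul_inv]

end box

variable {ι : Type*} [Fintype ι] {n₀ : ℕ} {n : ι → ℕ} {q : ι → ℕ} [hqp : ∀ v, Fact (q v).Prime]
variable {G : Type*} [Group G]
variable {L : Type*} [Group L] [TopologicalSpace L] [IsTopologicalGroup L]

/-- Data of a regular element of the acting group. -/
structure SData (κ : L →* SLS n₀ n q) (p : G →* L) (A : Subgroup G) (a₀ : G) (α : Fin n₀ → ℝ)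
    (β : (v : ι) → Fin (n v) → ℚ_[q v]) : Prop where
  mem : a₀ ∈ A
  pos : ∀ i, 0 < α i
  eqR : (κ (p a₀)).1.1 = diagonal α
  eqP : ∀ v, ((κ (p a₀)).2 v).1 = diagonal (β v)
  regR : ∀ b ∈ A, ∃ β' : Fin n₀ → ℝ, (κ (p b)).1.1 = diagonal β' ∧
    ∀ l : ℝ, ∃ c : ℝ, ∀ i j, wt α i j = l → β' i = c * β' j
  regP : ∀ b ∈ A, ∀ v, ∃ β' : Fin (n v) → ℚ_[q v], ((κ (p b)).2 v).1 = diagonal β' ∧
    ∀ l : ℝ, ∃ c : ℚ_[q v], ∀ i j, Real.log ‖β v i‖ - Real.log ‖β v j‖ = l → β' i = c * β' j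

/-- the coordinates -/
noncomputable def scoord (κ : L →* SLS n₀ n q) :
    ((Fin n₀ × Fin n₀) ⊕ (Σ v : ι, Fin (n v) × Fin (n v))) → L → ℝ
  | Sum.inl c, h => ‖(κ h).1.1 c.1 c.2 - (1 : Matrix (Fin n₀) (Fin n₀) ℝ) c.1 c.2‖
  | Sum.inr c, h => ‖((κ h).2 c.1).1 c.2.1 c.2.2 -
      (1 : Matrix (Fin (n c.1)) (Fin (n c.1)) ℚ_[q c.1]) c.2.1 c.2.2‖

/-- the weights -/
noncomputable def swt (α : Fin n₀ → ℝ) (β : (v : ι) → Fin (n v) → ℚ_[q v]) :
    ((Fin n₀ × Fin n₀) ⊕ (Σ v : ι, Fin (n v) × Fin (n v))) → ℝ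
  | Sum.inl c => wt α c.1 c.2
  | Sum.inr c => Real.log ‖β c.1 c.2.1‖ - Real.log ‖β c.1 c.2.2‖

omit [IsTopologicalGroup L] in
/-- the gauge -/
theorem SData.gauge {κ : L →* SLS n₀ n q} (hκ : IsClosedEmbedding κ) {p : G →* L}
    {A : Subgroup G} {a₀ : G} {α : Fin n₀ → ℝ} {β : (v : ι) → Fin (n v) → ℚ_[q v]}
    (D : SData κ p A a₀ α β) : IsGauge (scoord κ) (p a₀) (swt α β) where
  nonneg := by
    rintro (c | c) h
    · exact norm_nonneg _
    · exact norm_nonneg _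
  cont := by
    rintro (c | c)
    · have h1 : Continuous (fun h : L => (κ h).1.1 c.1 c.2) :=
        (sl_cont_entry c.1 c.2).comp (continuous_fst.comp hκ.continuous)
      exact (h1.sub continuous_const).norm
    · have h1 : Continuous (fun h : L => ((κ h).2 c.1).1 c.2.1 c.2.2) :=
        (sl_cont_entry c.2.1 c.2.2).comp
          ((continuous_apply c.1).comp (continuous_snd.comp hκ.continuous))
      exact (h1.sub continuous_const).norm
  eq_one := by
    intro h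
    constructor
    · intro H
      apply hκ.injective
      rw [map_one]
      refine Prod.ext ?_ ?_
      · apply Subtype.ext
        ext i j
        have h1 : ‖(κ h).1.1 i j - (1 : Matrix (Fin n₀) (Fin n₀) ℝ) i j‖ = 0 := H (Sum.inl (i, j))
        rw [norm_eq_zero, sub_eq_zero] at h1
        exact h1
      · funext v
        apply Subtype.ext
        ext i j
        have h1 : ‖((κ h).2 v).1 i j - (1 : Matrix (Fin (n v)) (Fin (n v)) ℚ_[q v]) i j‖ = 0 :=
          H (Sum.inr ⟨v, i, j⟩)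
        rw [norm_eq_zero, sub_eq_zero] at h1
        exact h1
    · rintro rfl
      rintro (c | c)
      · show ‖(κ 1).1.1 c.1 c.2 - (1 : Matrix (Fin n₀) (Fin n₀) ℝ) c.1 c.2‖ = 0
        rw [map_one]
        show ‖(1 : Matrix (Fin n₀) (Fin n₀) ℝ) c.1 c.2 - _‖ = 0
        rw [sub_self, norm_zero]
      · show ‖((κ 1).2 c.1).1 c.2.1 c.2.2 -
          (1 : Matrix (Fin (n c.1)) (Fin (n c.1)) ℚ_[q c.1]) c.2.1 c.2.2‖ = 0
        rw [map_one]
        show ‖(1 : Matrix (Fin (n c.1)) (Fin (n c.1)) ℚ_[q c.1]) c.2.1 c.2.2 - _‖ = 0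
        rw [sub_self, norm_zero]
  cpt := by
    intro R
    have h1 := (sl_box_compact (n := n₀) (K := ℝ) R).prod (isCompact_univ_pi fun v : ι =>
      sl_box_compact (n := n v) (K := ℚ_[q v]) R)
    have h2 := hκ.isCompact_preimage h1
    convert h2 using 1
    ext h
    constructor
    · intro H
      refine ⟨fun i j => H (Sum.inl (i, j)), fun v _ i j => H (Sum.inr ⟨v, i, j⟩)⟩
    · rintro ⟨H1, H2⟩ (c | c)
      · exact H1 c.1 c.2
      · exact H2 c.1 (Set.mem_univ _) c.2.1 c.2.2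
  conj := by
    rintro (c | c) h
    · show ‖(κ (p a₀ * h * (p a₀)⁻¹)).1.1 c.1 c.2 - _‖ = _
      rw [map_mul, map_mul, map_inv]
      have h1 := sl_conj_norm D.eqR (κ h).1 c.1 c.2
      rw [Real.norm_of_nonneg (D.pos c.1).le, Real.norm_of_nonneg (D.pos c.2).le] at h1
      exact h1
    · show ‖((κ (p a₀ * h * (p a₀)⁻¹)).2 c.1).1 c.2.1 c.2.2 - _‖ = _
      rw [map_mul, map_mul, map_inv]
      exact sl_conj_norm (D.eqP c.1) ((κ h).2 c.1) c.2.1 c.2.2

/-- membership in the expanding group -/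
lemma SData.mem_up {κ : L →* SLS n₀ n q} (hκ : IsClosedEmbedding κ) {p : G →* L}
    {A : Subgroup G} {a₀ : G} {α : Fin n₀ → ℝ} {β : (v : ι) → Fin (n v) → ℚ_[q v]}
    (D : SData κ p A a₀ α β) (u : L) : u ∈ gUp (p a₀) ↔ IsUp α (κ u).1 ∧
      ∀ v, Ggt (fun i => Real.log ‖β v i‖) 0 (((κ u).2 v).1 - 1) := by
  rw [(D.gauge hκ).mem_up]
  constructor
  · intro H
    refine ⟨fun i j hij => ?_, fun v i j hij => ?_⟩
    · have h1 : ‖(κ u).1.1 i j - (1 : Matrix (Fin n₀) (Fin n₀) ℝ) i j‖ = 0 :=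
        H (Sum.inl (i, j)) hij
      rw [norm_eq_zero, sub_eq_zero] at h1
      exact h1
    · have h1 : ‖((κ u).2 v).1 i j - (1 : Matrix (Fin (n v)) (Fin (n v)) ℚ_[q v]) i j‖ = 0 :=
        H (Sum.inr ⟨v, i, j⟩) hij
      rw [norm_eq_zero] at h1
      exact h1
  · rintro ⟨H1, H2⟩ (c | c) hc
    · have h1 : (κ u).1.1 c.1 c.2 = (1 : Matrix (Fin n₀) (Fin n₀) ℝ) c.1 c.2 := H1 c.1 c.2 hc
      show ‖(κ u).1.1 c.1 c.2 - _‖ = 0
      rw [h1, sub_self, norm_zero]
    · have h1 := H2 c.1 c.2.1 c.2.2 hc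
      show ‖((κ u).2 c.1).1 c.2.1 c.2.2 - _‖ = 0
      rw [norm_eq_zero]
      exact h1

omit [Fintype ι] [TopologicalSpace L] [IsTopologicalGroup L] in
/-- the inverse of a regular element -/
lemma SData.inv {κ : L →* SLS n₀ n q} {p : G →* L}
    {A : Subgroup G} {a₀ : G} {α : Fin n₀ → ℝ} {β : (v : ι) → Fin (n v) → ℚ_[q v]}
    (D : SData κ p A a₀ α β) :
    SData κ p A a₀⁻¹ (fun i => (α i)⁻¹) (fun v i => (β v i)⁻¹) where
  mem := inv_mem D.mem
  pos := fun i => inv_pos.2 (D.pos i)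
  eqR := by
    have h := sl_conj_entry (K := ℝ) D.eqR 1 1
    have h1 : (κ (p a₀)).1.1 * ((κ (p a₀⁻¹)).1).1 = 1 := by
      have : (κ (p a₀)).1 * (κ (p a₀⁻¹)).1 = 1 := by
        rw [← Prod.fst_mul, ← map_mul, ← map_mul, mul_inv_cancel, map_one, map_one]; rfl
      exact congrArg Subtype.val this
    have h2 : diagonal (fun i => (α i)⁻¹) * (κ (p a₀)).1.1 = 1 := by
      rw [D.eqR, diagonal_mul_diagonal, ← diagonal_one]
      congr 1
      funext i
      exact inv_mul_cancel₀ (D.pos i).ne'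
    calc (κ (p a₀⁻¹)).1.1 = (diagonal (fun i => (α i)⁻¹) * (κ (p a₀)).1.1) * (κ (p a₀⁻¹)).1.1 := by
          rw [h2, one_mul]
      _ = diagonal (fun i => (α i)⁻¹) := by rw [mul_assoc, h1, mul_one]
  eqP := by
    intro v
    have h1 : ((κ (p a₀)).2 v).1 * ((κ (p a₀⁻¹)).2 v).1 = 1 := by
      have : (κ (p a₀)).2 v * (κ (p a₀⁻¹)).2 v = 1 := by
        rw [← Pi.mul_apply, ← Prod.snd_mul, ← map_mul, ← map_mul, mul_inv_cancel, map_one, map_one]
        rfl
      exact congrArg Subtype.val this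
    have h2 : diagonal (fun i => (β v i)⁻¹) * ((κ (p a₀)).2 v).1 = 1 := by
      rw [D.eqP, diagonal_mul_diagonal, ← diagonal_one]
      congr 1
      funext i
      exact inv_mul_cancel₀ (sl_diag_ne (D.eqP v) i)
    calc ((κ (p a₀⁻¹)).2 v).1
        = (diagonal (fun i => (β v i)⁻¹) * ((κ (p a₀)).2 v).1) * ((κ (p a₀⁻¹)).2 v).1 := by
          rw [h2, one_mul]
      _ = diagonal (fun i => (β v i)⁻¹) := by rw [mul_assoc, h1, mul_one]
  regR := by
    intro b hb
    obtain ⟨β', h1, h2⟩ := D.regR b hb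
    refine ⟨β', h1, fun l => ?_⟩
    obtain ⟨c, hc⟩ := h2 (-l)
    refine ⟨c, fun i k hik => hc i k ?_⟩
    rw [wt_inv] at hik
    linarith
  regP := by
    intro b hb v
    obtain ⟨β', h1, h2⟩ := D.regP b hb v
    refine ⟨β', h1, fun l => ?_⟩
    obtain ⟨c, hc⟩ := h2 (-l)
    refine ⟨c, fun i k hik => hc i k ?_⟩
    rw [norm_inv, norm_inv, Real.log_inv, Real.log_inv] at hik
    linarith

end Pool.Agent.Work.MP_67388f_an
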