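import Pool.Agent.Work.MP_67388f_an.TS.Pos
import Pool.Agent.Work.MP_67388f_an.TS.Plim
import Pool.Agent.Work.MP_67388f_an.TS.Crt

set_option autoImplicit false

namespace Pool.Agent.Work.MP_67388f_an

open MeasureTheory Filter Topology Matrix

section general

variable {X : Type*} [TopologicalSpace X] [LocallyCompactSpace X] [T2Space X]
  [SecondCountableTopology X] [MeasurableSpace X] [BorelSpace X]
variable {G : Type*} [Group G] [TopologicalSpace G] [IsTopologicalGroup G] [MulAction G X]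
  [ContinuousSMul G X]
variable {L : Type*} [Group L] [TopologicalSpace L] [IsTopologicalGroup L]

/-- Renormalized powers of a symmetry of `φ μ` filling a set normalized by `A` are symmetries of
`μ`. -/
theorem step_gen (j : L →* G) (p : G →* L) (hj : Continuous j)
    (hjp : ∀ (g : G) (u : L), g * j u * g⁻¹ = j (p g * u * (p g)⁻¹))
    (A : Subgroup G) (μ : Measure X) [IsProbabilityMeasure μ]
    (hμ : ∀ a ∈ A, μ.map (fun z => a • z) = μ)
    (herg : ∀ s : Set X, MeasurableSet s → (∀ a ∈ A, (fun z => a • z) ⁻¹' s =ᵐ[μ] s) →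
      μ s = 0 ∨ μ sᶜ = 0)
    (b₀ : G) (hb₀ : b₀ ∈ A) (φ : Lp ℝ 2 μ) (h0 : ∫ x, φ x ∂μ ≠ 0) (v : L)
    (hv : InvD μ (j v) φ) (T : Set L) (hTA : ∀ b ∈ A, ∀ t ∈ T, p b * t * (p b)⁻¹ ∈ T)
    (hlim : ∀ t ∈ T,
      (∃ k : ℕ → ℕ, Tendsto (fun m => p b₀ ^ m * v ^ (k m) * (p b₀ ^ m)⁻¹) atTop (𝓝 t)) ∨
      (∃ k : ℕ → ℕ, Tendsto (fun m => p b₀ ^ m * v ^ (k m) * (p b₀ ^ m)⁻¹) atTop (𝓝 t⁻¹))) :
    ∀ t ∈ T, j t ∈ stb (G := G) μ := by
  classical
  set U : Ultrafilter ℕ := hyperfilter ℕ with hU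
  have hUle : (U : Filter ℕ) ≤ atTop := by
    rw [← Nat.cofinite_eq_atTop]
    exact hyperfilter_le_cofinite
  have hmem : ∀ m : ℕ, b₀ ^ m ∈ A := fun m => pow_mem hb₀ m
  have hmp : ∀ m : ℕ, MeasurePreserving (fun x : X => (b₀ ^ m)⁻¹ • x) μ μ := fun m =>
    ⟨meas_smul _, hμ _ (inv_mem (hmem m))⟩
  set f : ℕ → Lp ℝ 2 μ := fun m =>
    Lp.compMeasurePreserving (fun x : X => (b₀ ^ m)⁻¹ • x) (hmp m) φ with hf
  have hfn : ∀ m, ‖f m‖ ≤ ‖φ‖ := fun m => by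
    rw [hf]
    exact (Lp.norm_compMeasurePreserving φ (hmp m)).le
  have hfc : ∀ m, ((f m : Lp ℝ 2 μ) : X → ℝ) =ᵐ[μ] fun x => φ ((b₀ ^ m)⁻¹ • x) := fun m =>
    Lp.coeFn_compMeasurePreserving φ (hmp m)
  obtain ⟨φ', hφ'⟩ := weak_limit U f ‖φ‖ hfn
  -- first moment of φ'
  have h0' : ∫ x, φ' x ∂μ ≠ 0 := by
    have h1 := hφ' (ind μ Set.univ MeasurableSet.univ)
    rw [inner_one] at h1
    have h2 : ∀ m, inner ℝ (f m) (ind μ Set.univ MeasurableSet.univ) = ∫ x, φ x ∂μ := by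
      intro m
      rw [inner_one, integral_congr_ae (hfc m)]
      exact (hmp m).integral_comp (Homeomorph.smul (b₀ ^ m)⁻¹).measurableEmbedding _
    simp_rw [h2] at h1
    rw [tendsto_nhds_unique h1 tendsto_const_nhds]
    exact h0
  have key : ∀ t : L, (∃ k : ℕ → ℕ,
      Tendsto (fun m => p b₀ ^ m * v ^ (k m) * (p b₀ ^ m)⁻¹) atTop (𝓝 t)) → InvD μ (j t) φ' := by
    rintro t ⟨k, hlim2⟩
    have hlim3 : Tendsto (fun m => j (p b₀ ^ m * v ^ (k m) * (p b₀ ^ m)⁻¹)) U (𝓝 (j t)) :=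
      ((hj.tendsto t).comp hlim2).mono_left hUle
    refine invD_limit U μ f ‖φ‖ hfn φ' hφ' _ (j t) hlim3 ?_
    intro θ hθ
    refine tendsto_const_nhds.congr fun m => ?_
    symm
    rw [sub_eq_zero]
    have h1 : InvD μ (b₀ ^ m * j (v ^ (k m)) * (b₀ ^ m)⁻¹) (fun x => φ ((b₀ ^ m)⁻¹ • x)) := by
      refine invD_conj μ φ _ _ (hμ _ (hmem m)) ?_
      rw [map_pow]
      exact invD_pow μ φ _ hv _
    have h2 : b₀ ^ m * j (v ^ (k m)) * (b₀ ^ m)⁻¹ = j (p b₀ ^ m * v ^ (k m) * (p b₀ ^ m)⁻¹) := by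
      rw [hjp, map_pow p]
    rw [h2] at h1
    have h3 := h1 θ hθ
    have e4 : ∀ ψ : X → ℝ, ∫ x, ψ x * f m x ∂μ = ∫ x, ψ x * φ ((b₀ ^ m)⁻¹ • x) ∂μ := by
      intro ψ
      refine integral_congr_ae ?_
      filter_upwards [hfc m] with x hx
      rw [hx]
    rw [e4 (fun x => θ (j (p b₀ ^ m * v ^ (k m) * (p b₀ ^ m)⁻¹) • x)), e4 (fun x => θ x)]
    exact h3
  -- the normalized set
  have hTA' : ∀ a ∈ A, ∀ g ∈ j '' T, a * g * a⁻¹ ∈ j '' T := by
    rintro b hb g ⟨t, ht, rfl⟩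
    exact ⟨_, hTA b hb t ht, (hjp b t).symm⟩
  have hTD : ∀ g ∈ j '' T, InvD μ g φ' := by
    rintro g ⟨t, ht, rfl⟩
    rcases hlim t ht with h | h
    · exact key t h
    · have h1 := invD_inv μ φ' _ (key t⁻¹ h)
      rwa [← map_inv, inv_inv] at h1
  have hinv := spread μ A hμ herg (j '' T) hTA' φ' hTD h0'
  intro t ht
  exact hinv (j t) ⟨t, ht, rfl⟩

end general

section conjexp

variable {n : ℕ} {K : Type*} [NormedField K] [CharZero K]

lemma exp_conj_K {β : Fin n → K} (b e : SpecialLinearGroup (Fin n) K)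
    (hb : b.1 = diagonal β) (Y : Matrix (Fin n) (Fin n) K) (hYn : Y ^ n = 0) (c x : K)
    (hc : ∀ i j, Y i j ≠ 0 → β i = c * β j) (he : e.1 = IsNilpotent.exp (x • Y)) :
    (b * e * b⁻¹).1 = IsNilpotent.exp ((c * x) • Y) := by
  classical
  have h1 : b.1 * Y = c • (Y * b.1) := by
    ext i j
    rw [hb, diagonal_mul, Matrix.smul_apply, mul_diagonal, smul_eq_mul]
    by_cases h : Y i j = 0
    · rw [h]; ring
    · rw [hc i j h]; ring
  have h2 : ∀ r : ℕ, b.1 * Y ^ r = c ^ r • (Y ^ r * b.1) := by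
    intro r
    induction r with
    | zero => simp
    | succ r ih =>
      rw [pow_succ, ← mul_assoc, ih, smul_mul_assoc, mul_assoc, h1, mul_smul_comm, smul_smul,
        ← pow_succ, ← mul_assoc]
  have hxn : ∀ y : K, (y • Y) ^ n = 0 := fun y => by rw [smul_pow, hYn, smul_zero]
  have key : b.1 * e.1 = IsNilpotent.exp ((c * x) • Y) * b.1 := by
    rw [he, IsNilpotent.exp_eq_sum (hxn x), IsNilpotent.exp_eq_sum (hxn (c * x)), Finset.mul_sum,
      Finset.sum_mul]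
    refine Finset.sum_congr rfl fun r _ => ?_
    rw [smul_pow, smul_pow, mul_smul_comm, mul_smul_comm, h2, smul_mul_assoc, smul_mul_assoc,
      smul_smul (x ^ r), ← mul_pow, mul_comm x c]
  have h3 : (b * e * b⁻¹).1 = b.1 * e.1 * (b⁻¹).1 := rfl
  have h4 : b.1 * (b⁻¹).1 = 1 := congrArg Subtype.val (mul_inv_cancel b)
  rw [h3, key, mul_assoc, h4, mul_one]

end conjexp

end Pool.Agent.Work.MP_67388f_an
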