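import Pool.Agent.Work.MP_67388f_an.TS.AlongS

set_option autoImplicit false

namespace Pool.Agent.Work.MP_67388f_an

open MeasureTheory Filter Topology Matrix

variable {X : Type*} [TopologicalSpace X] [LocallyCompactSpace X] [T2Space X]
  [SecondCountableTopology X] [MeasurableSpace X] [BorelSpace X]
variable {G : Type*} [Group G] [TopologicalSpace G] [IsTopologicalGroup G] [MulAction G X]
  [ContinuousSMul G X]
variable {L : Type*} [Group L] [TopologicalSpace L] [IsTopologicalGroup L]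
variable {ι : Type*} [Fintype ι] {n₀ : ℕ} {n : ι → ℕ} {q : ι → ℕ} [hqp : ∀ v, Fact (q v).Prime]

/-- `μ` is invariant under a nontrivial unipotent one-parameter group of `L` at the real place or
at one finite place, which is normalized by `A` and expanded by some element of `A`. -/
def UnipInv (κ : L →* SLS n₀ n q) (j : L →* G) (p : G →* L) (A : Subgroup G) (μ : Measure X) :
    Prop :=
  (∃ Y : Matrix (Fin n₀) (Fin n₀) ℝ, Y ≠ 0 ∧ IsNilpotent Y ∧
    (∀ a ∈ A, ∃ c : ℝ, (κ (p a)).1.1 * Y = c • (Y * (κ (p a)).1.1)) ∧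
    (∃ a ∈ A, ∃ c : ℝ, 1 < ‖c‖ ∧ (κ (p a)).1.1 * Y = c • (Y * (κ (p a)).1.1)) ∧
    ∀ x : ℝ, ∃ t : L, (κ t).1.1 = IsNilpotent.exp (x • Y) ∧ (κ t).2 = 1 ∧
      μ.map (fun z => j t • z) = μ) ∨
  ∃ v : ι, ∃ Y : Matrix (Fin (n v)) (Fin (n v)) ℚ_[q v], Y ≠ 0 ∧ IsNilpotent Y ∧
    (∀ a ∈ A, ∃ c : ℚ_[q v], ((κ (p a)).2 v).1 * Y = c • (Y * ((κ (p a)).2 v).1)) ∧
    (∃ a ∈ A, ∃ c : ℚ_[q v], 1 < ‖c‖ ∧ ((κ (p a)).2 v).1 * Y = c • (Y * ((κ (p a)).2 v).1)) ∧
    ∀ x : ℚ_[q v], ∃ t : L, ((κ t).2 v).1 = IsNilpotent.exp (x • Y) ∧ (κ t).1 = 1 ∧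
      (∀ v', v' ≠ v → (κ t).2 v' = 1) ∧ μ.map (fun z => j t • z) = μ

lemma diag_comm {n : ℕ} {K : Type*} [Field K] (β' : Fin n → K) (c : K)
    (Y : Matrix (Fin n) (Fin n) K) (h : ∀ i k, Y i k ≠ 0 → β' i = c * β' k) :
    diagonal β' * Y = c • (Y * diagonal β') := by
  ext i k
  rw [diagonal_mul, Matrix.smul_apply, mul_diagonal, smul_eq_mul]
  by_cases hik : Y i k = 0
  · rw [hik]; ring
  · rw [h i k hik]; ring

/-- A nontrivial expanded symmetry gives a nontrivial unipotent one-parameter group of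
symmetries. -/
theorem exists_unip (hq : Function.Injective q) {κ : L →* SLS n₀ n q} (hκ : IsClosedEmbedding κ)
    (j : L →* G) (p : G →* L) (hj : Continuous j)
    (hjp : ∀ (g : G) (u : L), g * j u * g⁻¹ = j (p g * u * (p g)⁻¹))
    {A : Subgroup G} (μ : Measure X) [IsProbabilityMeasure μ]
    (hμ : ∀ a ∈ A, μ.map (fun z => a • z) = μ)
    (herg : ∀ s : Set X, MeasurableSet s → (∀ a ∈ A, (fun z => a • z) ⁻¹' s =ᵐ[μ] s) →
      μ s = 0 ∨ μ sᶜ = 0)
    {a₀ : G} {α : Fin n₀ → ℝ} {β : (v : ι) → Fin (n v) → ℚ_[q v]} (D : SData κ p A a₀ α β)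
    (u : L) (hu : u ∈ gS j (p a₀) μ) (hu1 : u ≠ 1) : UnipInv κ j p A μ := by
  classical
  set φ : Lp ℝ 2 μ := ind μ Set.univ MeasurableSet.univ with hφ
  have hφ1 : ((φ : Lp ℝ 2 μ) : X → ℝ) =ᵐ[μ] fun _ => 1 := by
    have h2 := indicatorConstLp_coeFn (p := 2) (hs := (MeasurableSet.univ : MeasurableSet
      (Set.univ : Set X))) (hμs := measure_ne_top μ _) (c := (1 : ℝ))
    filter_upwards [h2] with x hx
    rw [hφ]
    unfold ind
    rw [hx]
    simp
  have h0 : ∫ x, φ x ∂μ ≠ 0 := by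
    rw [integral_congr_ae hφ1]
    simp
  have hSD : gS j (p a₀) μ ≤ gD j (p a₀) μ φ := by
    intro u hu
    refine ⟨hu.1, fun θ hθ => ?_⟩
    have h1 := (map_eq_iff_test μ (j u)).1 hu.2 θ hθ
    have e : ∀ ψ : X → ℝ, ∫ x, ψ x * φ x ∂μ = ∫ x, ψ x ∂μ := by
      intro ψ
      refine integral_congr_ae ?_
      filter_upwards [hφ1] with x hx
      rw [hx, mul_one]
    rw [e (fun x => θ (j u • x)), e (fun x => θ x)]
    exact h1
  have huD := hSD hu
  obtain ⟨huR, huP⟩ := (D.mem_up hκ u).1 hu.1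
  by_cases hR : (κ u).1 = 1
  · -- a finite place
    obtain ⟨v, hv⟩ : ∃ v, (κ u).2 v ≠ 1 := by
      by_contra hcon
      push Not at hcon
      apply hu1
      apply hκ.injective
      rw [map_one]
      exact Prod.ext hR (funext hcon)
    obtain ⟨Z, hZ, huZ⟩ := exists_log (huP v)
    have hZne : Z ≠ 0 := by
      rintro rfl
      apply hv
      apply Subtype.ext
      rw [huZ, IsNilpotent.exp_zero]
      rfl
    obtain ⟨c₀, hc₀⟩ : ∃ c : Fin (n v) × Fin (n v), Z c.1 c.2 ≠ 0 := by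
      by_contra hcon
      push Not at hcon
      apply hZne
      ext i k
      exact hcon (i, k)
    obtain ⟨c₁, hc₁, hmax⟩ := Finset.exists_max_image
      (Finset.univ.filter fun c : Fin (n v) × Fin (n v) => Z c.1 c.2 ≠ 0)
      (fun c => Real.log ‖β v c.1‖ - Real.log ‖β v c.2‖)
      ⟨c₀, Finset.mem_filter.2 ⟨Finset.mem_univ _, hc₀⟩⟩
    have hc₁' := (Finset.mem_filter.1 hc₁).2
    set h : ℝ := Real.log ‖β v c₁.1‖ - Real.log ‖β v c₁.2‖ with hh
    have hpos : 0 < h := by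
      by_contra hcon
      exact hc₁' (hZ c₁.1 c₁.2 (not_lt.1 hcon))
    have htop : ∀ i k, h < Real.log ‖β v i‖ - Real.log ‖β v k‖ → Z i k = 0 := by
      intro i k hik
      by_contra hne
      have := hmax (i, k) (Finset.mem_filter.2 ⟨Finset.mem_univ _, hne⟩)
      exact absurd hik (not_lt.2 this)
    have hgrp := padic_group hq hκ j p hj hjp μ hμ herg D φ h0 v u huD hR Z hZ huZ h hpos htop
      ⟨c₁.1, c₁.2, rfl⟩
    set Y := gcomp (fun i => Real.log ‖β v i‖) h Z with hY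
    have hYe : ∀ i k, Y i k ≠ 0 → Real.log ‖β v i‖ - Real.log ‖β v k‖ = h := by
      intro i k hne
      by_contra hcon
      apply hne
      show (if _ then Z i k else 0) = 0
      rw [if_neg hcon]
    refine Or.inr ⟨v, Y, ?_, ?_, ?_, ?_, ?_⟩
    · intro hY0
      apply hc₁'
      have h1 : Y c₁.1 c₁.2 = 0 := by rw [hY0]; rfl
      have h2 : Y c₁.1 c₁.2 = Z c₁.1 c₁.2 := by
        show (if _ then Z c₁.1 c₁.2 else 0) = _
        rw [if_pos rfl]
      rw [← h2]; exact h1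
    · refine Ggt.isNilpotent (ω := fun i => Real.log ‖β v i‖) fun i k hik => ?_
      by_contra hne
      have := hYe i k hne
      rw [this] at hik
      exact absurd hpos (not_lt.2 hik)
    · intro b hb
      obtain ⟨β', hβ', hc⟩ := D.regP b hb v
      obtain ⟨c, hc⟩ := hc h
      refine ⟨c, ?_⟩
      rw [hβ']
      exact diag_comm β' c Y fun i k hne => hc i k (hYe i k hne)
    · obtain ⟨β', hβ', hc⟩ := D.regP a₀ D.mem v
      obtain ⟨c, hc⟩ := hc h
      refine ⟨a₀, D.mem, c, ?_, ?_⟩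
      · have hββ : β' = β v := diagonal_injective (hβ'.symm.trans (D.eqP v))
        rw [hββ] at hc
        have h1 := hc c₁.1 c₁.2 rfl
        have hk := norm_pos_iff.2 (sl_diag_ne (D.eqP v) c₁.2)
        have hi := norm_pos_iff.2 (sl_diag_ne (D.eqP v) c₁.1)
        have h2 : ‖β v c₁.1‖ = ‖c‖ * ‖β v c₁.2‖ := by rw [h1, norm_mul]
        have h3 : ‖β v c₁.2‖ < ‖β v c₁.1‖ := by
          rw [← Real.log_lt_log_iff hk hi]
          linarith
        rw [h2] at h3
        by_contra hcon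
        push Not at hcon
        nlinarith
      · rw [hβ']
        exact diag_comm β' c Y fun i k hne => hc i k (hYe i k hne)
    · intro x
      obtain ⟨t, h1, h2, h3, h4⟩ := hgrp x
      exact ⟨t, h3, h1, h2, h4⟩
  · -- the real place
    obtain ⟨c₀, hw₀, hc₀⟩ : ∃ c : Fin n₀ × Fin n₀, 0 < wt α c.1 c.2 ∧ (κ u).1 c.1 c.2 ≠ 0 := by
      by_contra hcon
      push Not at hcon
      apply hR
      apply Subtype.ext
      ext i k
      rcases le_or_gt (wt α i k) 0 with h | h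
      · exact huR i k h
      · have h2 := hcon (i, k) h
        have h3 : i ≠ k := by
          rintro rfl
          rw [wt_self] at h
          exact lt_irrefl _ h
        have h4 : (1 : Matrix (Fin n₀) (Fin n₀) ℝ) i k = 0 := one_apply_ne h3
        exact h2.trans h4.symm
    obtain ⟨c₁, hc₁, hmin⟩ := Finset.exists_min_image
      (Finset.univ.filter fun c : Fin n₀ × Fin n₀ => 0 < wt α c.1 c.2 ∧ (κ u).1 c.1 c.2 ≠ 0)
      (fun c => wt α c.1 c.2) ⟨c₀, Finset.mem_filter.2 ⟨Finset.mem_univ _, hw₀, hc₀⟩⟩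
    obtain ⟨hl, hc₁'⟩ := (Finset.mem_filter.1 hc₁).2
    set l : ℝ := wt α c₁.1 c₁.2 with hldef
    have hlow : ∀ i k, 0 < wt α i k → wt α i k < l → (κ u).1 i k = 0 := by
      intro i k h1 h2
      by_contra hne
      have := hmin (i, k) (Finset.mem_filter.2 ⟨Finset.mem_univ _, h1, hne⟩)
      exact absurd h2 (not_lt.2 this)
    have hgrp := real_group hκ j p hj hjp μ hμ herg D φ h0 u huD l hl hlow
    set Y : Matrix (Fin n₀) (Fin n₀) ℝ := fun i k => if wt α i k = l then (κ u).1 i k else 0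
      with hY
    have hYv : ∀ i k, Y i k = if wt α i k = l then (κ u).1 i k else 0 := fun i k => rfl
    have hYe : ∀ i k, Y i k ≠ 0 → wt α i k = l := by
      intro i k hne
      by_contra hcon
      apply hne
      rw [hYv, if_neg hcon]
    have hYn : Y ^ n₀ = 0 := gr_nil α (fun i k hik => by
      by_contra hne
      have := hYe i k hne
      rw [this] at hik
      exact absurd hl (not_lt.2 hik)) n₀ le_rfl
    refine Or.inl ⟨Y, ?_, ⟨n₀, hYn⟩, ?_, ?_, ?_⟩
    · intro hY0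
      apply hc₁'
      have h1 : Y c₁.1 c₁.2 = 0 := by rw [hY0]; rfl
      rw [hYv, if_pos rfl] at h1
      exact h1
    · intro b hb
      obtain ⟨β', hβ', hc⟩ := D.regR b hb
      obtain ⟨c, hc⟩ := hc l
      refine ⟨c, ?_⟩
      rw [hβ']
      exact diag_comm β' c Y fun i k hne => hc i k (hYe i k hne)
    · obtain ⟨β', hβ', hc⟩ := D.regR a₀ D.mem
      obtain ⟨c, hc⟩ := hc l
      refine ⟨a₀, D.mem, c, ?_, ?_⟩
      · have hββ : β' = α := diagonal_injective (hβ'.symm.trans D.eqR)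
        rw [hββ] at hc
        have h1 := hc c₁.1 c₁.2 rfl
        have hk := D.pos c₁.2
        have hi := D.pos c₁.1
        have h3 : α c₁.2 < α c₁.1 := by
          rw [← Real.log_lt_log_iff hk hi]
          unfold wt at hldef
          linarith
        rw [Real.norm_eq_abs]
        refine lt_of_lt_of_le ?_ (le_abs_self c)
        rw [h1] at h3
        by_contra hcon
        push Not at hcon
        nlinarith
      · rw [hβ']
        exact diag_comm β' c Y fun i k hne => hc i k (hYe i k hne)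
    · intro x
      obtain ⟨t, h1, h2, h3⟩ := hgrp x
      refine ⟨t, ?_, h2, h3⟩
      rw [h1, gr_expo Y hYn]

/-- Asymptotic symmetries not centralizing `A` produce unipotent invariance. -/
theorem unip_of_seq (hq : Function.Injective q) (κ : L →* SLS n₀ n q) (j : L →* G) (p : G →* L)
    (hκ : IsClosedEmbedding κ) (hj : Continuous j)
    (hjp : ∀ (g : G) (u : L), g * j u * g⁻¹ = j (p g * u * (p g)⁻¹))
    (A : Subgroup G) (μ : Measure X) [IsProbabilityMeasure μ]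
    (hμ : ∀ a ∈ A, μ.map (fun z => a • z) = μ)
    (herg : ∀ s : Set X, MeasurableSet s → (∀ a ∈ A, (fun z => a • z) ⁻¹' s =ᵐ[μ] s) →
      μ s = 0 ∨ μ sᶜ = 0)
    (hdR : ∀ a ∈ A, ∀ i k, i ≠ k → (κ (p a)).1 i k = 0)
    (hdP : ∀ a ∈ A, ∀ v, ∀ i k, i ≠ k → (κ (p a)).2 v i k = 0)
    (hcR : ∀ i k r s, (∀ a ∈ A, ‖(κ (p a)).1 i i * (κ (p a)).1 s s‖ =
        ‖(κ (p a)).1 k k * (κ (p a)).1 r r‖) →
      ∀ a ∈ A, (κ (p a)).1 i i * (κ (p a)).1 s s = (κ (p a)).1 k k * (κ (p a)).1 r r)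
    (hcP : ∀ v, ∀ i k r s, (∀ a ∈ A, ‖(κ (p a)).2 v i i * (κ (p a)).2 v s s‖ =
        ‖(κ (p a)).2 v k k * (κ (p a)).2 v r r‖) →
      ∀ a ∈ A, (κ (p a)).2 v i i * (κ (p a)).2 v s s = (κ (p a)).2 v k k * (κ (p a)).2 v r r)
    (ν : Measure X) [IsFiniteMeasure ν] (hns : ¬ μ ⟂ₘ ν) (g : ℕ → L)
    (hg : Tendsto g atTop (𝓝 1)) (hTV : TVto atTop (fun k => j (g k)) ν)
    (hfr : ∃ᶠ k in atTop, ∃ b ∈ A, b * j (g k) ≠ j (g k) * b) : UnipInv κ j p A μ := by
  obtain ⟨a₀, α, β, D, hcen⟩ := exists_sdata κ j p hκ hjp A hdR hdP hcR hcP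
  obtain ⟨u, u', hu, hu', h⟩ := tv_gauge_dec j p hj hjp A μ hμ herg a₀ D.mem (D.gauge hκ)
    (fun φ h0 hSD => gD_le hq hκ j p hj hjp μ hμ herg D φ h0 hSD)
    (fun φ h0 hSD => gD_le hq hκ j p hj hjp μ hμ herg D.inv φ h0 hSD)
    hcen ν hns g hg hTV
  obtain ⟨k, ⟨b, hb, hne⟩, hk, -⟩ := (hfr.and_eventually h).exists
  by_cases h1 : u k = 1
  · by_cases h2 : u' k = 1
    · exfalso
      apply hne
      rw [h1, h2, inv_one, one_mul, one_mul] at hk
      exact hcen (g k) hk b hb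
    · exact exists_unip hq hκ j p hj hjp μ hμ herg D.inv (u' k) (hu' k) h2
  · exact exists_unip hq hκ j p hj hjp μ hμ herg D (u k) (hu k) h1

end Pool.Agent.Work.MP_67388f_an
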