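import Pool.Agent.Work.MP_67388f_an.TS.SData

set_option autoImplicit false

namespace Pool.Agent.Work.MP_67388f_an

open MeasureTheory Filter Topology Matrix

section lim

variable {ι : Type*} {n₀ : ℕ} {n : ι → ℕ} {q : ι → ℕ} [hqp : ∀ v, Fact (q v).Prime]
variable {L : Type*} [Group L] [TopologicalSpace L]

lemma tend_kappa {κ : L →* SLS n₀ n q} (hκ : IsClosedEmbedding κ) (f : ℕ → L)
    (r : SpecialLinearGroup (Fin n₀) ℝ) (z : (v : ι) → SpecialLinearGroup (Fin (n v)) ℚ_[q v])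
    (h1 : Tendsto (fun m => (κ (f m)).1) atTop (𝓝 r))
    (h2 : ∀ v, Tendsto (fun m => (κ (f m)).2 v) atTop (𝓝 (z v))) :
    ∃ t : L, κ t = (r, z) ∧ Tendsto f atTop (𝓝 t) := by
  have h3 : Tendsto (fun m => κ (f m)) atTop (𝓝 (r, z)) := by
    rw [nhds_prod_eq]
    exact h1.prodMk (tendsto_pi_nhds.2 h2)
  obtain ⟨t, ht⟩ : (r, z) ∈ Set.range κ :=
    hκ.isClosed_range.mem_of_tendsto h3 (Eventually.of_forall fun m => ⟨_, rfl⟩)
  refine ⟨t, ht, ?_⟩
  rw [hκ.isEmbedding.tendsto_nhds_iff, ht]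
  exact h3

end lim

/-- the component of weight `h` -/
noncomputable def gcomp {n : ℕ} {K : Type*} [Zero K] (ω : Fin n → ℝ) (h : ℝ)
    (Z : Matrix (Fin n) (Fin n) K) : Matrix (Fin n) (Fin n) K :=
  Matrix.of fun i k => if ω i - ω k = h then Z i k else 0

section aux

variable {ι : Type*} [Fintype ι] {n₀ : ℕ} {n : ι → ℕ} {q : ι → ℕ} [hqp : ∀ v, Fact (q v).Prime]
variable {L : Type*} [Group L]

lemma ratio_bound (β : (v : ι) → Fin (n v) → ℚ_[q v]) :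
    ∃ R : ℝ, 1 ≤ R ∧ ∀ v i k, ‖β v i‖ / ‖β v k‖ ≤ R := by
  let f : (Σ v : ι, Fin (n v) × Fin (n v)) → ℝ := fun c => ‖β c.1 c.2.1‖ / ‖β c.1 c.2.2‖
  obtain ⟨b, hb⟩ := (Set.finite_range f).bddAbove
  refine ⟨max 1 b, le_max_left _ _, fun v i k => ?_⟩
  exact (hb ⟨⟨v, i, k⟩, rfl⟩).trans (le_max_right _ _)

omit [Fintype ι] in
lemma fst_conj_pow (κ : L →* SLS n₀ n q) (b v : L) (m k : ℕ) :
    (κ (b ^ m * v ^ k * (b ^ m)⁻¹)).1 =
      ((κ b).1) ^ m * ((κ v).1) ^ k * (((κ b).1) ^ m)⁻¹ := by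
  rw [map_mul, map_mul, map_inv, map_pow, map_pow]
  rfl

omit [Fintype ι] in
lemma snd_conj_pow (κ : L →* SLS n₀ n q) (b v : L) (m k : ℕ) (v' : ι) :
    (κ (b ^ m * v ^ k * (b ^ m)⁻¹)).2 v' =
      ((κ b).2 v') ^ m * ((κ v).2 v') ^ k * (((κ b).2 v') ^ m)⁻¹ := by
  rw [map_mul, map_mul, map_inv, map_pow, map_pow]
  rfl

end aux

variable {X : Type*} [TopologicalSpace X] [LocallyCompactSpace X] [T2Space X]
  [SecondCountableTopology X] [MeasurableSpace X] [BorelSpace X]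
variable {G : Type*} [Group G] [TopologicalSpace G] [IsTopologicalGroup G] [MulAction G X]
  [ContinuousSMul G X]
variable {L : Type*} [Group L] [TopologicalSpace L] [IsTopologicalGroup L]
variable {ι : Type*} [Fintype ι] {n₀ : ℕ} {n : ι → ℕ} {q : ι → ℕ} [hqp : ∀ v, Fact (q v).Prime]

/-- the one-parameter group of the lowest component at the real place -/
theorem real_group {κ : L →* SLS n₀ n q} (hκ : IsClosedEmbedding κ) (j : L →* G) (p : G →* L)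
    (hj : Continuous j)
    (hjp : ∀ (g : G) (u : L), g * j u * g⁻¹ = j (p g * u * (p g)⁻¹))
    {A : Subgroup G} (μ : Measure X) [IsProbabilityMeasure μ]
    (hμ : ∀ a ∈ A, μ.map (fun z => a • z) = μ)
    (herg : ∀ s : Set X, MeasurableSet s → (∀ a ∈ A, (fun z => a • z) ⁻¹' s =ᵐ[μ] s) →
      μ s = 0 ∨ μ sᶜ = 0)
    {a₀ : G} {α : Fin n₀ → ℝ} {β : (v : ι) → Fin (n v) → ℚ_[q v]} (D : SData κ p A a₀ α β)
    (φ : Lp ℝ 2 μ) (h0 : ∫ x, φ x ∂μ ≠ 0) (v : L) (hv : v ∈ gD j (p a₀) μ φ) (l : ℝ) (hl : 0 < l)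
    (hlow : ∀ i k, 0 < wt α i k → wt α i k < l → (κ v).1 i k = 0) :
    ∀ x : ℝ, ∃ t : L, (κ t).1.1 = expo (fun i k => if wt α i k = l then (κ v).1 i k else 0) x ∧
      (κ t).2 = 1 ∧ j t ∈ stb (G := G) μ := by
  classical
  obtain ⟨hvR, hvP⟩ := (D.mem_up hκ v).1 hv.1
  set Y : Matrix (Fin n₀) (Fin n₀) ℝ := fun i k => if wt α i k = l then (κ v).1 i k else 0
    with hYdef
  have hY : ∀ i k, Y i k = if wt α i k = l then (κ v).1 i k else 0 := fun i k => rfl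
  have key : ∀ x : ℝ, 0 ≤ x → ∃ t : L, (κ t).1.1 = expo Y x ∧ (κ t).2 = 1 ∧ ∃ k : ℕ → ℕ,
      Tendsto (fun m => p a₀⁻¹ ^ m * v ^ (k m) * (p a₀⁻¹ ^ m)⁻¹) atTop (𝓝 t) := by
    intro x hx
    obtain ⟨e', k, he', hlim⟩ := pow_contract α D.pos (κ (p a₀)).1 D.eqR (κ v).1 hvR l hl hlow Y hY
      x hx
    obtain ⟨t, ht, hlt⟩ := tend_kappa hκ (fun m => p a₀⁻¹ ^ m * v ^ (k m) * (p a₀⁻¹ ^ m)⁻¹) e' 1
      (by
        refine hlim.congr fun m => ?_
        have e1 : κ (p a₀⁻¹ ^ m * v ^ (k m) * (p a₀⁻¹ ^ m)⁻¹)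
            = (κ (p a₀) ^ m)⁻¹ * κ v ^ (k m) * κ (p a₀) ^ m := by
          simp only [map_mul, map_inv, map_pow, inv_pow, inv_inv]
        rw [e1]
        rfl)
      (by
        intro v'
        obtain ⟨Z, hZ, hvZ⟩ := exists_log (hvP v')
        have h1 := lim_one (D.inv.eqP v') hZ hvZ k (fun m => by
          have := Padic.norm_int_le_one (p := q v') (k m : ℤ)
          simpa using this) (fun i k' hik => Or.inr (by
            apply tendsto_pow_atTop_nhds_zero_of_lt_one (by positivity)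
            have hi := norm_pos_iff.2 (sl_diag_ne (D.eqP v') i)
            have hk := norm_pos_iff.2 (sl_diag_ne (D.eqP v') k')
            have h2 : ‖β v' k'‖ < ‖β v' i‖ := (Real.log_lt_log_iff hk hi).1 hik
            rw [norm_inv, norm_inv, inv_div_inv, div_lt_one hi]
            exact h2))
        exact h1.congr fun m => (snd_conj_pow κ _ v m (k m) v').symm)
    refine ⟨t, ?_, ?_, k, hlt⟩
    · rw [ht]; exact he'
    · rw [ht]
  set T : Set L := {t | (∃ x : ℝ, (κ t).1.1 = expo Y x) ∧ (κ t).2 = 1} with hT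
  have hTA : ∀ b ∈ A, ∀ t ∈ T, p b * t * (p b)⁻¹ ∈ T := by
    rintro b hb t ⟨⟨x, hx⟩, h2⟩
    obtain ⟨β', hβ', hc⟩ := D.regR b hb
    obtain ⟨c, hc⟩ := hc l
    refine ⟨⟨c * x, ?_⟩, ?_⟩
    · have := expo_conj' β' (κ (p b)).1 (κ t).1 hβ' Y c x (fun i k hik => by
        apply hc i k
        by_contra hne
        apply hik
        rw [hY, if_neg hne]) hx
      rw [← this, map_mul, map_mul, map_inv]
      rfl
    · rw [map_mul, map_mul, map_inv, Prod.snd_mul, Prod.snd_mul, Prod.snd_inv, h2, mul_one,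
        mul_inv_cancel]
  have hmemT := step_gen j p hj hjp A μ hμ herg a₀⁻¹ (inv_mem D.mem) φ h0 v hv.2 T hTA (by
    rintro t ⟨⟨x, hx⟩, h2⟩
    rcases le_or_gt 0 x with hx0 | hx0
    · left
      obtain ⟨t', h3, h4, k, hk⟩ := key x hx0
      have : t' = t := by
        apply hκ.injective
        exact Prod.ext (Subtype.ext (h3.trans hx.symm)) (h4.trans h2.symm)
      rw [← this]
      exact ⟨k, hk⟩
    · right
      obtain ⟨t', h3, h4, k, hk⟩ := key (-x) (by linarith)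
      have h5 := expo_neg α Y l hl (fun i k hik => by rw [hY, if_neg hik]) x (κ t).1 (κ t').1 hx h3
      have : t' = t⁻¹ := by
        apply hκ.injective
        rw [map_inv]
        refine Prod.ext h5 ?_
        rw [Prod.snd_inv, h2, h4, inv_one]
      rw [← this]
      exact ⟨k, hk⟩)
  intro x
  rcases le_or_gt 0 x with hx | hx
  · obtain ⟨t, ht1, ht2, -⟩ := key x hx
    exact ⟨t, ht1, ht2, hmemT t ⟨⟨x, ht1⟩, ht2⟩⟩
  · obtain ⟨t, ht1, ht2, -⟩ := key (-x) (by linarith)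
    have h1 := hmemT t ⟨⟨-x, ht1⟩, ht2⟩
    obtain ⟨M, hM⟩ : ∃ M : SpecialLinearGroup (Fin n₀) ℝ, M.1 = expo Y x := by
      have hnil : Y ^ n₀ = 0 := gr_nil α (fun i k hik => by
        rw [hY, if_neg]
        intro h
        rw [h] at hik
        linarith) n₀ le_rfl
      have hxn : IsNilpotent (x • Y) := ⟨n₀, by rw [smul_pow, hnil, smul_zero]⟩
      refine ⟨⟨expo Y x, ?_⟩, rfl⟩
      have h2 : expo Y x * (κ t).1.1 = 1 := by
        rw [ht1, gr_expo Y hnil, gr_expo Y hnil, neg_smul]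
        exact IsNilpotent.exp_mul_exp_neg_self hxn
      have h3 := congrArg Matrix.det h2
      rw [det_mul, (κ t).1.2, mul_one, det_one] at h3
      exact h3
    have h5 := expo_neg α Y l hl (fun i k hik => by rw [hY, if_neg hik]) x M (κ t).1 hM ht1
    refine ⟨t⁻¹, ?_, ?_, ?_⟩
    · rw [map_inv, Prod.fst_inv, h5, inv_inv]
      exact hM
    · rw [map_inv, Prod.snd_inv, ht2, inv_one]
    · rw [map_inv]
      exact inv_mem h1

/-- peeling the lowest component at the real place -/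
theorem real_step {κ : L →* SLS n₀ n q} (hκ : IsClosedEmbedding κ) (j : L →* G) (p : G →* L)
    (hj : Continuous j)
    (hjp : ∀ (g : G) (u : L), g * j u * g⁻¹ = j (p g * u * (p g)⁻¹))
    {A : Subgroup G} (μ : Measure X) [IsProbabilityMeasure μ]
    (hμ : ∀ a ∈ A, μ.map (fun z => a • z) = μ)
    (herg : ∀ s : Set X, MeasurableSet s → (∀ a ∈ A, (fun z => a • z) ⁻¹' s =ᵐ[μ] s) →
      μ s = 0 ∨ μ sᶜ = 0)
    {a₀ : G} {α : Fin n₀ → ℝ} {β : (v : ι) → Fin (n v) → ℚ_[q v]} (D : SData κ p A a₀ α β)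
    (φ : Lp ℝ 2 μ) (h0 : ∫ x, φ x ∂μ ≠ 0) (v : L) (hv : v ∈ gD j (p a₀) μ φ) (l : ℝ) (hl : 0 < l)
    (hlow : ∀ i k, 0 < wt α i k → wt α i k < l → (κ v).1 i k = 0) :
    ∃ e : L, e ∈ gS j (p a₀) μ ∧ ∀ i k, 0 < wt α i k → wt α i k ≤ l → (κ (e⁻¹ * v)).1 i k = 0 := by
  classical
  obtain ⟨hvR, hvP⟩ := (D.mem_up hκ v).1 hv.1
  obtain ⟨e, he1, he2, he3⟩ := real_group hκ j p hj hjp μ hμ herg D φ h0 v hv l hl hlow 1
  obtain ⟨p1, -, p3⟩ := peel α (κ v).1 (κ e).1 hvR l hl hlow _ (fun i k => rfl) he1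
  refine ⟨e, ⟨?_, he3⟩, ?_⟩
  · refine (D.mem_up hκ e).2 ⟨p1, fun v' => ?_⟩
    rw [he2]
    have : ((1 : (v : ι) → SpecialLinearGroup (Fin (n v)) ℚ_[q v]) v').1 - 1 = 0 := sub_self _
    rw [this]
    exact Ggt.zero 0
  · intro i k h1 h2
    rw [map_mul, map_inv]
    exact p3 i k h1 h2

/-- the one-parameter group of the top component at a finite place -/
theorem padic_group (hq : Function.Injective q) {κ : L →* SLS n₀ n q} (hκ : IsClosedEmbedding κ)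
    (j : L →* G) (p : G →* L) (hj : Continuous j)
    (hjp : ∀ (g : G) (u : L), g * j u * g⁻¹ = j (p g * u * (p g)⁻¹))
    {A : Subgroup G} (μ : Measure X) [IsProbabilityMeasure μ]
    (hμ : ∀ a ∈ A, μ.map (fun z => a • z) = μ)
    (herg : ∀ s : Set X, MeasurableSet s → (∀ a ∈ A, (fun z => a • z) ⁻¹' s =ᵐ[μ] s) →
      μ s = 0 ∨ μ sᶜ = 0)
    {a₀ : G} {α : Fin n₀ → ℝ} {β : (v : ι) → Fin (n v) → ℚ_[q v]} (D : SData κ p A a₀ α β)
    (φ : Lp ℝ 2 μ) (h0 : ∫ x, φ x ∂μ ≠ 0) (v₁ : ι) (v : L) (hv : v ∈ gD j (p a₀) μ φ)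
    (hreal : (κ v).1 = 1) (Z : Matrix (Fin (n v₁)) (Fin (n v₁)) ℚ_[q v₁])
    (hZ : Ggt (fun i => Real.log ‖β v₁ i‖) 0 Z) (hvZ : ((κ v).2 v₁).1 = IsNilpotent.exp Z)
    (h : ℝ) (hh : 0 < h)
    (htop : ∀ i k, h < Real.log ‖β v₁ i‖ - Real.log ‖β v₁ k‖ → Z i k = 0)
    (hex : ∃ i k, Real.log ‖β v₁ i‖ - Real.log ‖β v₁ k‖ = h) :
    ∀ x : ℚ_[q v₁], ∃ t : L, (κ t).1 = 1 ∧ (∀ v', v' ≠ v₁ → (κ t).2 v' = 1) ∧
      ((κ t).2 v₁).1 = IsNilpotent.exp (x • gcomp (fun i => Real.log ‖β v₁ i‖) h Z) ∧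
      j t ∈ stb (G := G) μ := by
  classical
  obtain ⟨hvR, hvP⟩ := (D.mem_up hκ v).1 hv.1
  set ω : Fin (n v₁) → ℝ := fun i => Real.log ‖β v₁ i‖ with hω
  set Y : Matrix (Fin (n v₁)) (Fin (n v₁)) ℚ_[q v₁] := gcomp ω h Z with hYdef
  have hY : ∀ i k, Y i k = if ω i - ω k = h then Z i k else 0 := fun i k => rfl
  have hYg : Ggt ω 0 Y := by
    intro i k hik
    rw [hY]
    split_ifs
    · exact hZ i k hik
    · rfl
  have hYn : Y ^ (n v₁) = 0 := hYg.pow_zero _ le_rfl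
  -- the scaling factor
  obtain ⟨β', hβ', hc⟩ := D.regP a₀ D.mem v₁
  have hββ : β' = β v₁ := by
    have h1 := hβ'.symm.trans (D.eqP v₁)
    exact diagonal_injective h1
  subst hββ
  obtain ⟨c, hc⟩ := hc h
  have hc0 : ‖c‖ = Real.exp h := by
    obtain ⟨i, k, hik⟩ := hex
    have h1 := hc i k hik
    have hk := norm_pos_iff.2 (sl_diag_ne (D.eqP v₁) k)
    have hi := norm_pos_iff.2 (sl_diag_ne (D.eqP v₁) i)
    have h2 : ‖β v₁ i‖ = ‖c‖ * ‖β v₁ k‖ := by rw [h1, norm_mul]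
    rw [← hik, Real.exp_sub, Real.exp_log hi, Real.exp_log hk, h2]
    field_simp
  have hc1 : 1 < ‖c‖ := by
    rw [hc0, Real.one_lt_exp_iff]
    exact hh
  -- a bound for all ratios
  obtain ⟨R, hR1, hRb⟩ := ratio_bound β
  have key : ∀ x : ℚ_[q v₁], ∃ t : L, (κ t).1 = 1 ∧ (∀ v', v' ≠ v₁ → (κ t).2 v' = 1) ∧
      ((κ t).2 v₁).1 = IsNilpotent.exp (x • Y) ∧ ∃ k : ℕ → ℕ,
      Tendsto (fun m => p a₀ ^ m * v ^ (k m) * (p a₀ ^ m)⁻¹) atTop (𝓝 t) := by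
    intro x
    obtain ⟨k, hk, hk'⟩ := exists_powers q hq v₁ c hc1 x R hR1
    obtain ⟨e', he', hlim⟩ := lim_top (D.eqP v₁) (fun i => rfl) hZ hvZ h htop hY c hc0 hc x k hk
    obtain ⟨t, ht, hlt⟩ := tend_kappa hκ (fun m => p a₀ ^ m * v ^ (k m) * (p a₀ ^ m)⁻¹) 1
      (Function.update 1 v₁ e')
      (by
        refine tendsto_const_nhds.congr fun m => ?_
        rw [fst_conj_pow, hreal, one_pow, mul_one, mul_inv_cancel])
      (by
        intro v'
        by_cases hv' : v' = v₁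
        · subst hv'
          rw [Function.update_self]
          exact hlim.congr fun m => (snd_conj_pow κ _ v m (k m) v').symm
        · rw [Function.update_of_ne hv']
          obtain ⟨Z', hZ', hvZ'⟩ := exists_log (hvP v')
          have h1 := lim_one (D.eqP v') hZ' hvZ' k (fun m => by
            have := Padic.norm_int_le_one (p := q v') (k m : ℤ)
            simpa using this) (fun i k' _ => Or.inl (by
            refine squeeze_zero (fun m => by positivity) (fun m => ?_) (hk' v' hv')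
            have h2 := hRb v' i k'
            gcongr))
          exact h1.congr fun m => (snd_conj_pow κ _ v m (k m) v').symm)
    have h5 : (κ t).2 = Function.update
        (1 : (v : ι) → SpecialLinearGroup (Fin (n v)) ℚ_[q v]) v₁ e' := by rw [ht]
    refine ⟨t, by rw [ht], fun v' hv' => ?_, ?_, k, hlt⟩
    · rw [h5, Function.update_of_ne hv']
      rfl
    · rw [h5, Function.update_self]
      exact he'
  set T : Set L := {t | (κ t).1 = 1 ∧ (∀ v', v' ≠ v₁ → (κ t).2 v' = 1) ∧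
    ∃ x : ℚ_[q v₁], ((κ t).2 v₁).1 = IsNilpotent.exp (x • Y)} with hT
  have hTA : ∀ b ∈ A, ∀ t ∈ T, p b * t * (p b)⁻¹ ∈ T := by
    rintro b hb t ⟨h1, h2, x, hx⟩
    obtain ⟨β', hβ', hc'⟩ := D.regP b hb v₁
    obtain ⟨c', hc'⟩ := hc' h
    refine ⟨?_, fun v' hv' => ?_, c' * x, ?_⟩
    · rw [map_mul, map_mul, map_inv, Prod.fst_mul, Prod.fst_mul, Prod.fst_inv, h1, mul_one,
        mul_inv_cancel]
    · rw [map_mul, map_mul, map_inv]
      show (κ (p b)).2 v' * (κ t).2 v' * ((κ (p b)).2 v')⁻¹ = 1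
      rw [h2 v' hv', mul_one, mul_inv_cancel]
    · rw [map_mul, map_mul, map_inv]
      show ((κ (p b)).2 v₁ * (κ t).2 v₁ * ((κ (p b)).2 v₁)⁻¹).1 = _
      refine exp_conj_K _ _ hβ' Y hYn c' x (fun i k hik => ?_) hx
      apply hc' i k
      by_contra hne
      apply hik
      rw [hY, if_neg hne]
  have hmemT := step_gen j p hj hjp A μ hμ herg a₀ D.mem φ h0 v hv.2 T hTA (by
    rintro t ⟨h1, h2, x, hx⟩
    left
    obtain ⟨t', h1', h2', h3', k, hk⟩ := key x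
    have : t' = t := by
      apply hκ.injective
      refine Prod.ext (h1'.trans h1.symm) ?_
      funext v'
      by_cases hv' : v' = v₁
      · subst hv'
        exact Subtype.ext (h3'.trans hx.symm)
      · rw [h2 v' hv', h2' v' hv']
    rw [← this]
    exact ⟨k, hk⟩)
  intro x
  obtain ⟨t, ht1, ht2, ht3, -⟩ := key x
  exact ⟨t, ht1, ht2, ht3, hmemT t ⟨ht1, ht2, x, ht3⟩⟩

/-- the top component at a finite place -/
theorem padic_step (hq : Function.Injective q) {κ : L →* SLS n₀ n q} (hκ : IsClosedEmbedding κ)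
    (j : L →* G) (p : G →* L) (hj : Continuous j)
    (hjp : ∀ (g : G) (u : L), g * j u * g⁻¹ = j (p g * u * (p g)⁻¹))
    {A : Subgroup G} (μ : Measure X) [IsProbabilityMeasure μ]
    (hμ : ∀ a ∈ A, μ.map (fun z => a • z) = μ)
    (herg : ∀ s : Set X, MeasurableSet s → (∀ a ∈ A, (fun z => a • z) ⁻¹' s =ᵐ[μ] s) →
      μ s = 0 ∨ μ sᶜ = 0)
    {a₀ : G} {α : Fin n₀ → ℝ} {β : (v : ι) → Fin (n v) → ℚ_[q v]} (D : SData κ p A a₀ α β)
    (φ : Lp ℝ 2 μ) (h0 : ∫ x, φ x ∂μ ≠ 0) (v₁ : ι) (v : L) (hv : v ∈ gD j (p a₀) μ φ)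
    (hreal : (κ v).1 = 1) (Z : Matrix (Fin (n v₁)) (Fin (n v₁)) ℚ_[q v₁])
    (hZ : Ggt (fun i => Real.log ‖β v₁ i‖) 0 Z) (hvZ : ((κ v).2 v₁).1 = IsNilpotent.exp Z)
    (h : ℝ) (hh : 0 < h)
    (htop : ∀ i k, h < Real.log ‖β v₁ i‖ - Real.log ‖β v₁ k‖ → Z i k = 0)
    (hex : ∃ i k, Real.log ‖β v₁ i‖ - Real.log ‖β v₁ k‖ = h) :
    ∃ e : L, e ∈ gS j (p a₀) μ ∧ (κ e).1 = 1 ∧ (∀ v', v' ≠ v₁ → (κ e).2 v' = 1) ∧
      ((κ e).2 v₁).1 = IsNilpotent.exp (gcomp (fun i => Real.log ‖β v₁ i‖) h Z) := by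
  classical
  obtain ⟨e, he1, he2, he3, he4⟩ := padic_group hq hκ j p hj hjp μ hμ herg D φ h0 v₁ v hv hreal Z
    hZ hvZ h hh htop hex 1
  rw [one_smul] at he3
  refine ⟨e, ⟨?_, he4⟩, he1, he2, he3⟩
  refine (D.mem_up hκ e).2 ⟨?_, fun v' => ?_⟩
  · rw [he1]; exact IsUp.one α
  · by_cases hv' : v' = v₁
    · subst hv'
      rw [he3]
      refine Ggt.exp_sub_one fun i k hik => ?_
      show (if _ then Z i k else 0) = 0
      split_ifs
      · exact hZ i k hik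
      · rfl
    · rw [he2 v' hv']
      have : (1 : SpecialLinearGroup (Fin (n v')) ℚ_[q v']).1 - 1 = 0 := sub_self _
      rw [this]
      exact Ggt.zero 0

end Pool.Agent.Work.MP_67388f_an
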